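import Pool.Agent.Lib_H23Rec.KL

/-!
# Extremal windows

If in a window of positive terms of the recurrence the ratio `x 7 / x 5` (or its inverse) is the
largest among all lag-two ratios and is larger than one, then one of three strict alternating
orders must occur.
-/

namespace H23Rec

/-- the recurrence, cleared of denominators -/
def Rec (α A B D : ℝ) (x : ℕ → ℝ) : Prop :=
  ∀ n, x (n + 3) * (A + B * x (n + 2) + x (n + 1) + D * x n) = α + x (n + 1)

/-- strict alternating order with shift `k` at time `i`, upward at `i` -/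
def Up (x : ℕ → ℝ) (k i : ℕ) : Prop :=
  x i < x (i + k) ∧ x (i + 1 + k) < x (i + 1) ∧ x (i + 2) < x (i + 2 + k)

/-- strict alternating order with shift `k` at time `i`, downward at `i` -/
def Dn (x : ℕ → ℝ) (k i : ℕ) : Prop :=
  x (i + k) < x i ∧ x (i + 1) < x (i + 1 + k) ∧ x (i + 2 + k) < x (i + 2)

lemma EL_up {A B D α m : ℝ} {x : ℕ → ℝ} (hA : 0 ≤ A) (hB : 0 ≤ B) (hD : 0 ≤ D)
    (hα : 0 ≤ α) (hx : ∀ n, 0 < x n) (hr : Rec α A B D x) (hm : 1 < m)
    (hup : ∀ n, x (n + 2) ≤ m * x n) (hdn : ∀ n, x n ≤ m * x (n + 2))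
    (h75 : x 7 = m * x 5) (H1 : ¬ Up x 2 3) (H2 : ¬ Up x 2 1) (H3 : ¬ Up x 6 1) : False := by
  have hm0 : 0 < m := by linarith
  have x0 := hx 0
  have x1 := hx 1
  have x2 := hx 2
  have x3 := hx 3
  have x4 := hx 4
  have x5 := hx 5
  have x6 := hx 6
  have x7 := hx 7
  have x8 := hx 8
  have x9 := hx 9
  have e1 : x 3 * (A + B * x 2 + x 1 + D * x 0) = α + x 1 := hr 0
  have e2 : x 4 * (A + B * x 3 + x 2 + D * x 1) = α + x 2 := hr 1
  have e3 : x 5 * (A + B * x 4 + x 3 + D * x 2) = α + x 3 := hr 2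
  have e4 : x 6 * (A + B * x 5 + x 4 + D * x 3) = α + x 4 := hr 3
  have e5 : x 7 * (A + B * x 6 + x 5 + D * x 4) = α + x 5 := hr 4
  have e6 : x 8 * (A + B * x 7 + x 6 + D * x 5) = α + x 6 := hr 5
  have u1 : x 3 ≤ m * x 1 := hup 1
  have u3 : x 5 ≤ m * x 3 := hup 3
  have d0 : x 0 ≤ m * x 2 := hdn 0
  have d1 : x 1 ≤ m * x 3 := hdn 1
  have d2 : x 2 ≤ m * x 4 := hdn 2
  have d3 : x 3 ≤ m * x 5 := hdn 3
  have d4 : x 4 ≤ m * x 6 := hdn 4
  have d7 : x 7 ≤ m * x 9 := hdn 7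
  -- basic relation
  have hb : m * (A + B * x 6 + x 5 + D * x 4) * (α + x 3)
      = (α + x 5) * (A + B * x 4 + x 3 + D * x 2) := by
    rw [← e5, h75, ← e3]; ring
  -- (a)
  have ha : x 3 < x 5 := by
    by_contra hc
    push Not at hc
    have f1 : A + B * x 4 + x 3 + D * x 2 ≤ m * (A + B * x 6 + D * x 4) + x 3 := by
      have : A * 1 ≤ A * m := mul_le_mul_of_nonneg_left hm.le hA
      have : B * x 4 ≤ B * (m * x 6) := mul_le_mul_of_nonneg_left d4 hB
      have : D * x 2 ≤ D * (m * x 4) := mul_le_mul_of_nonneg_left d2 hD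
      linarith
    have f2 : m * (A + B * x 6 + x 5 + D * x 4) * (α + x 3)
        ≤ (α + x 5) * (m * (A + B * x 6 + D * x 4) + x 3) := by
      rw [hb]
      exact mul_le_mul_of_nonneg_left f1 (by positivity)
    have f3 : 0 ≤ m * (A + B * x 6 + D * x 4) * (x 3 - x 5) :=
      mul_nonneg (by positivity) (by linarith)
    have f4 : 0 ≤ α * (m * x 5 - x 3) := mul_nonneg hα (by linarith)
    have f5 : 0 < (m - 1) * (x 3 * x 5) := mul_pos (by linarith) (by positivity)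
    linarith
  have hb' : x 4 ≤ x 6 := by
    by_contra hc
    push Not at hc
    refine H1 ⟨ha, hc, ?_⟩
    change x 5 < x 7
    rw [h75]
    nlinarith
  have hc : x 4 < x 2 := by
    by_contra hc
    push Not at hc
    have f1 : A + B * x 4 + x 3 + D * x 2 ≤ (A + B * x 6 + D * x 4) + x 3 := by
      have : B * x 4 ≤ B * (x 6) := mul_le_mul_of_nonneg_left hb' hB
      have : D * x 2 ≤ D * (x 4) := mul_le_mul_of_nonneg_left hc hD
      linarith
    have f2 : m * (A + B * x 6 + x 5 + D * x 4) * (α + x 3)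
        ≤ (α + x 5) * ((A + B * x 6 + D * x 4) + x 3) := by
      rw [hb]
      exact mul_le_mul_of_nonneg_left f1 (by positivity)
    set N := A + B * x 6 + D * x 4 with hN
    have hN0 : 0 ≤ N := by rw [hN]; positivity
    have f3 : x 3 * (m * (N + x 5) * (α + x 3)) ≤ x 3 * ((α + x 5) * (N + x 3)) := by
      apply mul_le_mul_of_nonneg_left _ x3.le
      have e : N + x 5 = A + B * x 6 + x 5 + D * x 4 := by rw [hN]; ring
      rw [e]
      exact f2
    have f4 : x 5 * ((N + x 5) * (α + x 3)) ≤ (m * x 3) * ((N + x 5) * (α + x 3)) :=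
      mul_le_mul_of_nonneg_right u3 (by positivity)
    have f5 : 0 ≤ α * (x 5 - x 3) * (N + x 3) :=
      mul_nonneg (mul_nonneg hα (by linarith)) (by positivity)
    have f6 : 0 < x 5 * (α + x 3) * (x 5 - x 3) := mul_pos (by positivity) (by linarith)
    linarith
  have hd : x 3 ≤ x 1 := by
    by_contra hcc
    push Not at hcc
    exact H2 ⟨hcc, hc, ha⟩
  have he1 : x 1 < x 7 := by
    rw [h75]
    have : m * x 3 < m * x 5 := mul_lt_mul_of_pos_left ha hm0
    linarith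
  have he2 : x 3 < x 9 := by
    have : m * x 5 ≤ m * x 9 := by rw [← h75]; exact d7
    have := le_of_mul_le_mul_left this hm0
    linarith
  have he : x 2 ≤ x 8 := by
    by_contra hcc
    push Not at hcc
    exact H3 ⟨he1, hcc, he2⟩
  exact KL_up hA hB hD hα x1 x2 x3 x4 x5 x6 x7 e1 e2 e3 e4 e5 e6 hm h75 hd hc ha hb' d1 d0 d2 he

lemma EL_down {A B D α m : ℝ} {x : ℕ → ℝ} (hA : 0 ≤ A) (hB : 0 ≤ B) (hD : 0 ≤ D)
    (hα : 0 ≤ α) (hx : ∀ n, 0 < x n) (hr : Rec α A B D x) (hm : 1 < m)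
    (hup : ∀ n, x (n + 2) ≤ m * x n) (hdn : ∀ n, x n ≤ m * x (n + 2))
    (h57 : x 5 = m * x 7) (H1 : ¬ Dn x 2 3) (H2 : ¬ Dn x 2 1) (H3 : ¬ Dn x 6 1) : False := by
  have hm0 : 0 < m := by linarith
  have x0 := hx 0
  have x1 := hx 1
  have x2 := hx 2
  have x3 := hx 3
  have x4 := hx 4
  have x5 := hx 5
  have x6 := hx 6
  have x7 := hx 7
  have x8 := hx 8
  have x9 := hx 9
  have e1 : x 3 * (A + B * x 2 + x 1 + D * x 0) = α + x 1 := hr 0
  have e2 : x 4 * (A + B * x 3 + x 2 + D * x 1) = α + x 2 := hr 1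
  have e3 : x 5 * (A + B * x 4 + x 3 + D * x 2) = α + x 3 := hr 2
  have e4 : x 6 * (A + B * x 5 + x 4 + D * x 3) = α + x 4 := hr 3
  have e5 : x 7 * (A + B * x 6 + x 5 + D * x 4) = α + x 5 := hr 4
  have e6 : x 8 * (A + B * x 7 + x 6 + D * x 5) = α + x 6 := hr 5
  have u0 : x 2 ≤ m * x 0 := hup 0
  have u1 : x 3 ≤ m * x 1 := hup 1
  have u2 : x 4 ≤ m * x 2 := hup 2
  have u3 : x 5 ≤ m * x 3 := hup 3
  have u4 : x 6 ≤ m * x 4 := hup 4
  have u7 : x 9 ≤ m * x 7 := hup 7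
  have d3 : x 3 ≤ m * x 5 := hdn 3
  -- basic relation
  have hb : m * ((α + x 5) * (A + B * x 4 + x 3 + D * x 2))
      = (A + B * x 6 + x 5 + D * x 4) * (α + x 3) := by
    rw [← e5, ← e3, h57]; ring
  -- (a)
  have ha : x 5 < x 3 := by
    by_contra hc
    push Not at hc
    have f1 : (A + B * x 6 + D * x 4) + m * x 3 ≤ m * (A + B * x 4 + x 3 + D * x 2) := by
      have : A * 1 ≤ A * m := mul_le_mul_of_nonneg_left hm.le hA
      have : B * x 6 ≤ B * (m * x 4) := mul_le_mul_of_nonneg_left u4 hB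
      have : D * x 4 ≤ D * (m * x 2) := mul_le_mul_of_nonneg_left u2 hD
      linarith
    have f2 : (α + x 5) * ((A + B * x 6 + D * x 4) + m * x 3)
        ≤ (A + B * x 6 + x 5 + D * x 4) * (α + x 3) := by
      rw [← hb]
      have := mul_le_mul_of_nonneg_left f1 (show 0 ≤ α + x 5 by positivity)
      linarith
    have f3 : 0 ≤ (A + B * x 6 + D * x 4) * (x 5 - x 3) :=
      mul_nonneg (by positivity) (by linarith)
    have f4 : 0 ≤ α * (m * x 3 - x 5) := mul_nonneg hα (by linarith)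
    have f5 : 0 < (m - 1) * (x 3 * x 5) := mul_pos (by linarith) (by positivity)
    linarith
  have hb' : x 6 ≤ x 4 := by
    by_contra hc
    push Not at hc
    refine H1 ⟨ha, hc, ?_⟩
    change x 7 < x 5
    rw [h57]
    nlinarith
  have hc : x 2 < x 4 := by
    by_contra hc
    push Not at hc
    have f1 : (A + B * x 6 + D * x 4) + x 3 ≤ A + B * x 4 + x 3 + D * x 2 := by
      have : B * x 6 ≤ B * (x 4) := mul_le_mul_of_nonneg_left hb' hB
      have : D * x 4 ≤ D * (x 2) := mul_le_mul_of_nonneg_left hc hD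
      linarith
    have f2 : m * ((α + x 5) * ((A + B * x 6 + D * x 4) + x 3))
        ≤ (A + B * x 6 + x 5 + D * x 4) * (α + x 3) := by
      rw [← hb]
      apply mul_le_mul_of_nonneg_left _ hm0.le
      exact mul_le_mul_of_nonneg_left f1 (by positivity)
    set N := A + B * x 6 + D * x 4 with hN
    have hN0 : 0 ≤ N := by rw [hN]; positivity
    have f3 : x 5 * (m * ((α + x 5) * (N + x 3))) ≤ x 5 * ((N + x 5) * (α + x 3)) := by
      apply mul_le_mul_of_nonneg_left _ x5.le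
      have e : N + x 5 = A + B * x 6 + x 5 + D * x 4 := by rw [hN]; ring
      rw [e]
      exact f2
    have f4 : x 3 * ((α + x 5) * (N + x 3)) ≤ (m * x 5) * ((α + x 5) * (N + x 3)) :=
      mul_le_mul_of_nonneg_right d3 (by positivity)
    have f5 : 0 ≤ α * (x 3 - x 5) * (N + x 5) :=
      mul_nonneg (mul_nonneg hα (by linarith)) (by positivity)
    have f6 : 0 < x 3 * (α + x 5) * (x 3 - x 5) := mul_pos (by positivity) (by linarith)
    linarith
  have hd : x 1 ≤ x 3 := by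
    by_contra hcc
    push Not at hcc
    exact H2 ⟨hcc, hc, ha⟩
  have he1 : x 7 < x 1 := by
    have : m * x 7 < m * x 1 := by rw [← h57]; linarith
    exact lt_of_mul_lt_mul_left this hm0.le
  have he2 : x 9 < x 3 := by
    have : x 9 ≤ x 5 := by rw [h57]; exact u7
    linarith
  have he : x 8 ≤ x 2 := by
    by_contra hcc
    push Not at hcc
    exact H3 ⟨he1, hcc, he2⟩
  exact KL_down hA hB hD hα x1 x2 x3 x4 x5 x6 x7 e1 e2 e3 e4 e5 e6 hm h57 hd hc ha hb' u1 u0 u2 he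

/-- one step of order preservation -/
lemma order_step {A B D α a0 a1 a2 a3 b0 b1 b2 b3 : ℝ} (hA : 0 ≤ A) (hB : 0 ≤ B) (hD : 0 < D)
    (ha0 : 0 < a0) (ha1 : 0 < a1) (ha2 : 0 < a2) (hb3 : 0 < b3) (hb : b3 ≤ 1)
    (ea : a3 * (A + B * a2 + a1 + D * a0) = α + a1)
    (eb : b3 * (A + B * b2 + b1 + D * b0) = α + b1)
    (h0 : a0 < b0) (h1 : b1 ≤ a1) (h2 : a2 ≤ b2) : b3 < a3 := by
  have hpos : 0 < A + B * a2 + a1 + D * a0 := by positivity
  have h : b3 * (A + B * a2 + a1 + D * a0) < a3 * (A + B * a2 + a1 + D * a0) := by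
    rw [ea]
    have f1 : 0 ≤ b3 * (B * (b2 - a2)) :=
      mul_nonneg hb3.le (mul_nonneg hB (by linarith))
    have f2 : 0 < b3 * (D * (b0 - a0)) := mul_pos hb3 (mul_pos hD (by linarith))
    have f3 : 0 ≤ (1 - b3) * (a1 - b1) := mul_nonneg (by linarith) (by linarith)
    linarith
  exact lt_of_mul_lt_mul_right h hpos.le

lemma Up.step {A B D α : ℝ} {x : ℕ → ℝ} (hA : 0 ≤ A) (hB : 0 ≤ B) (hD : 0 < D)
    (hx : ∀ n, 0 < x n) (hx1 : ∀ n, x n ≤ 1) (hr : Rec α A B D x) {k i : ℕ}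
    (h : Up x k i) : Dn x k (i + 1) := by
  obtain ⟨h0, h1, h2⟩ := h
  refine ⟨h1, h2, ?_⟩
  have ea := hr i
  have eb := hr (i + k)
  have q1 : i + k + 1 = i + 1 + k := by ring
  have q2 : i + k + 2 = i + 2 + k := by ring
  have q3 : i + k + 3 = i + 3 + k := by ring
  rw [q1, q2, q3] at eb
  have q4 : i + 1 + 2 = i + 3 := by ring
  rw [q4]
  exact order_step hA hB hD (hx _) (hx _) (hx _) (hx _) (hx1 _) ea eb h0 h1.le h2.le

lemma Dn.step {A B D α : ℝ} {x : ℕ → ℝ} (hA : 0 ≤ A) (hB : 0 ≤ B) (hD : 0 < D)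
    (hx : ∀ n, 0 < x n) (hx1 : ∀ n, x n ≤ 1) (hr : Rec α A B D x) {k i : ℕ}
    (h : Dn x k i) : Up x k (i + 1) := by
  obtain ⟨h0, h1, h2⟩ := h
  refine ⟨h1, h2, ?_⟩
  have ea := hr i
  have eb := hr (i + k)
  have q1 : i + k + 1 = i + 1 + k := by ring
  have q2 : i + k + 2 = i + 2 + k := by ring
  have q3 : i + k + 3 = i + 3 + k := by ring
  rw [q1, q2, q3] at eb
  have q4 : i + 1 + 2 = i + 3 := by ring
  rw [q4]
  exact order_step hA hB hD (hx _) (hx _) (hx _) (hx _) (hx1 _) eb ea h0 h1.le h2.le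

end H23Rec
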