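import Mathlib

/-!
# The key inequality (two mirror versions)

Nine consecutive positive terms `u, p, v, q, w, r, t, s, z` of the recurrence
`x (n+3) * (A + B x (n+2) + x (n+1) + D x n) = α + x (n+1)`.
-/

namespace H23Rec

/-- Nonnegativity of a quadratic `c2 G² - c1 G + c0` from its discriminant. -/
lemma quad_nonneg {c2 c1 c0 G : ℝ} (h2 : 0 ≤ c2) (h0 : 0 ≤ c0)
    (hd : c1 ^ 2 ≤ 4 * c2 * c0) : 0 ≤ c2 * G ^ 2 - c1 * G + c0 := by
  rcases h2.eq_or_lt with h | h
  · subst h
    have : c1 = 0 := by
      have : c1 ^ 2 ≤ 0 := by simpa using hd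
      nlinarith [sq_nonneg c1]
    subst this
    simpa using h0
  · have : 0 ≤ 4 * c2 * (c2 * G ^ 2 - c1 * G + c0) := by
      nlinarith [sq_nonneg (2 * c2 * G - c1)]
    have h4 : 0 < 4 * c2 := by linarith
    exact nonneg_of_mul_nonneg_right this h4 

/-- The positive quadratic form, first version. -/
lemma form_up {A b w d g G k n m : ℝ} (hA : 0 ≤ A) (hb : 0 ≤ b) (hw : 0 < w) (hd : 0 ≤ d)
    (hg : 1 < g) (hG : g ≤ G) (hk : 1 ≤ k) (hn : 1 ≤ n) (hm : 1 ≤ m) (hmn : n ≤ m)
    (hkg : n ≤ k * g)
    (hE : g < n → k < g ∧ k * (n - g) ^ 2 ≤ (g * k - n) * (g - k)) :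
    0 < g * G ^ 2 * (A + m * k * b + k * d) * (A + k * b + w + d)
        + g * (G - g + 1) * G * w * (A + b + g * w + n * d)
        - (G - g) * G * (A + b + g * w + n * d) * (A + k * b + w + d)
        - (G - g + 1) * (A + b + g * w + n * d) ^ 2 := by
  have hG1 : 1 < G := lt_of_lt_of_le hg hG
  have hG0 : 0 < G := by linarith
  have hg0 : 0 < g := by linarith
  have hk0 : 0 < k := by linarith
  have hn0 : 0 < n := by linarith
  have hm0 : 0 < m := by linarith
  have g1 : 0 ≤ g - 1 := by linarith
  have k1 : 0 ≤ k - 1 := by linarith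
  have n1 : 0 ≤ n - 1 := by linarith
  have m1 : 0 ≤ m - 1 := by linarith
  have hGG : G ≤ G ^ 2 := by nlinarith
  have hkgn : 0 ≤ k * g - n := by linarith
  -- discriminant information
  have hdisc : g < n → (n - g) ^ 2 ≤ (g * k - n) * (g - 1) := by
    intro h
    obtain ⟨h1, h2⟩ := hE h
    have h3 : k * (n - g) ^ 2 ≤ k * ((g * k - n) * (g - 1)) := by
      refine h2.trans ?_
      have h5 : 0 ≤ g * k - n := by nlinarith
      have h6 : g - k ≤ k * (g - 1) := by nlinarith
      nlinarith [mul_le_mul_of_nonneg_left h6 h5]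
    exact le_of_mul_le_mul_left h3 hk0
  -- coefficients
  have cAA : 0 ≤ (g - 1) * (G ^ 2 + G + 1) := by positivity
  have cww : 0 < g * (g - 1) * (G ^ 2 - g * G + g) := by
    have : 0 < G ^ 2 - g * G + g := by nlinarith
    have h' : 0 < g - 1 := by linarith
    positivity
  have cdd : 0 ≤ (k * g - n) * G ^ 2 - n * (n - g) * G + n ^ 2 * (g - 1) := by
    rcases le_or_gt n g with h | h
    · have : 0 ≤ g - n := by linarith
      have h2 : 0 ≤ n * (g - n) * G := by positivity
      have h3 : 0 ≤ (k * g - n) * G ^ 2 := by positivity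
      have h4 : 0 ≤ n ^ 2 * (g - 1) := by positivity
      nlinarith
    · have h1 := hdisc h
      refine quad_nonneg hkgn (by positivity) ?_
      have : (n * (n - g)) ^ 2 = n ^ 2 * (n - g) ^ 2 := by ring
      rw [this]
      have h2 : n ^ 2 * (n - g) ^ 2 ≤ n ^ 2 * ((g * k - n) * (g - 1)) :=
        mul_le_mul_of_nonneg_left h1 (by positivity)
      have h3 : 0 ≤ n ^ 2 * ((k * g - n) * (g - 1)) := by positivity
      nlinarith
  have cbb : 0 ≤ (m * k ^ 2 * g - k) * G ^ 2 + (k * g - 1) * G + (g - 1) := by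
    have h1 : 0 ≤ m * k ^ 2 * g - k := by
      have : k * 1 ≤ k * (m * k * g) := by
        apply mul_le_mul_of_nonneg_left _ hk0.le
        have : 1 ≤ m * k := by nlinarith
        nlinarith
      nlinarith
    have h2 : 0 ≤ k * g - 1 := by nlinarith
    positivity
  have cAw : 0 ≤ (g - 1) * G ^ 2 + 2 * g * (g - 1) := by positivity
  have cAd : 0 ≤ (g + g * k - 1 - n) * G ^ 2 + (g + g * n - 2 * n) * G + 2 * n * (g - 1) := by
    have h1 : 0 ≤ g + g * k - 1 - n := by linarith
    rcases le_or_gt 0 (g + g * n - 2 * n) with h | h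
    · positivity
    · have hng : 0 ≤ n * (g - 1) := by positivity
      have hgn : g < n := by linarith
      have h1' := hdisc hgn
      have h2 : (-(g + g * n - 2 * n)) ^ 2 ≤ (n - g) ^ 2 := by
        have h4 : 0 ≤ -(g + g * n - 2 * n) := by linarith
        exact pow_le_pow_left₀ h4 (by linarith) 2
      have h5 : (g * k - n) * (g - 1) ≤ 4 * (g + g * k - 1 - n) * (2 * n * (g - 1)) := by
        have h8 : (g * k - n) * (g - 1) ≤ (g + g * k - 1 - n) * (g - 1) :=
          mul_le_mul_of_nonneg_right (by linarith) g1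
        have h9 : 0 ≤ (g + g * k - 1 - n) * (g - 1) := by positivity
        have h10 : (g + g * k - 1 - n) * (g - 1) * 1 ≤ (g + g * k - 1 - n) * (g - 1) * (8 * n) :=
          mul_le_mul_of_nonneg_left (by linarith) h9
        linarith
      have := quad_nonneg (c2 := g + g * k - 1 - n) (c1 := -(g + g * n - 2 * n))
        (c0 := 2 * n * (g - 1)) (G := G) h1 (by positivity) (by linarith)
      linarith
  have cwd : 0 ≤ (g * k - n + g * (n - 1)) * G ^ 2 - g ^ 2 * (n - 1) * G
      + 2 * g * n * (g - 1) := by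
    have h1 : 0 ≤ (g * k - n) * G ^ 2 := by
      have : 0 ≤ g * k - n := by nlinarith
      positivity
    have h2 : 0 ≤ g * (n - 1) * G * (G - g) := by
      have : 0 ≤ G - g := by linarith
      positivity
    have h3 : 0 ≤ 2 * g * n * (g - 1) := by positivity
    nlinarith
  have cAb : 0 ≤ (g * k * (m + 1) - 1 - k) * G ^ 2 + (g * (1 + k) - 2) * G
      + 2 * (g - 1) := by
    have h1 : 0 ≤ g * k * (m + 1) - 1 - k := by
      have : k * 2 ≤ g * k * (m + 1) := by
        have : (k * 2 : ℝ) ≤ k * (g * (m + 1)) := by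
          apply mul_le_mul_of_nonneg_left _ hk0.le
          nlinarith
        nlinarith
      linarith
    have h2 : 0 ≤ g * (1 + k) - 2 := by nlinarith
    positivity
  have cwb : 0 ≤ (g * k * (m - 1) + (g - 1)) * G ^ 2 + g ^ 2 * (k - 1) * G
      + 2 * g * (g - 1) := by positivity
  have cbd : 0 ≤ (g * m * k + g * k ^ 2 - 1 - n * k) * G ^ 2
      + (g * (1 + n * k) - 2 * n) * G + 2 * n * (g - 1) := by
    have h1 : g * n * k ≤ g * m * k := by
      have : g * k * n ≤ g * k * m := mul_le_mul_of_nonneg_left hmn (by positivity)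
      nlinarith
    have h2 : n * k ≤ g * k ^ 2 := by nlinarith
    have h3 : 0 ≤ g * n * k - 1 := by
      have : 1 ≤ g * n := by nlinarith
      nlinarith
    have h4 : (g * n * k - 1) * G ^ 2 ≤ (g * m * k + g * k ^ 2 - 1 - n * k) * G ^ 2 :=
      mul_le_mul_of_nonneg_right (by linarith) (by positivity)
    have h5 : (g * n * k - 1) * G ≤ (g * n * k - 1) * G ^ 2 :=
      mul_le_mul_of_nonneg_left hGG h3
    have h6 : 0 ≤ (2 * (n * (g * k - 1)) + (g - 1)) * G := by
      have : 0 ≤ g * k - 1 := by nlinarith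
      positivity
    have h7 : 0 ≤ 2 * n * (g - 1) := by positivity
    nlinarith
  have key : g * G ^ 2 * (A + m * k * b + k * d) * (A + k * b + w + d)
        + g * (G - g + 1) * G * w * (A + b + g * w + n * d)
        - (G - g) * G * (A + b + g * w + n * d) * (A + k * b + w + d)
        - (G - g + 1) * (A + b + g * w + n * d) ^ 2
      = ((g - 1) * (G ^ 2 + G + 1)) * (A * A)
      + (g * (g - 1) * (G ^ 2 - g * G + g)) * (w * w)
      + ((k * g - n) * G ^ 2 - n * (n - g) * G + n ^ 2 * (g - 1)) * (d * d)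
      + ((m * k ^ 2 * g - k) * G ^ 2 + (k * g - 1) * G + (g - 1)) * (b * b)
      + ((g - 1) * G ^ 2 + 2 * g * (g - 1)) * (A * w)
      + ((g + g * k - 1 - n) * G ^ 2 + (g + g * n - 2 * n) * G + 2 * n * (g - 1)) * (A * d)
      + ((g * k - n + g * (n - 1)) * G ^ 2 - g ^ 2 * (n - 1) * G + 2 * g * n * (g - 1)) * (w * d)
      + ((g * k * (m + 1) - 1 - k) * G ^ 2 + (g * (1 + k) - 2) * G + 2 * (g - 1)) * (A * b)
      + ((g * k * (m - 1) + (g - 1)) * G ^ 2 + g ^ 2 * (k - 1) * G + 2 * g * (g - 1)) * (w * b)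
      + ((g * m * k + g * k ^ 2 - 1 - n * k) * G ^ 2 + (g * (1 + n * k) - 2 * n) * G
          + 2 * n * (g - 1)) * (b * d) := by
    ring
  rw [key]
  have p1 := mul_nonneg cAA (mul_nonneg hA hA)
  have p2 := mul_pos cww (mul_pos hw hw)
  have p3 := mul_nonneg cdd (mul_nonneg hd hd)
  have p4 := mul_nonneg cbb (mul_nonneg hb hb)
  have p5 := mul_nonneg cAw (mul_nonneg hA hw.le)
  have p6 := mul_nonneg cAd (mul_nonneg hA hd)
  have p7 := mul_nonneg cwd (mul_nonneg hw.le hd)
  have p8 := mul_nonneg cAb (mul_nonneg hA hb)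
  have p9 := mul_nonneg cwb (mul_nonneg hw.le hb)
  have p10 := mul_nonneg cbd (mul_nonneg hb hd)
  linarith

/-- Positivity of the quadratic form, second version. -/
lemma form_down {A b v d g H k n m : ℝ} (hA : 0 ≤ A) (hb : 0 ≤ b) (hv : 0 < v) (hd : 0 ≤ d)
    (hg : 1 < g) (hH : 1 ≤ H) (hk : 1 ≤ k) (hn : 1 ≤ n) (hm : 1 ≤ m) (hmn : n ≤ m)
    (hkg : n ≤ k * g)
    (hE : g < n → k < g ∧ k * (n - g) ^ 2 ≤ n * (g - k) * (g * k - n)) :
    0 < g * (H - 1) * H * (A + m * k * b + v + k * d) * (A + m * b + g * v + n * k * d)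
        + g ^ 2 * (H - 1 + g) * (A + m * k * b + v + k * d) ^ 2
        - H ^ 2 * (A + b + n * d) * (A + m * b + g * v + n * k * d)
        - H * g * (H - 1 + g) * v * (A + m * k * b + v + k * d) := by
  have hH0 : 0 < H := by linarith
  have hg0 : 0 < g := by linarith
  have hk0 : 0 < k := by linarith
  have hn0 : 0 < n := by linarith
  have hm0 : 0 < m := by linarith
  have g1 : 0 ≤ g - 1 := by linarith
  have k1 : 0 ≤ k - 1 := by linarith
  have n1 : 0 ≤ n - 1 := by linarith
  have m1 : 0 ≤ m - 1 := by linarith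
  have H1 : 0 ≤ H - 1 := by linarith
  have hHH : H ≤ H ^ 2 := by nlinarith
  have hkgn : 0 ≤ k * g - n := by linarith
  have hkg1 : 1 ≤ k * g := by linarith
  -- general tool
  have tool : ∀ c2 c1 c0 : ℝ, 0 ≤ c2 → 0 ≤ c2 + c1 → 0 ≤ c0 → 0 ≤ c2 * H ^ 2 + c1 * H + c0 := by
    intro c2 c1 c0 h2 h21 h0
    have e : c2 * H ^ 2 + c1 * H + c0 = c2 * (H * (H - 1)) + (c2 + c1) * H + c0 := by ring
    rw [e]
    positivity
  have cAA : 0 ≤ (g - 1) * (H ^ 2 + g * H + g ^ 2) := by positivity
  have cvv : 0 < g * (g - 1) * (H ^ 2 - H + g) := by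
    have : 0 < H ^ 2 - H + g := by linarith
    have h' : 0 < g - 1 := by linarith
    positivity
  have cdd : 0 ≤ k * (n * (k * g - n) * H ^ 2 - k * g * (n - g) * H + k * g ^ 2 * (g - 1)) := by
    apply mul_nonneg hk0.le
    rcases le_or_gt n g with h | h
    · have : 0 ≤ g - n := by linarith
      have h2 : 0 ≤ k * g * (g - n) * H := by positivity
      have h3 : 0 ≤ n * (k * g - n) * H ^ 2 := by positivity
      have h4 : 0 ≤ k * g ^ 2 * (g - 1) := by positivity
      linarith
    · obtain ⟨h1, h2⟩ := hE h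
      refine quad_nonneg (by positivity) (by positivity) ?_
      have h3 : n * (g - k) * (g * k - n) ≤ n * (g - 1) * (k * g - n) := by
        have e : n * (g - 1) * (k * g - n) - n * (g - k) * (g * k - n)
          = n * ((k - 1) * (k * g - n)) := by ring
        have : 0 ≤ n * ((k - 1) * (k * g - n)) := by positivity
        linarith
      have h4 : k * (n - g) ^ 2 ≤ n * (g - 1) * (k * g - n) := h2.trans h3
      have h5 : (k * g ^ 2) * (k * (n - g) ^ 2) ≤ (k * g ^ 2) * (n * (g - 1) * (k * g - n)) :=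
        mul_le_mul_of_nonneg_left h4 (by positivity)
      have h6 : 0 ≤ (k * g ^ 2) * (n * (g - 1) * (k * g - n)) := by positivity
      linarith
  have cAv : 0 ≤ g * (g - 1) * (H ^ 2 + 2 * g) := by positivity
  have cAd : 0 ≤ (k * g - n + k * n * (g - 1)) * H ^ 2 + (k * g * (2 * g - 1 - n)) * H
      + 2 * k * g ^ 2 * (g - 1) := by
    apply tool
    · positivity
    · have e : (k * g - n + k * n * (g - 1)) + (k * g * (2 * g - 1 - n))
        = k * (g ^ 2 - n) + (k * g - n) + k * g * (g - 1) := by ring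
      rw [e]
      have h1 : 0 ≤ g ^ 2 - n := by
        rcases le_or_gt n g with h | h
        · nlinarith
        · obtain ⟨h1, h2⟩ := hE h
          nlinarith
      positivity
    · positivity
  have cvd : 0 ≤ g * ((k * (n - 1) + (k * g - n)) * H ^ 2 + (-(k * (n - 1))) * H
      + 2 * k * g * (g - 1)) := by
    apply mul_nonneg hg0.le
    apply tool
    · positivity
    · linarith
    · positivity
  have cbb : 0 ≤ (m * (g * k * m - 1)) * H ^ 2 + (m ^ 2 * (g * k) * (k * g - 1)) * H
      + m ^ 2 * g ^ 2 * k ^ 2 * (g - 1) := by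
    have h1 : 0 ≤ g * k * m - 1 := by
      have : 1 * 1 ≤ (k * g) * m := mul_le_mul hkg1 hm (by norm_num) (by positivity)
      linarith
    have h2 : 0 ≤ k * g - 1 := by linarith
    positivity
  have cAb : 0 ≤ (m * g * (1 + k) - m - 1) * H ^ 2 + (m * g * (2 * k * g - 1 - k)) * H
      + 2 * m * k * g ^ 2 * (g - 1) := by
    have h1 : 0 ≤ m * g * (1 + k) - m - 1 := by
      have e : m * g * (1 + k) - m - 1 = m * (g - 1) + m * (k * g - 1) + (m - 1) := by ring
      rw [e]
      have : 0 ≤ k * g - 1 := by linarith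
      positivity
    have h2 : 0 ≤ 2 * k * g - 1 - k := by
      have : 0 ≤ k * (g - 1) := by positivity
      linarith
    positivity
  have cvb : 0 ≤ g * ((m * k * (g - 1) + (m - 1)) * H ^ 2 + m * (k - 1) * H
      + 2 * m * k * g * (g - 1)) := by positivity
  have cbd : 0 ≤ (m * k * g * (k * n + 1) - n * k - n * m) * H ^ 2
      + (m * k * g * (2 * k * g - k * n - 1)) * H + 2 * m * k ^ 2 * g ^ 2 * (g - 1) := by
    apply tool
    · have e : m * k * g * (k * n + 1) - n * k - n * m
        = m * (k * g - n) + n * k * ((m - 1) * (k * g) + (k * g - 1)) := by ring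
      rw [e]
      have : 0 ≤ k * g - 1 := by linarith
      positivity
    · have e : m * k * g * (k * n + 1) - n * k - n * m + m * k * g * (2 * k * g - k * n - 1)
        = m * (k * g) * (k * g - 1) + m * (k * g - n)
          + k * ((k * g - n) + (k * g) * (m * g - 1)) := by ring
      rw [e]
      have h1 : 0 ≤ k * g - 1 := by linarith
      have h2 : 0 ≤ m * g - 1 := by nlinarith
      positivity
    · positivity
  have key : g * (H - 1) * H * (A + m * k * b + v + k * d) * (A + m * b + g * v + n * k * d)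
        + g ^ 2 * (H - 1 + g) * (A + m * k * b + v + k * d) ^ 2
        - H ^ 2 * (A + b + n * d) * (A + m * b + g * v + n * k * d)
        - H * g * (H - 1 + g) * v * (A + m * k * b + v + k * d)
      = ((g - 1) * (H ^ 2 + g * H + g ^ 2)) * (A * A)
      + (g * (g - 1) * (H ^ 2 - H + g)) * (v * v)
      + (k * (n * (k * g - n) * H ^ 2 - k * g * (n - g) * H + k * g ^ 2 * (g - 1))) * (d * d)
      + (g * (g - 1) * (H ^ 2 + 2 * g)) * (A * v)
      + ((k * g - n + k * n * (g - 1)) * H ^ 2 + (k * g * (2 * g - 1 - n)) * H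
          + 2 * k * g ^ 2 * (g - 1)) * (A * d)
      + (g * ((k * (n - 1) + (k * g - n)) * H ^ 2 + (-(k * (n - 1))) * H
          + 2 * k * g * (g - 1))) * (v * d)
      + ((m * (g * k * m - 1)) * H ^ 2 + (m ^ 2 * (g * k) * (k * g - 1)) * H
          + m ^ 2 * g ^ 2 * k ^ 2 * (g - 1)) * (b * b)
      + ((m * g * (1 + k) - m - 1) * H ^ 2 + (m * g * (2 * k * g - 1 - k)) * H
          + 2 * m * k * g ^ 2 * (g - 1)) * (A * b)
      + (g * ((m * k * (g - 1) + (m - 1)) * H ^ 2 + m * (k - 1) * H
          + 2 * m * k * g * (g - 1))) * (v * b)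
      + ((m * k * g * (k * n + 1) - n * k - n * m) * H ^ 2
          + (m * k * g * (2 * k * g - k * n - 1)) * H
          + 2 * m * k ^ 2 * g ^ 2 * (g - 1)) * (b * d) := by
    ring
  rw [key]
  have p1 := mul_nonneg cAA (mul_nonneg hA hA)
  have p2 := mul_pos cvv (mul_pos hv hv)
  have p3 := mul_nonneg cdd (mul_nonneg hd hd)
  have p4 := mul_nonneg cAv (mul_nonneg hA hv.le)
  have p5 := mul_nonneg cAd (mul_nonneg hA hd)
  have p6 := mul_nonneg cvd (mul_nonneg hv.le hd)
  have p7 := mul_nonneg cbb (mul_nonneg hb hb)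
  have p8 := mul_nonneg cAb (mul_nonneg hA hb)
  have p9 := mul_nonneg cvb (mul_nonneg hv.le hb)
  have p10 := mul_nonneg cbd (mul_nonneg hb hd)
  linarith

/-- Key lemma, first version. -/
lemma KL_up {A B D α m u p v q w r t s z : ℝ} (hA : 0 ≤ A) (hB : 0 ≤ B) (hD : 0 ≤ D)
    (hα : 0 ≤ α) (hp : 0 < p) (hv : 0 < v) (hq : 0 < q) (hw : 0 < w)
    (hr : 0 < r) (ht : 0 < t) (hs : 0 < s)
    (e1 : q * (A + B * v + p + D * u) = α + p)
    (e2 : w * (A + B * q + v + D * p) = α + v)
    (e3 : r * (A + B * w + q + D * v) = α + q)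
    (e4 : t * (A + B * r + w + D * q) = α + w)
    (e5 : s * (A + B * t + r + D * w) = α + r)
    (e6 : z * (A + B * s + t + D * r) = α + t)
    (hm : 1 < m) (h1 : s = m * r) (h2 : q ≤ p) (h3 : w < v) (h4 : q < r) (h5 : w ≤ t)
    (h6 : p ≤ m * q) (h7 : u ≤ m * v) (h8 : v ≤ m * w) (h9 : v ≤ z) : False := by
  have hm0 : 0 < m := by linarith
  have C1 : m * (α + q) * w ≤ (α + r) * v := by
    rw [← e3, ← e5, h1]
    have e : m * r * (A + B * t + r + D * w) * v - m * (r * (A + B * w + q + D * v)) * w
      = m * r * (A * (v - w) + B * (t * v - w * w) + (r * v - q * w)) := by ring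
    have f1 : 0 ≤ v - w := by linarith
    have f2 : 0 ≤ t * v - w * w := by nlinarith
    have f3 : 0 ≤ r * v - q * w := by nlinarith
    have : 0 ≤ m * r * (A * (v - w) + B * (t * v - w * w) + (r * v - q * w)) := by positivity
    linarith
  have C2 : (α + p) * r ≤ m * (α + q) * q := by
    rw [← e1, ← e3]
    have e : m * (r * (A + B * w + q + D * v)) * q - q * (A + B * v + p + D * u) * r
      = q * r * (A * (m - 1) + B * (m * w - v) + (m * q - p) + D * (m * v - u)) := by ring
    have f1 : 0 ≤ m - 1 := by linarith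
    have f2 : 0 ≤ m * w - v := by linarith
    have f3 : 0 ≤ m * q - p := by linarith
    have f4 : 0 ≤ m * v - u := by linarith
    have : 0 ≤ q * r * (A * (m - 1) + B * (m * w - v) + (m * q - p) + D * (m * v - u)) := by
      positivity
    linarith
  have G1 : p * (α + q) * w ≤ q * (α + r) * v := by
    have f1 : p * ((α + q) * w) ≤ (m * q) * ((α + q) * w) :=
      mul_le_mul_of_nonneg_right h6 (by positivity)
    have f2 : q * (m * (α + q) * w) ≤ q * ((α + r) * v) := mul_le_mul_of_nonneg_left C1 hq.le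
    linarith
  have G2 : (α + p) * r * w ≤ (α + r) * v * q := by
    have f1 : (α + p) * r * w ≤ m * (α + q) * q * w := mul_le_mul_of_nonneg_right C2 hw.le
    have f2 : q * (m * (α + q) * w) ≤ q * ((α + r) * v) := mul_le_mul_of_nonneg_left C1 hq.le
    linarith
  obtain ⟨g, hg⟩ : ∃ g, v = g * w := ⟨v / w, by field_simp⟩
  obtain ⟨k, hk⟩ : ∃ k, r = k * q := ⟨r / q, by field_simp⟩
  obtain ⟨n, hn⟩ : ∃ n, p = n * q := ⟨p / q, by field_simp⟩
  obtain ⟨a, ha⟩ : ∃ a, α = a * q := ⟨α / q, by field_simp⟩
  obtain ⟨y, hy⟩ : ∃ y, α = y * w := ⟨α / w, by field_simp⟩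
  obtain ⟨h, hh⟩ : ∃ h, t = h * w := ⟨t / w, by field_simp⟩
  have g1 : 1 < g := by
    rw [hg] at h3
    by_contra hc
    push Not at hc
    have := mul_le_mul_of_nonneg_right hc hw.le
    linarith
  have k1 : 1 < k := by
    rw [hk] at h4
    by_contra hc
    push Not at hc
    have := mul_le_mul_of_nonneg_right hc hq.le
    linarith
  have n1 : 1 ≤ n := by
    rw [hn] at h2
    by_contra hc
    push Not at hc
    have := mul_lt_mul_of_pos_right hc hq
    linarith
  have hnm : n ≤ m := by
    rw [hn] at h6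
    exact le_of_mul_le_mul_right h6 hq
  have a0 : 0 ≤ a := by
    rw [ha] at hα
    exact nonneg_of_mul_nonneg_left hα hq
  have y0 : 0 ≤ y := by
    rw [hy] at hα
    exact nonneg_of_mul_nonneg_left hα hw
  have G1' : n * (a + 1) ≤ g * (a + k) := by
    rw [hg, hk, hn, ha] at G1
    have : n * (a + 1) * (q * q * w) ≤ g * (a + k) * (q * q * w) := by linarith
    exact le_of_mul_le_mul_right this (by positivity)
  have G2' : k * (a + n) ≤ g * (a + k) := by
    rw [hg, hk, hn, ha] at G2
    have : k * (a + n) * (q * q * w) ≤ g * (a + k) * (q * q * w) := by linarith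
    exact le_of_mul_le_mul_right this (by positivity)
  have hkg : n ≤ k * g := by
    rcases le_or_gt n g with hc | hc
    · nlinarith
    · have : 0 ≤ a * (n - g) := mul_nonneg a0 (by linarith)
      linarith
  have hE : g < n → k < g ∧ k * (n - g) ^ 2 ≤ (g * k - n) * (g - k) := by
    intro hc
    have c1 : 0 < k * (n - g) := mul_pos (by linarith) (by linarith)
    have c2 : k * (n - g) ≤ a * (g - k) := by linarith
    have c3 : k < g := by
      by_contra hcc
      push Not at hcc
      have : a * (g - k) ≤ 0 := mul_nonpos_of_nonneg_of_nonpos a0 (by linarith)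
      linarith
    refine ⟨c3, ?_⟩
    have c4 : a * (n - g) ≤ g * k - n := by linarith
    have c5 : a * (n - g) * (g - k) ≤ (g * k - n) * (g - k) :=
      mul_le_mul_of_nonneg_right c4 (by linarith)
    have c6 : k * (n - g) * (n - g) ≤ a * (g - k) * (n - g) :=
      mul_le_mul_of_nonneg_right c2 (by linarith)
    linarith
  have hX : A + B * q + g * w + n * (D * q) = y + g := by
    rw [hg, hn, hy] at e2
    have : (A + B * q + g * w + n * (D * q)) * w = (y + g) * w := by linarith
    exact mul_right_cancel₀ hw.ne' this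
  have hY : h * (A + k * (B * q) + w + D * q) = y + 1 := by
    rw [hh, hk, hy] at e4
    have : h * (A + k * (B * q) + w + D * q) * w = (y + 1) * w := by linarith
    exact mul_right_cancel₀ hw.ne' this
  have hW : g * (A + m * k * (B * q) + h * w + k * (D * q)) ≤ y + h := by
    have f1 : v * (A + B * s + t + D * r) ≤ z * (A + B * s + t + D * r) :=
      mul_le_mul_of_nonneg_right h9 (by positivity)
    rw [e6] at f1
    rw [h1, hg, hk, hh, hy] at f1
    have : g * (A + m * k * (B * q) + h * w + k * (D * q)) * w ≤ (y + h) * w := by linarith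
    exact le_of_mul_le_mul_right this hw
  have F := form_up (A := A) (b := B * q) (w := w) (d := D * q) (g := g) (G := y + g) (k := k)
    (n := n) (m := m) hA (by positivity) hw (by positivity) g1 (by linarith) k1.le n1 hm.le hnm
    hkg hE
  rw [hX] at F
  set Y := A + k * (B * q) + w + D * q with hYdef
  have hYpos : 0 < Y := by rw [hYdef]; positivity
  have e : g * (y + g) ^ 2 * (A + m * k * (B * q) + k * (D * q)) * Y
        + g * (y + g - g + 1) * (y + g) * w * (y + g)
        - (y + g - g) * (y + g) * (y + g) * Y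
        - (y + g - g + 1) * (y + g) ^ 2
      = (y + g) ^ 2 * Y * (g * (A + m * k * (B * q) + h * w + k * (D * q)) - (y + h)) := by
    have e' : y + g - g + 1 = h * Y := by rw [hY]; ring
    rw [e']
    ring
  rw [e] at F
  have : (y + g) ^ 2 * Y * (g * (A + m * k * (B * q) + h * w + k * (D * q)) - (y + h)) ≤ 0 :=
    mul_nonpos_of_nonneg_of_nonpos (by positivity) (by linarith)
  linarith

/-- Key lemma, second version. -/
lemma KL_down {A B D α m u p v q w r t s z : ℝ} (hA : 0 ≤ A) (hB : 0 ≤ B) (hD : 0 ≤ D)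
    (hα : 0 ≤ α) (hp : 0 < p) (hv : 0 < v) (hq : 0 < q) (hw : 0 < w)
    (hr : 0 < r) (ht : 0 < t) (hs : 0 < s)
    (e1 : q * (A + B * v + p + D * u) = α + p)
    (e2 : w * (A + B * q + v + D * p) = α + v)
    (e3 : r * (A + B * w + q + D * v) = α + q)
    (e4 : t * (A + B * r + w + D * q) = α + w)
    (e5 : s * (A + B * t + r + D * w) = α + r)
    (e6 : z * (A + B * s + t + D * r) = α + t)
    (hm : 1 < m) (h1 : r = m * s) (h2 : p ≤ q) (h3 : v < w) (h4 : r < q) (h5 : t ≤ w)
    (h6 : q ≤ m * p) (h7 : v ≤ m * u) (h8 : w ≤ m * v) (h9 : z ≤ v) : False := by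
  have hm0 : 0 < m := by linarith
  have C1 : m * (α + r) * v ≤ (α + q) * w := by
    rw [← e3, ← e5, h1]
    have e : m * s * (A + B * w + q + D * v) * w - m * (s * (A + B * t + m * s + D * w)) * v
      = m * s * (A * (w - v) + B * (w * w - t * v) + (q * w - (m * s) * v)) := by ring
    have f1 : 0 ≤ w - v := by linarith
    have f2 : 0 ≤ w * w - t * v := by nlinarith
    have f3 : 0 ≤ q * w - (m * s) * v := by rw [← h1]; nlinarith
    have : 0 ≤ m * s * (A * (w - v) + B * (w * w - t * v) + (q * w - (m * s) * v)) := by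
      positivity
    linarith
  have C2 : (α + q) * q ≤ m * (α + p) * r := by
    rw [← e1, ← e3]
    have e : m * (q * (A + B * v + p + D * u)) * r - r * (A + B * w + q + D * v) * q
      = q * r * (A * (m - 1) + B * (m * v - w) + (m * p - q) + D * (m * u - v)) := by ring
    have f1 : 0 ≤ m - 1 := by linarith
    have f2 : 0 ≤ m * v - w := by linarith
    have f3 : 0 ≤ m * p - q := by linarith
    have f4 : 0 ≤ m * u - v := by linarith
    have : 0 ≤ q * r * (A * (m - 1) + B * (m * v - w) + (m * p - q) + D * (m * u - v)) := by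
      positivity
    linarith
  have G1 : q * (α + r) * v ≤ p * (α + q) * w := by
    have f1 : q * ((α + r) * v) ≤ (m * p) * ((α + r) * v) :=
      mul_le_mul_of_nonneg_right h6 (by positivity)
    have f2 : p * (m * (α + r) * v) ≤ p * ((α + q) * w) := mul_le_mul_of_nonneg_left C1 hp.le
    linarith
  have G2 : (α + r) * q * v ≤ (α + p) * r * w := by
    have f0 : (α + q) * (q * ((α + r) * v)) ≤ (α + q) * ((α + p) * r * w) := by
      have f1 : (α + q) * q * ((α + r) * v) ≤ m * (α + p) * r * ((α + r) * v) :=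
        mul_le_mul_of_nonneg_right C2 (by positivity)
      have f2 : (α + p) * r * (m * (α + r) * v) ≤ (α + p) * r * ((α + q) * w) :=
        mul_le_mul_of_nonneg_left C1 (by positivity)
      linarith
    have := le_of_mul_le_mul_left f0 (by positivity)
    linarith
  obtain ⟨g, hg⟩ : ∃ g, w = g * v := ⟨w / v, by field_simp⟩
  obtain ⟨k, hk⟩ : ∃ k, q = k * r := ⟨q / r, by field_simp⟩
  obtain ⟨n, hn⟩ : ∃ n, q = n * p := ⟨q / p, by field_simp⟩
  obtain ⟨a, ha⟩ : ∃ a, α = a * r := ⟨α / r, by field_simp⟩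
  obtain ⟨y, hy⟩ : ∃ y, α = y * v := ⟨α / v, by field_simp⟩
  obtain ⟨h, hh⟩ : ∃ h, w = h * t := ⟨w / t, by field_simp⟩
  obtain ⟨d, hd⟩ : ∃ d, D * p = k * d := by
    have hk0 : k ≠ 0 := by
      intro h0
      rw [h0] at hk
      linarith
    exact ⟨D * p / k, by field_simp⟩
  have g1 : 1 < g := by
    rw [hg] at h3
    by_contra hc
    push Not at hc
    have := mul_le_mul_of_nonneg_right hc hv.le
    linarith
  have k1 : 1 < k := by
    rw [hk] at h4
    by_contra hc
    push Not at hc
    have := mul_le_mul_of_nonneg_right hc hr.le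
    linarith
  have n1 : 1 ≤ n := by
    rw [hn] at h2
    by_contra hc
    push Not at hc
    have := mul_lt_mul_of_pos_right hc hp
    linarith
  have hnm : n ≤ m := by
    rw [hn] at h6
    exact le_of_mul_le_mul_right h6 hp
  have a0 : 0 ≤ a := by
    rw [ha] at hα
    exact nonneg_of_mul_nonneg_left hα hr
  have y0 : 0 ≤ y := by
    rw [hy] at hα
    exact nonneg_of_mul_nonneg_left hα hv
  have h1h : 1 ≤ h := by
    rw [hh] at h5
    by_contra hc
    push Not at hc
    have := mul_lt_mul_of_pos_right hc ht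
    linarith
  have hd0 : 0 ≤ d := by
    have : 0 ≤ k * d := by rw [← hd]; positivity
    exact nonneg_of_mul_nonneg_right this (by linarith)
  have hkr : k * r = n * p := by rw [← hk, ← hn]
  have G1' : n * (a + 1) ≤ g * (a + k) := by
    -- q (α + r) v ≤ p (α + q) w
    rw [ha] at G1
    rw [hg] at G1
    have f1 : n * p * (a * r + r) * v ≤ p * (a * r + k * r) * (g * v) := by
      calc n * p * (a * r + r) * v = q * (a * r + r) * v := by rw [← hn]
        _ ≤ p * (a * r + q) * (g * v) := G1
        _ = p * (a * r + k * r) * (g * v) := by rw [← hk]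
    have : n * (a + 1) * (p * r * v) ≤ g * (a + k) * (p * r * v) := by linarith
    exact le_of_mul_le_mul_right this (by positivity)
  have G2' : k * n * (a + 1) ≤ g * (n * a + k) := by
    -- (α + r) q v ≤ (α + p) r w, times n
    rw [ha, hg] at G2
    have f0 : n * ((a * r + r) * q * v) ≤ n * ((a * r + p) * r * (g * v)) :=
      mul_le_mul_of_nonneg_left G2 (by linarith)
    have f1 : n * ((a * r + r) * (k * r) * v) ≤ (n * a * r + k * r) * r * (g * v) := by
      calc n * ((a * r + r) * (k * r) * v) = n * ((a * r + r) * q * v) := by rw [← hk]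
        _ ≤ n * ((a * r + p) * r * (g * v)) := f0
        _ = (n * a * r + n * p) * r * (g * v) := by ring
        _ = (n * a * r + k * r) * r * (g * v) := by rw [hkr]
    have : k * n * (a + 1) * (r * r * v) ≤ g * (n * a + k) * (r * r * v) := by linarith
    exact le_of_mul_le_mul_right this (by positivity)
  have hkg : n ≤ k * g := by
    rcases le_or_gt n g with hc | hc
    · nlinarith
    · have : 0 ≤ a * (n - g) := mul_nonneg a0 (by linarith)
      linarith
  have hE : g < n → k < g ∧ k * (n - g) ^ 2 ≤ n * (g - k) * (g * k - n) := by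
    intro hc
    have c1 : 0 < k * (n - g) := mul_pos (by linarith) (by linarith)
    have c2 : k * (n - g) ≤ n * a * (g - k) := by linarith
    have c3 : k < g := by
      by_contra hcc
      push Not at hcc
      have : n * a * (g - k) ≤ 0 := mul_nonpos_of_nonneg_of_nonpos (by positivity) (by linarith)
      linarith
    refine ⟨c3, ?_⟩
    have c4 : a * (n - g) ≤ g * k - n := by linarith
    have c5 : a * (n - g) * (n * (g - k)) ≤ (g * k - n) * (n * (g - k)) :=
      mul_le_mul_of_nonneg_right c4 (mul_nonneg (by linarith) (by linarith))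
    have c6 : k * (n - g) * (n - g) ≤ n * a * (g - k) * (n - g) :=
      mul_le_mul_of_nonneg_right c2 (by linarith)
    linarith
  -- the two exact relations
  have hBq : B * q = m * k * (B * s) := by rw [hk, h1]; ring
  have hBr : B * r = m * (B * s) := by rw [h1]; ring
  have hDq : D * q = n * k * d := by rw [hn]; linear_combination n * hd
  have hDr : D * r = n * d := by
    have hk0 : k ≠ 0 := by linarith
    have : k * (D * r) = k * (n * d) := by
      have : D * q = k * (D * r) := by rw [hk]; ring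
      rw [← this, hDq]; ring
    exact mul_left_cancel₀ hk0 this
  have hX : g * (A + m * k * (B * s) + v + k * d) = y + 1 := by
    have f : (A + m * k * (B * s) + v + k * d) = (A + B * q + v + D * p) := by
      rw [hBq, hd]
    rw [f]
    have e2' : g * v * (A + B * q + v + D * p) = y * v + v := by rw [← hg, ← hy]; exact e2
    have : g * (A + B * q + v + D * p) * v = (y + 1) * v := by linarith
    exact mul_right_cancel₀ hv.ne' this
  have hY : g * (A + m * (B * s) + g * v + n * k * d) = h * (y + g) := by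
    have f : (A + m * (B * s) + g * v + n * k * d) = (A + B * r + w + D * q) := by
      rw [hBr, hDq, hg]
    rw [f]
    have e4' : w * (A + B * r + w + D * q) = h * (α + w) := by
      linear_combination (A + B * r + w + D * q) * hh + h * e4
    have e4'' : g * v * (A + B * r + w + D * q) = h * (y * v + g * v) := by
      rw [← hg, ← hy]; exact e4'
    have : g * (A + B * r + w + D * q) * v = h * (y + g) * v := by linarith
    exact mul_right_cancel₀ hv.ne' this
  have hW : h * y + g ≤ h * (A + B * s + n * d) + g * v := by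
    have f1 : z * (A + B * s + t + D * r) ≤ v * (A + B * s + t + D * r) :=
      mul_le_mul_of_nonneg_right h9 (by positivity)
    rw [e6] at f1
    have f2 : h * (α + t) ≤ h * (v * (A + B * s + t + D * r)) :=
      mul_le_mul_of_nonneg_left f1 (by linarith)
    have f3 : h * (α + t) = (h * y + g) * v := by
      have : h * t = g * v := by rw [← hh, ← hg]
      rw [hy]
      linear_combination this
    have f4 : h * (v * (A + B * s + t + D * r)) = (h * (A + B * s + n * d) + g * v) * v := by
      have : h * t = g * v := by rw [← hh, ← hg]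
      rw [hDr]
      linear_combination v * this
    rw [f3, f4] at f2
    exact le_of_mul_le_mul_right f2 hv
  have F := form_down (A := A) (b := B * s) (v := v) (d := d) (g := g) (H := y + 1) (k := k)
    (n := n) (m := m) hA (by positivity) hv hd0 g1 (by linarith) k1.le n1 hm.le hnm
    hkg hE
  set X := A + m * k * (B * s) + v + k * d with hXdef
  set Y := A + m * (B * s) + g * v + n * k * d with hYdef
  have hk0 : 0 < k := by linarith
  have hg0 : 0 < g := by linarith
  have hn0 : 0 < n := by linarith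
  have hh0 : 0 < h := by linarith
  have hYpos : 0 < Y := by rw [hYdef]; positivity
  have e : h * (g * (y + 1 - 1) * (y + 1) * X * Y
        + g ^ 2 * (y + 1 - 1 + g) * X ^ 2
        - (y + 1) ^ 2 * (A + B * s + n * d) * Y
        - (y + 1) * g * (y + 1 - 1 + g) * v * X)
      = (y + 1) ^ 2 * Y * ((h * y + g) - (h * (A + B * s + n * d) + g * v)) := by
    have e' : h * (g * (y + 1 - 1) * (y + 1) * X * Y
        + g ^ 2 * (y + 1 - 1 + g) * X ^ 2
        - (y + 1) ^ 2 * (A + B * s + n * d) * Y
        - (y + 1) * g * (y + 1 - 1 + g) * v * X)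
      = h * y * (y + 1) * (g * X) * Y
        + (h * (y + g)) * (g * X) ^ 2
        - h * (y + 1) ^ 2 * (A + B * s + n * d) * Y
        - (y + 1) * (h * (y + g)) * v * (g * X) := by ring
    rw [e', hX, ← hY]
    ring
  have F' := mul_pos hh0 F
  rw [e] at F'
  have : (y + 1) ^ 2 * Y * ((h * y + g) - (h * (A + B * s + n * d) + g * v)) ≤ 0 :=
    mul_nonpos_of_nonneg_of_nonpos (by positivity) (by linarith)
  linarith

end H23Rec
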