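import Pool.Agent.Lib_H23Rec.EL

/-!
# Limit windows
-/

open Filter Topology Set

namespace H23Rec

/-- `y` is the limit of the shifts of `x` along `φ` -/
def IsWin (x : ℕ → ℝ) (φ : ℕ → ℕ) (y : ℕ → ℝ) : Prop :=
  Tendsto φ atTop atTop ∧ ∀ j, Tendsto (fun k => x (φ k + j)) atTop (𝓝 (y j))

/-- both parity classes converge -/
def Conv2 (x : ℕ → ℝ) : Prop :=
  ∃ c0 c1 : ℝ, Tendsto (fun i => x (2 * i)) atTop (𝓝 c0) ∧
    Tendsto (fun i => x (2 * i + 1)) atTop (𝓝 c1)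

lemma tendsto_add_nat {φ : ℕ → ℕ} (h : Tendsto φ atTop atTop) (j : ℕ) :
    Tendsto (fun k => φ k + j) atTop atTop :=
  tendsto_atTop_mono (fun _ => Nat.le_add_right _ _) h

lemma exists_win {x : ℕ → ℝ} {l L : ℝ} (hx : ∀ n, x n ∈ Icc l L) {φ : ℕ → ℕ}
    (hφ : Tendsto φ atTop atTop) :
    ∃ ψ : ℕ → ℕ, StrictMono ψ ∧ ∃ y : ℕ → ℝ, IsWin x (fun k => φ (ψ k)) y := by
  have hc : IsCompact (Set.pi univ (fun _ : ℕ => Icc l L)) :=
    isCompact_univ_pi (fun _ => isCompact_Icc)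
  obtain ⟨y, _, ψ, hψ, hy⟩ := hc.tendsto_subseq (x := fun k => fun j => x (φ k + j))
    (fun k j _ => hx _)
  refine ⟨ψ, hψ, y, hφ.comp hψ.tendsto_atTop, ?_⟩
  rw [tendsto_pi_nhds] at hy
  exact hy

lemma IsWin.rec' {α A B D : ℝ} {x y : ℕ → ℝ} {φ : ℕ → ℕ} (h : IsWin x φ y)
    (hr : Rec α A B D x) : Rec α A B D y := by
  intro n
  have h0 := h.2 n
  have h1 := h.2 (n + 1)
  have h2 := h.2 (n + 2)
  have h3 := h.2 (n + 3)
  have e1 : Tendsto (fun k => x (φ k + (n + 3)) * (A + B * x (φ k + (n + 2)) + x (φ k + (n + 1))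
      + D * x (φ k + n))) atTop (𝓝 (y (n + 3) * (A + B * y (n + 2) + y (n + 1) + D * y n))) :=
    h3.mul (((tendsto_const_nhds.add (h2.const_mul B)).add h1).add (h0.const_mul D))
  have e2 : Tendsto (fun k => α + x (φ k + (n + 1))) atTop (𝓝 (α + y (n + 1))) :=
    tendsto_const_nhds.add h1
  refine tendsto_nhds_unique e1 (e2.congr fun k => ?_)
  exact (hr (φ k + n)).symm

lemma IsWin.mem {x y : ℕ → ℝ} {φ : ℕ → ℕ} {l L : ℝ} (h : IsWin x φ y)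
    (hx : ∀ n, x n ∈ Icc l L) (n : ℕ) : y n ∈ Icc l L :=
  isClosed_Icc.mem_of_tendsto (h.2 n) (Eventually.of_forall fun _ => hx _)

lemma IsWin.up {x y : ℕ → ℝ} {φ : ℕ → ℕ} (h : IsWin x φ y) {k i : ℕ} (hu : Up y k i) :
    ∃ n, Up x k n := by
  obtain ⟨h0, h1, h2⟩ := hu
  have a0 := (h.2 i).eventually_lt (h.2 (i + k)) h0
  have a1 := (h.2 (i + 1 + k)).eventually_lt (h.2 (i + 1)) h1
  have a2 := (h.2 (i + 2)).eventually_lt (h.2 (i + 2 + k)) h2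
  obtain ⟨n, b0, b1, b2⟩ := (a0.and (a1.and a2)).exists
  refine ⟨φ n + i, ?_, ?_, ?_⟩
  · simpa only [add_assoc] using b0
  · simpa only [add_assoc] using b1
  · simpa only [add_assoc] using b2

lemma IsWin.dn {x y : ℕ → ℝ} {φ : ℕ → ℕ} (h : IsWin x φ y) {k i : ℕ} (hu : Dn y k i) :
    ∃ n, Dn x k n := by
  obtain ⟨h0, h1, h2⟩ := hu
  have a0 := (h.2 (i + k)).eventually_lt (h.2 (i)) h0
  have a1 := (h.2 (i + 1)).eventually_lt (h.2 (i + 1 + k)) h1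
  have a2 := (h.2 (i + 2 + k)).eventually_lt (h.2 (i + 2)) h2
  obtain ⟨n, b0, b1, b2⟩ := (a0.and (a1.and a2)).exists
  refine ⟨φ n + i, ?_, ?_, ?_⟩
  · simpa only [add_assoc] using b0
  · simpa only [add_assoc] using b1
  · simpa only [add_assoc] using b2

lemma le_limsup_of_tendsto {f : ℕ → ℝ} {C : ℝ} (hf : ∀ n, f n ≤ C) {ψ : ℕ → ℕ}
    (hψ : Tendsto ψ atTop atTop) {v : ℝ} (h : Tendsto (fun k => f (ψ k)) atTop (𝓝 v)) :
    v ≤ limsup f atTop := by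
  by_contra hc
  push Not at hc
  obtain ⟨b, hb1, hb2⟩ := exists_between hc
  have hbd : IsBoundedUnder (· ≤ ·) atTop f := isBoundedUnder_of ⟨C, hf⟩
  have h1 := eventually_lt_of_limsup_lt hb1 hbd
  have h2 : ∀ᶠ k in atTop, f (ψ k) ≤ b := (hψ.eventually h1).mono fun k hk => le_of_lt hk
  have h3 := le_of_tendsto h h2
  linarith

lemma exists_seq_limsup {f : ℕ → ℝ} {c C : ℝ} (hf : ∀ n, c ≤ f n) (hf' : ∀ n, f n ≤ C) :
    ∃ φ : ℕ → ℕ, StrictMono φ ∧ Tendsto (fun k => f (φ k)) atTop (𝓝 (limsup f atTop)) := by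
  have hbd : IsBoundedUnder (· ≤ ·) atTop f := isBoundedUnder_of ⟨C, hf'⟩
  have hbd' : IsBoundedUnder (· ≥ ·) atTop f := isBoundedUnder_of ⟨c, hf⟩
  have hcb : IsCoboundedUnder (· ≤ ·) atTop f := hbd'.isCoboundedUnder_le
  set S := limsup f atTop with hS
  have hfr : ∀ k : ℕ, ∃ᶠ n in atTop, |f n - S| < 1 / ((k : ℝ) + 1) := by
    intro k
    have hk : 0 < 1 / ((k : ℝ) + 1) := by positivity
    have h1 : ∃ᶠ n in atTop, S - 1 / ((k : ℝ) + 1) < f n :=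
      frequently_lt_of_lt_limsup hcb (by linarith)
    have h2 : ∀ᶠ n in atTop, f n < S + 1 / ((k : ℝ) + 1) :=
      eventually_lt_of_limsup_lt (by linarith) hbd
    refine (h1.and_eventually h2).mono fun n hn => ?_
    rw [abs_lt]
    constructor <;> linarith [hn.1, hn.2]
  obtain ⟨φ, hφ, h⟩ := extraction_forall_of_frequently hfr
  refine ⟨φ, hφ, ?_⟩
  rw [tendsto_iff_norm_sub_tendsto_zero]
  refine squeeze_zero (fun _ => norm_nonneg _) (fun k => (h k).le) ?_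
  exact tendsto_one_div_add_atTop_nhds_zero_nat

/-- a limit window at which a bounded statistic `f` attains its upper limit at position `c` -/
lemma exists_win_limsup {x : ℕ → ℝ} {l L : ℝ} (hx : ∀ n, x n ∈ Icc l L)
    {f : ℕ → ℝ} {a b : ℝ} (hf : ∀ n, a ≤ f n) (hf' : ∀ n, f n ≤ b) (c : ℕ) :
    ∃ φ : ℕ → ℕ, ∃ y : ℕ → ℝ, IsWin x φ y ∧
      Tendsto (fun k => f (φ k + c)) atTop (𝓝 (limsup f atTop)) := by
  obtain ⟨φ, hφ, h⟩ := exists_seq_limsup hf hf'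
  have hφ' : Tendsto (fun k => φ k - c) atTop atTop :=
    (tendsto_sub_atTop_nat c).comp hφ.tendsto_atTop
  obtain ⟨ψ, hψ, y, hy⟩ := exists_win hx hφ'
  refine ⟨_, y, hy, ?_⟩
  have h2 : Tendsto (fun k => f (φ (ψ k))) atTop (𝓝 (limsup f atTop)) :=
    h.comp hψ.tendsto_atTop
  refine h2.congr' ?_
  have h3 : ∀ᶠ k in atTop, c ≤ φ (ψ k) :=
    (hφ.tendsto_atTop.comp hψ.tendsto_atTop).eventually_ge_atTop c
  filter_upwards [h3] with k hk
  congr 1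
  omega

lemma tendsto_of_parity {a : ℕ → ℝ} {c : ℝ} (h0 : Tendsto (fun i => a (2 * i)) atTop (𝓝 c))
    (h1 : Tendsto (fun i => a (2 * i + 1)) atTop (𝓝 c)) : Tendsto a atTop (𝓝 c) := by
  rw [Metric.tendsto_atTop] at h0 h1 ⊢
  intro ε hε
  obtain ⟨N0, H0⟩ := h0 ε hε
  obtain ⟨N1, H1⟩ := h1 ε hε
  refine ⟨2 * (N0 + N1) + 1, fun n hn => ?_⟩
  rcases Nat.even_or_odd' n with ⟨k, hk | hk⟩
  · rw [hk]; exact H0 k (by omega)
  · rw [hk]; exact H1 k (by omega)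

lemma Conv2.of_succ {x : ℕ → ℝ} (h : Conv2 (fun n => x (n + 1))) : Conv2 x := by
  obtain ⟨c0, c1, h0, h1⟩ := h
  refine ⟨c1, c0, ?_, h0⟩
  have : Tendsto (fun i => x (2 * (i + 1))) atTop (𝓝 c1) := by
    refine h1.congr fun i => ?_
    congr 1
  exact (tendsto_add_atTop_iff_nat (f := fun i => x (2 * i)) 1).1 this

lemma Conv2.of_shift {x : ℕ → ℝ} {N : ℕ} (h : Conv2 (fun n => x (n + N))) : Conv2 x := by
  induction N with
  | zero => simpa using h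
  | succ N ih =>
    apply ih
    apply Conv2.of_succ
    refine cast ?_ h
    congr 1
    funext n
    congr 1
    ring

lemma Conv2.of_tendsto {x : ℕ → ℝ} {c : ℝ} (h : Tendsto x atTop (𝓝 c)) : Conv2 x := by
  refine ⟨c, c, h.comp ?_, h.comp ?_⟩
  · exact tendsto_atTop_mono (fun i => by simp only [id]; omega) tendsto_id
  · exact tendsto_atTop_mono (fun i => by simp only [id]; omega) tendsto_id

lemma Rec.shift {α A B D : ℝ} {x : ℕ → ℝ} (h : Rec α A B D x) (N : ℕ) :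
    Rec α A B D (fun n => x (n + N)) := by
  intro n
  have := h (n + N)
  have q1 : n + N + 3 = n + 3 + N := by ring
  have q2 : n + N + 2 = n + 2 + N := by ring
  have q3 : n + N + 1 = n + 1 + N := by ring
  rw [q1, q2, q3] at this
  exact this

/-- bounded monotone classes converge -/
lemma tendsto_of_mono {a : ℕ → ℝ} {C : ℝ} (h : ∀ j, a j ≤ a (j + 1)) (hC : ∀ j, a j ≤ C) :
    ∃ c, Tendsto a atTop (𝓝 c) :=
  ⟨_, tendsto_atTop_ciSup (monotone_nat_of_le_succ h) ⟨C, by rintro _ ⟨j, rfl⟩; exact hC j⟩⟩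

lemma tendsto_of_anti {a : ℕ → ℝ} {C : ℝ} (h : ∀ j, a (j + 1) ≤ a j) (hC : ∀ j, C ≤ a j) :
    ∃ c, Tendsto a atTop (𝓝 c) :=
  ⟨_, tendsto_atTop_ciInf (antitone_nat_of_succ_le h) ⟨C, by rintro _ ⟨j, rfl⟩; exact hC j⟩⟩

end H23Rec
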