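import Pool.Agent.Lib_H23Rec.Zero4

/-!
# Convergence to period-two solutions
-/

open Filter Topology Set

namespace H23Rec

lemma shrink_tendsto {a : ℕ → ℝ} (h0 : ∀ n, 0 ≤ a n) (h : ∀ n, a (n + 1) * (1 + a n) ≤ a n) :
    Tendsto a atTop (𝓝 0) := by
  obtain ⟨c, hc⟩ := tendsto_of_anti (a := a) (C := 0) (fun n => by
    have h1 := h n
    have h2 : 0 ≤ a (n + 1) * a n := mul_nonneg (h0 _) (h0 _)
    linarith) h0
  have h1 : Tendsto (fun n => a (n + 1) * (1 + a n)) atTop (𝓝 (c * (1 + c))) :=
    ((tendsto_add_atTop_iff_nat 1).2 hc).mul (hc.const_add 1)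
  have h2 : c * (1 + c) ≤ c := le_of_tendsto_of_tendsto' h1 hc h
  have h3 : c = 0 := by
    have : c ^ 2 ≤ 0 := by linarith
    have := sq_nonneg c
    exact pow_eq_zero_iff (two_ne_zero) |>.1 (le_antisymm (by linarith) this)
  rw [h3] at hc
  exact hc

/-- one parity class vanishes, `A < 1` -/
lemma one_class {A B D : ℝ} (hA : 0 ≤ A) (hA1 : A < 1) {x : ℕ → ℝ}
    (hr : Rec 0 A B D x) (h0 : ∀ i, x (2 * i) = 0) (h1 : ∀ i, 0 < x (2 * i + 1)) :
    Tendsto (fun i => x (2 * i + 1)) atTop (𝓝 (1 - A)) := by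
  have hA' : 0 < 1 - A := by linarith
  obtain ⟨δ, hδ⟩ : ∃ δ, δ = min (x 1) (1 - A) := ⟨_, rfl⟩
  have hδ0 : 0 < δ := by rw [hδ]; exact lt_min (h1 0) hA'
  have hδ1 : δ ≤ x 1 := by rw [hδ]; exact min_le_left _ _
  have hδ2 : δ ≤ 1 - A := by rw [hδ]; exact min_le_right _ _
  refine odd_tendsto (A := A) (B := B) (D := D) hA hA1 hr ?_ hδ0 ?_
  · simp only [h0]
    exact tendsto_const_nhds
  · intro i
    induction i with
    | zero => exact hδ1
    | succ i ih =>
      have e := hr (2 * i)
      have g0 := h0 i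
      have g2 := h0 (i + 1)
      have e2 : 2 * (i + 1) = 2 * i + 2 := by ring
      rw [e2] at g2 ⊢
      rw [g0, g2] at e
      have p := h1 i
      have e3 : 2 * i + 2 + 1 = 2 * i + 3 := by ring
      rw [e3]
      simp only [mul_zero, add_zero, zero_add] at e
      have h3 : δ * (A + x (2 * i + 1)) ≤ x (2 * i + 3) * (A + x (2 * i + 1)) := by
        rw [e]
        have g1 : δ * x (2 * i + 1) ≤ (1 - A) * x (2 * i + 1) :=
          mul_le_mul_of_nonneg_right hδ2 p.le
        have g3 : A * δ ≤ A * x (2 * i + 1) := mul_le_mul_of_nonneg_left ih hA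
        linarith
      exact le_of_mul_le_mul_right h3 (by linarith)

/-- The main theorem in terms of the limits of the two parity classes. -/
theorem main {α A B D : ℝ} (hα : 0 ≤ α) (hA : 0 ≤ A) (hB : 0 ≤ B) (hD : 0 < D) {x : ℕ → ℝ}
    (h0 : 0 ≤ x 0) (h1 : 0 ≤ x 1) (h2 : 0 ≤ x 2)
    (hden : ∀ n, 0 < A + B * x (n + 2) + x (n + 1) + D * x n)
    (hr : Rec α A B D x) :
    ∃ c0 c1 : ℝ, 0 ≤ c0 ∧ 0 ≤ c1 ∧ Tendsto (fun i => x (2 * i)) atTop (𝓝 c0) ∧
      Tendsto (fun i => x (2 * i + 1)) atTop (𝓝 c1) ∧ (0 < A ∨ 0 < c0 + c1) := by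
  have hnn : ∀ n, 0 ≤ x n ∧ 0 ≤ x (n + 1) ∧ 0 ≤ x (n + 2) := by
    intro n
    induction n with
    | zero => exact ⟨h0, h1, h2⟩
    | succ n ih =>
      refine ⟨ih.2.1, ih.2.2, ?_⟩
      have e := hr n
      have hd := hden n
      change 0 ≤ x (n + 3)
      by_contra hc
      push Not at hc
      have : x (n + 3) * (A + B * x (n + 2) + x (n + 1) + D * x n) < 0 := mul_neg_of_neg_of_pos hc hd
      rw [e] at this
      linarith [ih.2.1]
  have hx0 : ∀ n, 0 ≤ x n := fun n => (hnn n).1
  -- limits are nonnegative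
  have lim_nonneg : ∀ (φ : ℕ → ℕ) (c : ℝ), Tendsto (fun i => x (φ i)) atTop (𝓝 c) → 0 ≤ c :=
    fun φ c h => ge_of_tendsto' h fun i => hx0 _
  -- positivity of x (n+3) from that of x (n+1)
  have hpos : ∀ n, 0 < α + x (n + 1) → 0 < x (n + 3) := by
    intro n h
    have e := hr n
    have hd := hden n
    rw [← e] at h
    exact (pos_iff_pos_of_mul_pos h).2 hd
  -- conclusion from a lower bound of pairs
  have finish : Conv2 x → (∃ δ, 0 < δ ∧ ∃ N, ∀ n ≥ N, δ ≤ x n ∨ δ ≤ x (n + 1)) →
      ∃ c0 c1 : ℝ, 0 ≤ c0 ∧ 0 ≤ c1 ∧ Tendsto (fun i => x (2 * i)) atTop (𝓝 c0) ∧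
      Tendsto (fun i => x (2 * i + 1)) atTop (𝓝 c1) ∧ (0 < A ∨ 0 < c0 + c1) := by
    rintro ⟨c0, c1, g0, g1⟩ ⟨δ, hδ, N, hN⟩
    refine ⟨c0, c1, lim_nonneg _ _ g0, lim_nonneg _ _ g1, g0, g1, Or.inr ?_⟩
    have h3 : δ ≤ c0 + c1 := by
      refine ge_of_tendsto (g0.add g1) ?_
      filter_upwards [eventually_ge_atTop N] with i hi
      rcases hN (2 * i) (by omega) with h | h
      · linarith [hx0 (2 * i + 1)]
      · linarith [hx0 (2 * i)]
    linarith
  rcases hα.lt_or_eq with hα' | hα'
  · -- α > 0
    have hp3 : ∀ n, 0 < x (n + 3) := fun n => hpos n (by linarith [hx0 (n + 1)])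
    obtain ⟨hc, l, hl, hlx⟩ := conv_pos (x := fun n => x (n + 3)) hα' hA hB hD hp3 (hr.shift 3)
    refine finish (Conv2.of_shift (N := 3) hc) ⟨l, hl, 3, fun n hn => Or.inl ?_⟩
    have := hlx (n - 3)
    have e : n - 3 + 3 = n := by omega
    rw [e] at this
    exact this
  -- α = 0
  subst hα'
  rcases le_or_gt 1 A with hA1 | hA1
  · have hsh : ∀ n, x (n + 3) * (1 + x (n + 1)) ≤ x (n + 1) := by
      intro n
      have e := hr n
      rw [zero_add] at e
      have g3 := hx0 (n + 3)
      have g2 := hx0 (n + 2)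
      have g1 := hx0 (n + 1)
      have g0 := hx0 n
      have k1 : 0 ≤ x (n + 3) * (B * x (n + 2)) := by positivity
      have k2 : 0 ≤ x (n + 3) * (D * x n) := by positivity
      have k3 : x (n + 3) * 1 ≤ x (n + 3) * A := mul_le_mul_of_nonneg_left hA1 g3
      linarith
    have t1 : Tendsto (fun i => x (2 * i + 1)) atTop (𝓝 0) :=
      shrink_tendsto (fun n => hx0 _) (fun n => hsh (2 * n))
    have t2 : Tendsto (fun i => x (2 * i + 2)) atTop (𝓝 0) :=
      shrink_tendsto (fun n => hx0 _) (fun n => hsh (2 * n + 1))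
    have t0 : Tendsto (fun i => x (2 * i)) atTop (𝓝 0) :=
      (tendsto_add_atTop_iff_nat (f := fun i => x (2 * i)) 1).1 t2
    exact ⟨0, 0, le_rfl, le_rfl, t0, t1, Or.inl (by linarith)⟩
  -- zero propagates
  have hzero : ∀ n, x (n + 1) = 0 → x (n + 3) = 0 := by
    intro n h
    have e := hr n
    have hd := hden n
    rw [zero_add, h] at e
    rw [h] at hd
    exact (mul_eq_zero.1 e).resolve_right hd.ne'
  have hpos' : ∀ n, 0 < x (n + 1) → 0 < x (n + 3) := fun n h => hpos n (by linarith)
  have zclass : ∀ m, x (m + 1) = 0 → ∀ i, x (m + 1 + 2 * i) = 0 := by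
    intro m hm i
    induction i with
    | zero => exact hm
    | succ i ih =>
      have e1 : m + 1 + 2 * i = m + 2 * i + 1 := by ring
      rw [e1] at ih
      have := hzero _ ih
      have e2 : m + 1 + 2 * (i + 1) = m + 2 * i + 3 := by ring
      rw [e2]
      exact this
  have pclass : ∀ m, 0 < x (m + 1) → ∀ i, 0 < x (m + 1 + 2 * i) := by
    intro m hm i
    induction i with
    | zero => exact hm
    | succ i ih =>
      have e1 : m + 1 + 2 * i = m + 2 * i + 1 := by ring
      rw [e1] at ih
      have := hpos' _ ih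
      have e2 : m + 1 + 2 * (i + 1) = m + 2 * i + 3 := by ring
      rw [e2]
      exact this
  rcases h1.lt_or_eq with c1 | c1
  · rcases h2.lt_or_eq with c2 | c2
    · -- all positive from index one
      have o := pclass 0 c1
      have e := pclass 1 c2
      have hp : ∀ n, 0 < x (n + 1) := by
        intro n
        rcases Nat.even_or_odd' n with ⟨k, hk | hk⟩
        · have := o k
          rw [hk]
          have e' : 0 + 1 + 2 * k = 2 * k + 1 := by ring
          rw [e'] at this
          exact this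
        · have := e k
          rw [hk]
          have e' : 1 + 1 + 2 * k = 2 * k + 1 + 1 := by ring
          rw [e'] at this
          exact this
      obtain ⟨hc, δ, hδ, N, hN⟩ := zero_pos (x := fun n => x (n + 1)) hA hA1 hB hD hp (hr.shift 1)
      refine finish (Conv2.of_shift (N := 1) hc) ⟨δ, hδ, N + 1, fun n hn => ?_⟩
      have := hN (n - 1) (by omega)
      have e : n - 1 + 1 = n := by omega
      rw [e] at this
      exact this
    · -- x 1 > 0, x 2 = 0
      have o := pclass 0 c1
      have e := zclass 1 c2.symm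
      have hz : Rec 0 A B D (fun n => x (n + 2)) := hr.shift 2
      have t := one_class (x := fun n => x (n + 2)) hA hA1 hz (fun i => by
        have := e i
        have e' : 1 + 1 + 2 * i = 2 * i + 2 := by ring
        rw [e'] at this
        exact this) (fun i => by
        have := o (i + 1)
        have e' : 0 + 1 + 2 * (i + 1) = 2 * i + 1 + 2 := by ring
        rw [e'] at this
        exact this)
      have t1 : Tendsto (fun i => x (2 * i + 1)) atTop (𝓝 (1 - A)) :=
        (tendsto_add_atTop_iff_nat (f := fun i => x (2 * i + 1)) 1).1 t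
      have t0 : Tendsto (fun i => x (2 * i)) atTop (𝓝 0) := by
        refine (tendsto_add_atTop_iff_nat (f := fun i => x (2 * i)) 1).1 ?_
        refine tendsto_const_nhds.congr fun i => ?_
        have := e i
        have e' : 1 + 1 + 2 * i = 2 * (i + 1) := by ring
        rw [e'] at this
        exact this.symm
      exact ⟨0, 1 - A, le_rfl, by linarith, t0, t1, Or.inr (by linarith)⟩
  · rcases h2.lt_or_eq with c2 | c2
    · -- x 1 = 0, x 2 > 0
      have o := zclass 0 c1.symm
      have e := pclass 1 c2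
      have hz : Rec 0 A B D (fun n => x (n + 1)) := hr.shift 1
      have t := one_class (x := fun n => x (n + 1)) hA hA1 hz (fun i => by
        have := o i
        have e' : 0 + 1 + 2 * i = 2 * i + 1 := by ring
        rw [e'] at this
        exact this) (fun i => by
        have := e i
        have e' : 1 + 1 + 2 * i = 2 * i + 1 + 1 := by ring
        rw [e'] at this
        exact this)
      have t0 : Tendsto (fun i => x (2 * i)) atTop (𝓝 (1 - A)) := by
        refine (tendsto_add_atTop_iff_nat (f := fun i => x (2 * i)) 1).1 ?_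
        exact t
      have t1 : Tendsto (fun i => x (2 * i + 1)) atTop (𝓝 0) := by
        refine tendsto_const_nhds.congr fun i => ?_
        have := o i
        have e' : 0 + 1 + 2 * i = 2 * i + 1 := by ring
        rw [e'] at this
        exact this.symm
      exact ⟨1 - A, 0, by linarith, le_rfl, t0, t1, Or.inr (by linarith)⟩
    · -- x 1 = x 2 = 0
      have o := zclass 0 c1.symm
      have e := zclass 1 c2.symm
      have hA0 : 0 < A := by
        have := hden 1
        have h3 := o 1
        norm_num at h3 this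
        rw [h3, ← c1, ← c2] at this
        linarith
      have t1 : Tendsto (fun i => x (2 * i + 1)) atTop (𝓝 0) := by
        refine tendsto_const_nhds.congr fun i => ?_
        have := o i
        have e' : 0 + 1 + 2 * i = 2 * i + 1 := by ring
        rw [e'] at this
        exact this.symm
      have t0 : Tendsto (fun i => x (2 * i)) atTop (𝓝 0) := by
        refine (tendsto_add_atTop_iff_nat (f := fun i => x (2 * i)) 1).1 ?_
        refine tendsto_const_nhds.congr fun i => ?_
        have := e i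
        have e' : 1 + 1 + 2 * i = 2 * (i + 1) := by ring
        rw [e'] at this
        exact this.symm
      exact ⟨0, 0, le_rfl, le_rfl, t0, t1, Or.inl hA0⟩

/-- The main theorem: every solution converges to a period-two solution. -/
theorem main' {α A B D : ℝ} (hα : 0 ≤ α) (hA : 0 ≤ A) (hB : 0 ≤ B) (hD : 0 < D) {x : ℕ → ℝ}
    (h0 : 0 ≤ x 0) (h1 : 0 ≤ x 1) (h2 : 0 ≤ x 2)
    (hx : ∀ n, 0 < A + B * x (n + 2) + x (n + 1) + D * x n ∧
      x (n + 3) = (α + x (n + 1)) / (A + B * x (n + 2) + x (n + 1) + D * x n)) :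
    ∃ y : ℕ → ℝ, (0 ≤ y 0 ∧ 0 ≤ y 1 ∧ 0 ≤ y 2) ∧
      (∀ n, 0 < A + B * y (n + 2) + y (n + 1) + D * y n ∧
        y (n + 3) = (α + y (n + 1)) / (A + B * y (n + 2) + y (n + 1) + D * y n)) ∧
      (∀ n, y (n + 2) = y n) ∧ Tendsto (fun n => x n - y n) atTop (𝓝 0) := by
  have hr : Rec α A B D x := by
    intro n
    rw [(hx n).2, div_mul_cancel₀ _ (hx n).1.ne']
  obtain ⟨c0, c1, p0, p1, t0, t1, hpos⟩ := main hα hA hB hD h0 h1 h2 (fun n => (hx n).1) hr
  -- the limit equations
  have t0' : Tendsto (fun i => x (2 * i + 2)) atTop (𝓝 c0) :=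
    (tendsto_add_atTop_iff_nat (f := fun i => x (2 * i)) 1).2 t0
  have t1' : Tendsto (fun i => x (2 * i + 3)) atTop (𝓝 c1) :=
    (tendsto_add_atTop_iff_nat (f := fun i => x (2 * i + 1)) 1).2 t1
  have t0'' : Tendsto (fun i => x (2 * i + 4)) atTop (𝓝 c0) :=
    (tendsto_add_atTop_iff_nat (f := fun i => x (2 * i + 2)) 1).2 t0'
  have q1 : c1 * (A + B * c0 + c1 + D * c0) = α + c1 := by
    refine tendsto_nhds_unique
      (t1'.mul (((tendsto_const_nhds.add (t0'.const_mul B)).add t1).add (t0.const_mul D))) ?_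
    refine (tendsto_const_nhds.add t1).congr fun i => ?_
    exact (hr (2 * i)).symm
  have q0 : c0 * (A + B * c1 + c0 + D * c1) = α + c0 := by
    refine tendsto_nhds_unique
      (t0''.mul (((tendsto_const_nhds.add (t1'.const_mul B)).add t0').add (t1.const_mul D))) ?_
    refine (tendsto_const_nhds.add t0').congr fun i => ?_
    exact (hr (2 * i + 1)).symm
  have den1 : 0 < A + B * c0 + c1 + D * c0 := by
    rcases hpos with h | h
    · positivity
    · rcases p0.lt_or_eq with g | g
      · positivity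
      · have : 0 < c1 := by linarith
        positivity
  have den0 : 0 < A + B * c1 + c0 + D * c1 := by
    rcases hpos with h | h
    · positivity
    · rcases p1.lt_or_eq with g | g
      · positivity
      · have : 0 < c0 := by linarith
        positivity
  set y : ℕ → ℝ := fun n => if Even n then c0 else c1 with hy
  have ye : ∀ n, Even n → y n = c0 := fun n hn => by simp [hy, hn]
  have yo : ∀ n, ¬ Even n → y n = c1 := fun n hn => by simp [hy, hn]
  have par : ∀ n, y (n + 2) = y n := by
    intro n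
    by_cases hn : Even n
    · rw [ye _ hn, ye _ (hn.add even_two)]
    · rw [yo _ hn, yo]
      intro h
      apply hn
      rcases h with ⟨k, hk⟩
      exact ⟨k - 1, by omega⟩
  refine ⟨y, ⟨?_, ?_, ?_⟩, ?_, par, ?_⟩
  · rw [ye 0 (by decide)]; exact p0
  · rw [yo 1 (by decide)]; exact p1
  · rw [ye 2 (by decide)]; exact p0
  · intro n
    by_cases hn : Even n
    · have a0 := ye n hn
      have a1 : y (n + 1) = c1 := yo _ (by
        intro h
        rcases h with ⟨k, hk⟩
        rcases hn with ⟨j, hj⟩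
        omega)
      have a2 := par n
      have a3 : y (n + 3) = y (n + 1) := par (n + 1)
      rw [a3, a2, a0, a1]
      exact ⟨den1, by rw [eq_div_iff den1.ne']; exact q1⟩
    · have a0 := yo n hn
      have a1 : y (n + 1) = c0 := ye _ (by
        rcases Nat.not_even_iff_odd.1 hn with ⟨j, hj⟩
        exact ⟨j + 1, by omega⟩)
      have a2 := par n
      have a3 : y (n + 3) = y (n + 1) := par (n + 1)
      rw [a3, a2, a0, a1]
      exact ⟨den0, by rw [eq_div_iff den0.ne']; exact q0⟩
  · apply tendsto_of_parity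
    · have : Tendsto (fun i => x (2 * i) - c0) atTop (𝓝 (c0 - c0)) := t0.sub_const c0
      rw [sub_self] at this
      refine this.congr fun i => ?_
      rw [ye (2 * i) (even_two_mul i)]
    · have : Tendsto (fun i => x (2 * i + 1) - c1) atTop (𝓝 (c1 - c1)) := t1.sub_const c1
      rw [sub_self] at this
      refine this.congr fun i => ?_
      rw [yo (2 * i + 1) (by
        intro h
        rcases h with ⟨k, hk⟩
        omega)]

end H23Rec
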