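import Pool.Agent.Lib_H23Rec.Lim

/-!
# The case `α > 0`
-/

open Filter Topology Set

namespace H23Rec

/-- every positive solution stays in a compact box of positive numbers -/
lemma box {α A B D : ℝ} (hα : 0 < α) (hA : 0 ≤ A) (hB : 0 ≤ B) (hD : 0 < D) {x : ℕ → ℝ}
    (hx : ∀ n, 0 < x n) (hr : Rec α A B D x) :
    ∃ l L : ℝ, 0 < l ∧ ∀ n, x n ∈ Icc l L := by
  obtain ⟨s, hs⟩ : ∃ s, s = B + D := ⟨_, rfl⟩
  have hs0 : 0 < s := by rw [hs]; linarith
  have x0 := hx 0
  have x1 := hx 1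
  have x2 := hx 2
  set L := 1 + x 0 + x 1 + x 2 + (α / s) * (1 + 1 / x 0 + 1 / x 1 + 1 / x 2) with hL
  have hL1 : 1 ≤ L := by
    have : 0 ≤ (α / s) * (1 + 1 / x 0 + 1 / x 1 + 1 / x 2) := by positivity
    linarith
  have hsL : α ≤ s * L := by
    have h1 : α = s * ((α / s) * 1) := by field_simp
    have h2 : (α / s) * 1 ≤ L := by
      have : 0 ≤ (α / s) * (1 / x 0 + 1 / x 1 + 1 / x 2) := by positivity
      linarith
    calc α = s * ((α / s) * 1) := h1
      _ ≤ s * L := mul_le_mul_of_nonneg_left h2 hs0.le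
  have hQ : 0 < A + s * L := by positivity
  obtain ⟨l, hl⟩ : ∃ l, l = α / (A + s * L) := ⟨_, rfl⟩
  have hl0 : 0 < l := by rw [hl]; positivity
  have hlQ : l * (A + s * L) = α := by rw [hl]; field_simp
  have aux : ∀ t : ℝ, 0 < t → (α / s) * (1 / t) ≤ L → l ≤ t := by
    intro t ht h
    have h1 : α ≤ t * (A + s * L) := by
      have h2 : t * s * ((α / s) * (1 / t)) ≤ t * s * L :=
        mul_le_mul_of_nonneg_left h (by positivity)
      have h3 : t * s * ((α / s) * (1 / t)) = α := by field_simp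
      have h4 : 0 ≤ t * A := by positivity
      linarith
    rw [← hlQ] at h1
    exact le_of_mul_le_mul_right h1 hQ
  have hl1 : l ≤ 1 := by
    apply aux 1 one_pos
    have : 0 ≤ (α / s) * (1 / x 0 + 1 / x 1 + 1 / x 2) := by positivity
    linarith
  have hlx0 : l ≤ x 0 := by
    apply aux _ x0
    have : 0 ≤ (α / s) * (1 + 1 / x 1 + 1 / x 2) := by positivity
    linarith
  have hlx1 : l ≤ x 1 := by
    apply aux _ x1
    have : 0 ≤ (α / s) * (1 + 1 / x 0 + 1 / x 2) := by positivity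
    linarith
  have hlx2 : l ≤ x 2 := by
    apply aux _ x2
    have : 0 ≤ (α / s) * (1 + 1 / x 0 + 1 / x 1) := by positivity
    linarith
  have hrest : 0 ≤ (α / s) * (1 + 1 / x 0 + 1 / x 1 + 1 / x 2) := by positivity
  have hup : α ≤ L * (A + s * l) := by
    have h1 : α * (A + s * L) ≤ L * (A + s * l) * (A + s * L) := by
      have e : L * (A + s * l) * (A + s * L) = L * A * (A + s * L) + s * L * (l * (A + s * L)) := by
        ring
      rw [e, hlQ]
      have h2 : α * 1 ≤ (A + s * L) * L := mul_le_mul (by linarith) hL1 (by norm_num) hQ.le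
      have h3 : A * (α * 1) ≤ A * ((A + s * L) * L) := mul_le_mul_of_nonneg_left h2 hA
      linarith
    exact le_of_mul_le_mul_right h1 hQ
  refine ⟨l, L, hl0, ?_⟩
  have main : ∀ n, x n ∈ Icc l L ∧ x (n + 1) ∈ Icc l L ∧ x (n + 2) ∈ Icc l L := by
    intro n
    induction n with
    | zero =>
      refine ⟨⟨hlx0, ?_⟩, ⟨hlx1, ?_⟩, ⟨hlx2, ?_⟩⟩
      · linarith
      · change x 1 ≤ L
        linarith
      · change x 2 ≤ L
        linarith
    | succ n ih =>
      obtain ⟨i0, i1, i2⟩ := ih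
      refine ⟨i1, i2, ?_⟩
      have e := hr n
      have q : n + 1 + 2 = n + 3 := by ring
      rw [q]
      set N := A + B * x (n + 2) + D * x n with hN
      have hN1 : A + s * l ≤ N := by
        have : B * l ≤ B * x (n + 2) := mul_le_mul_of_nonneg_left i2.1 hB
        have : D * l ≤ D * x n := mul_le_mul_of_nonneg_left i0.1 hD.le
        rw [hs]
        linarith
      have hN2 : N ≤ A + s * L := by
        have : B * x (n + 2) ≤ B * L := mul_le_mul_of_nonneg_left i2.2 hB
        have : D * x n ≤ D * L := mul_le_mul_of_nonneg_left i0.2 hD.le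
        rw [hs]
        linarith
      have y1 := hx (n + 1)
      have hN0 : 0 < N := by
        have : 0 < A + s * l := by positivity
        linarith
      have e' : x (n + 3) * (N + x (n + 1)) = α + x (n + 1) := by rw [← e, hN]; ring
      constructor
      · have : l * (N + x (n + 1)) ≤ x (n + 3) * (N + x (n + 1)) := by
          rw [e']
          have f1 : l * N ≤ l * (A + s * L) := mul_le_mul_of_nonneg_left hN2 hl0.le
          have f2 : l * x (n + 1) ≤ 1 * x (n + 1) := mul_le_mul_of_nonneg_right hl1 y1.le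
          linarith
        exact le_of_mul_le_mul_right this (by positivity)
      · have : x (n + 3) * (N + x (n + 1)) ≤ L * (N + x (n + 1)) := by
          rw [e']
          have f1 : L * (A + s * l) ≤ L * N := mul_le_mul_of_nonneg_left hN1 (by linarith)
          have f2 : 1 * x (n + 1) ≤ L * x (n + 1) := mul_le_mul_of_nonneg_right hL1 y1.le
          linarith
        exact le_of_mul_le_mul_right this (by positivity)
  exact fun n => (main n).1

/-- either the solution converges to a constant or its upper limit is below one -/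
lemma mM {α A B D : ℝ} (hA : 0 ≤ A) (hB : 0 ≤ B) (hD : 0 < D) {x : ℕ → ℝ}
    (hr : Rec α A B D x) {l L : ℝ} (hl : 0 < l) (hx : ∀ n, x n ∈ Icc l L) :
    (∃ c, Tendsto x atTop (𝓝 c)) ∨ limsup x atTop < 1 := by
  have hup : ∀ n, x n ≤ L := fun n => (hx n).2
  have hlo : ∀ n, l ≤ x n := fun n => (hx n).1
  have hup' : ∀ n, -x n ≤ -l := fun n => by linarith [hlo n]
  have hlo' : ∀ n, -L ≤ -x n := fun n => by linarith [hup n]
  obtain ⟨φ, y, hy, hyS⟩ := exists_win_limsup hx hlo hup 3
  obtain ⟨χ, z, hz, hzI⟩ := exists_win_limsup hx hlo' hup' 3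
  obtain ⟨S, hS⟩ : ∃ S, S = limsup x atTop := ⟨_, rfl⟩
  obtain ⟨I, hI⟩ : ∃ I, I = -limsup (fun n => -x n) atTop := ⟨_, rfl⟩
  have hI' : limsup (fun n => -x n) atTop = -I := by rw [hI]; ring
  rw [← hS] at hyS ⊢
  rw [hI'] at hzI
  have y3 : y 3 = S := tendsto_nhds_unique (hy.2 3) hyS
  have z3 : z 3 = I := by
    have := tendsto_nhds_unique (hz.2 3).neg hzI
    linarith
  have bu : ∀ (φ : ℕ → ℕ) (y : ℕ → ℝ), IsWin x φ y → ∀ j, y j ≤ S := by
    intro φ y hy j
    rw [hS]
    exact le_limsup_of_tendsto hup (tendsto_add_nat hy.1 j) (hy.2 j)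
  have bl : ∀ (φ : ℕ → ℕ) (y : ℕ → ℝ), IsWin x φ y → ∀ j, I ≤ y j := by
    intro φ y hy j
    have := le_limsup_of_tendsto hup' (tendsto_add_nat hy.1 j) (hy.2 j).neg
    rw [hI'] at this
    linarith
  have hI0 : 0 < I := by
    rw [← z3]
    exact lt_of_lt_of_le hl (hz.mem hx 3).1
  have hIS : I ≤ S := by rw [← y3]; exact bl _ _ hy 3
  rcases lt_or_ge S 1 with h | h
  · exact Or.inr h
  left
  have ey := (hy.rec' hr) 0
  have ez := (hz.rec' hr) 0
  simp only [zero_add] at ey ez
  rw [y3] at ey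
  rw [z3] at ez
  have hy2 := bl _ _ hy 2
  have hy1 := bl _ _ hy 1
  have hy0 := bl _ _ hy 0
  have hz2 := bu _ _ hz 2
  have hz1 := bu _ _ hz 1
  have hz0 := bu _ _ hz 0
  have hz1' := bl _ _ hz 1
  have f1 : S * (A + (B + D) * I) + (S - 1) * I ≤ α := by
    have g1 : S * (B * I) ≤ S * (B * y 2) :=
      mul_le_mul_of_nonneg_left (mul_le_mul_of_nonneg_left hy2 hB) (by linarith)
    have g2 : S * (D * I) ≤ S * (D * y 0) :=
      mul_le_mul_of_nonneg_left (mul_le_mul_of_nonneg_left hy0 hD.le) (by linarith)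
    have g3 : (S - 1) * I ≤ (S - 1) * y 1 := mul_le_mul_of_nonneg_left hy1 (by linarith)
    linarith
  have f2 : α ≤ I * (A + (B + D) * S) + (I - 1) * z 1 := by
    have g1 : I * (B * z 2) ≤ I * (B * S) :=
      mul_le_mul_of_nonneg_left (mul_le_mul_of_nonneg_left hz2 hB) hI0.le
    have g2 : I * (D * z 0) ≤ I * (D * S) :=
      mul_le_mul_of_nonneg_left (mul_le_mul_of_nonneg_left hz0 hD.le) hI0.le
    linarith
  have hSI : S = I := by
    rcases lt_or_ge I 1 with h1 | h1
    · have g : (1 - I) * I ≤ (1 - I) * z 1 := mul_le_mul_of_nonneg_left hz1' (by linarith)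
      have : (A + I) * (S - I) ≤ 0 := by linarith
      by_contra hc
      have h3 : 0 < S - I := by
        rcases lt_or_eq_of_le hIS with h4 | h4
        · linarith
        · exact absurd h4.symm hc
      have : 0 < (A + I) * (S - I) := mul_pos (by linarith) h3
      linarith
    · have g : (I - 1) * z 1 ≤ (I - 1) * S := mul_le_mul_of_nonneg_left hz1 (by linarith)
      have : (A + 1) * (S - I) ≤ 0 := by linarith
      by_contra hc
      have h3 : 0 < S - I := by
        rcases lt_or_eq_of_le hIS with h4 | h4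
        · linarith
        · exact absurd h4.symm hc
      have : 0 < (A + 1) * (S - I) := mul_pos (by linarith) h3
      linarith
  refine ⟨S, tendsto_order.2 ⟨fun a ha => ?_, fun b hb => ?_⟩⟩
  · have : limsup (fun n => -x n) atTop < -a := by rw [hI']; linarith
    have := eventually_lt_of_limsup_lt this (isBoundedUnder_of ⟨-l, hup'⟩)
    exact this.mono fun n hn => by linarith
  · rw [hS] at hb
    exact eventually_lt_of_limsup_lt hb (isBoundedUnder_of ⟨L, hup⟩)

/-- the ratio argument: lag-two differences tend to zero -/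
lemma diff_tendsto {α A B D : ℝ} (hα : 0 ≤ α) (hA : 0 ≤ A) (hB : 0 ≤ B) (hD : 0 < D)
    {x : ℕ → ℝ} (hr : Rec α A B D x) {l L : ℝ} (hl : 0 < l) (hx : ∀ n, x n ∈ Icc l L)
    (hwin : ∀ φ y, IsWin x φ y → ∀ i, ¬ Up y 2 i ∧ ¬ Dn y 2 i ∧ ¬ Up y 6 i ∧ ¬ Dn y 6 i) :
    Tendsto (fun n => x (n + 2) - x n) atTop (𝓝 0) := by
  have hpos : ∀ n, 0 < x n := fun n => lt_of_lt_of_le hl (hx n).1
  have hL0 : 0 < L := lt_of_lt_of_le (hpos 0) (hx 0).2
  set R : ℕ → ℝ := fun n => max (x (n + 2) / x n) (x n / x (n + 2)) with hR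
  have hR1 : ∀ n, 0 ≤ R n := fun n => le_max_of_le_left (div_nonneg (hpos _).le (hpos _).le)
  have hR2 : ∀ n, R n ≤ L / l := fun n => max_le
    (div_le_div₀ hL0.le (hx _).2 hl (hx _).1) (div_le_div₀ hL0.le (hx _).2 hl (hx _).1)
  have hm1 : limsup R atTop ≤ 1 := by
    by_contra hc
    push Not at hc
    obtain ⟨m, hm⟩ : ∃ m, m = limsup R atTop := ⟨_, rfl⟩
    rw [← hm] at hc
    obtain ⟨φ, y, hy, h⟩ := exists_win_limsup hx hR1 hR2 5
    rw [← hm] at h
    have hyp : ∀ n, 0 < y n := fun n => lt_of_lt_of_le hl (hy.mem hx n).1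
    have hlim : ∀ n, Tendsto (fun k => R (φ k + n)) atTop
        (𝓝 (max (y (n + 2) / y n) (y n / y (n + 2)))) := by
      intro n
      have h0 := hy.2 n
      have h2 := hy.2 (n + 2)
      exact (h2.div h0 (hyp n).ne').max (h0.div h2 (hyp (n + 2)).ne')
    have hle : ∀ n, max (y (n + 2) / y n) (y n / y (n + 2)) ≤ m := by
      intro n
      rw [hm]
      exact le_limsup_of_tendsto hR2 (tendsto_add_nat hy.1 n) (hlim n)
    have hup : ∀ n, y (n + 2) ≤ m * y n := fun n =>
      (div_le_iff₀ (hyp n)).1 ((le_max_left _ _).trans (hle n))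
    have hdn : ∀ n, y n ≤ m * y (n + 2) := fun n =>
      (div_le_iff₀ (hyp (n + 2))).1 ((le_max_right _ _).trans (hle n))
    have h5 : max (y 7 / y 5) (y 5 / y 7) = m := tendsto_nhds_unique (hlim 5) h
    have hry := hy.rec' hr
    rcases max_choice (y 7 / y 5) (y 5 / y 7) with h6 | h6
    · rw [h6] at h5
      have h7 : y 7 = m * y 5 := by rw [← h5]; field_simp [(hyp 5).ne']
      exact EL_up hA hB hD.le hα hyp hry hc hup hdn h7 (hwin φ y hy 3).1 (hwin φ y hy 1).1
        (hwin φ y hy 1).2.2.1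
    · rw [h6] at h5
      have h7 : y 5 = m * y 7 := by rw [← h5]; field_simp [(hyp 7).ne']
      exact EL_down hA hB hD.le hα hyp hry hc hup hdn h7 (hwin φ y hy 3).2.1 (hwin φ y hy 1).2.1
        (hwin φ y hy 1).2.2.2
  rw [Metric.tendsto_atTop]
  intro ε hε
  have h1 : limsup R atTop < 1 + ε / (2 * L) := by
    have : 0 < ε / (2 * L) := by positivity
    linarith
  have h2 := eventually_lt_of_limsup_lt h1 (isBoundedUnder_of ⟨L / l, hR2⟩)
  obtain ⟨N, hN⟩ := eventually_atTop.1 h2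
  refine ⟨N, fun n hn => ?_⟩
  have h3 := hN n hn
  have h4 : x (n + 2) < (1 + ε / (2 * L)) * x n :=
    (div_lt_iff₀ (hpos n)).1 (lt_of_le_of_lt (le_max_left _ _) h3)
  have h5 : x n < (1 + ε / (2 * L)) * x (n + 2) :=
    (div_lt_iff₀ (hpos (n + 2))).1 (lt_of_le_of_lt (le_max_right _ _) h3)
  have h6 : ∀ t, t ≤ L → ε / (2 * L) * t ≤ ε / 2 := by
    intro t ht
    have : ε / (2 * L) * t ≤ ε / (2 * L) * L := mul_le_mul_of_nonneg_left ht (by positivity)
    have e : ε / (2 * L) * L = ε / 2 := by field_simp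
    linarith
  have h7 := h6 _ (hx n).2
  have h8 := h6 _ (hx (n + 2)).2
  rw [Real.dist_eq, sub_zero, abs_lt]
  constructor <;> linarith

/-- a level between two frequently visited sides is a cluster value when steps tend to zero -/
lemma cluster_between {a : ℕ → ℝ} (h : Tendsto (fun n => a (n + 1) - a n) atTop (𝓝 0)) {c : ℝ}
    (h1 : ∃ᶠ n in atTop, a n < c) (h2 : ∃ᶠ n in atTop, c < a n) :
    ∃ φ : ℕ → ℕ, StrictMono φ ∧ Tendsto (fun k => a (φ k)) atTop (𝓝 c) := by
  have hcross : ∃ᶠ n in atTop, a n < c ∧ c ≤ a (n + 1) := by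
    intro hn
    obtain ⟨N, hN⟩ := eventually_atTop.1 hn
    obtain ⟨n, hn1, hn2⟩ := (frequently_atTop.1 h1) N
    have : ∀ m, n ≤ m → a m < c := by
      intro m hm
      induction m, hm using Nat.le_induction with
      | base => exact hn2
      | succ m hm ih =>
        by_contra hc
        push Not at hc
        exact hN m (by omega) ⟨ih, hc⟩
    obtain ⟨m, hm1, hm2⟩ := (frequently_atTop.1 h2) n
    have := this m hm1
    linarith
  have hfr : ∀ k : ℕ, ∃ᶠ n in atTop, |a n - c| < 1 / ((k : ℝ) + 1) := by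
    intro k
    have hk : 0 < 1 / ((k : ℝ) + 1) := by positivity
    have h3 : ∀ᶠ n in atTop, |a (n + 1) - a n - 0| < 1 / ((k : ℝ) + 1) := by
      have := (Metric.tendsto_nhds.1 h) _ hk
      simpa only [Real.dist_eq] using this
    refine (hcross.and_eventually h3).mono fun n hn => ?_
    obtain ⟨⟨g1, g2⟩, g3⟩ := hn
    rw [sub_zero, abs_lt] at g3
    rw [abs_lt]
    constructor <;> linarith [g3.1, g3.2]
  obtain ⟨φ, hφ, h⟩ := extraction_forall_of_frequently hfr
  refine ⟨φ, hφ, ?_⟩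
  rw [tendsto_iff_norm_sub_tendsto_zero]
  refine squeeze_zero (fun _ => norm_nonneg _) (fun k => (h k).le) ?_
  exact tendsto_one_div_add_atTop_nhds_zero_nat

open Polynomial in
/-- the polynomial whose roots are the values of period-two solutions -/
lemma finite_values {α A s : ℝ} (hα : 0 < α) {S : Set ℝ}
    (hS : ∀ c ∈ S, ((1 + s) * c ^ 2 - (1 - A) * c - α) * ((s - 1) * c * (1 - A - c) - α) = 0) :
    S.Finite := by
  by_contra hinf
  set P : ℝ[X] := (C (1 + s) * X ^ 2 - C (1 - A) * X - C α) *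
    (C (s - 1) * X * (C (1 - A) - X) - C α) with hP
  have hev : ∀ c, P.eval c = ((1 + s) * c ^ 2 - (1 - A) * c - α) *
      ((s - 1) * c * (1 - A - c) - α) := by
    intro c
    rw [hP]
    simp only [eval_mul, eval_sub, eval_C, eval_X, eval_pow]
  have h0 : P = 0 := by
    apply Polynomial.eq_zero_of_infinite_isRoot
    refine Set.Infinite.mono ?_ hinf
    intro c hc
    change P.eval c = 0
    rw [hev]
    exact hS c hc
  have h1 := hev 0
  rw [h0] at h1
  simp at h1
  linarith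

lemma even_converges {α A B D : ℝ} (hα : 0 < α)
    {x : ℕ → ℝ} (hr : Rec α A B D x) {l L : ℝ} (hx : ∀ n, x n ∈ Icc l L)
    (hd : Tendsto (fun n => x (n + 2) - x n) atTop (𝓝 0)) :
    ∃ c, Tendsto (fun i => x (2 * i)) atTop (𝓝 c) := by
  have hd2 : Tendsto (fun n => x (2 * (n + 1)) - x (2 * n)) atTop (𝓝 0) := by
    have h1 : Tendsto (fun n : ℕ => 2 * n) atTop atTop :=
      tendsto_atTop_mono (fun i => by simp only [id]; omega) tendsto_id
    exact hd.comp h1
  refine tendsto_of_no_upcrossings dense_univ ?_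
    (isBoundedUnder_of ⟨L, fun i => (hx (2 * i)).2⟩)
    (isBoundedUnder_of ⟨l, fun i => (hx (2 * i)).1⟩)
  rintro a - b - hab ⟨h1, h2⟩
  have hfin : (Ioo a b).Finite := by
    apply finite_values (A := A) (s := B + D) hα
    rintro c ⟨hc1, hc2⟩
    obtain ⟨φ, hφ, h⟩ := cluster_between (a := fun i => x (2 * i)) hd2
      (h1.mono fun n hn => lt_trans hn hc1) (h2.mono fun n hn => lt_trans hc2 hn)
    have hφ2 : Tendsto (fun k => 2 * φ k) atTop atTop :=
      tendsto_atTop_mono (fun i => by omega) hφ.tendsto_atTop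
    obtain ⟨ψ, hψ, y, hy⟩ := exists_win hx hφ2
    have hy0 : y 0 = c := by
      have := hy.2 0
      simp only [add_zero] at this
      exact tendsto_nhds_unique this (h.comp hψ.tendsto_atTop)
    have hyy : ∀ n, y (n + 2) = y n := by
      intro n
      have g1 : Tendsto (fun k => x (2 * φ (ψ k) + (n + 2)) - x (2 * φ (ψ k) + n)) atTop
          (𝓝 (y (n + 2) - y n)) := (hy.2 (n + 2)).sub (hy.2 n)
      have g2 : Tendsto (fun k => x (2 * φ (ψ k) + n + 2) - x (2 * φ (ψ k) + n)) atTop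
          (𝓝 0) := hd.comp (tendsto_add_nat hy.1 n)
      have := tendsto_nhds_unique g1 g2
      linarith
    have hry := hy.rec' hr
    have e0 := hry 0
    have e1 := hry 1
    have y2 := hyy 0
    have y3 := hyy 1
    have y4 := hyy 2
    norm_num at e0 e1 y2 y3 y4
    rw [y3, y2, hy0] at e0
    rw [y4, y3, y2, hy0] at e1
    obtain ⟨d, hd⟩ : ∃ d, d = y 1 := ⟨_, rfl⟩
    rw [← hd] at e0 e1
    have k1 : (d - c) * (d + c + A - 1) = 0 := by linear_combination e0 - e1
    rcases mul_eq_zero.1 k1 with k2 | k2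
    · have : d = c := by linarith
      rw [this] at e0
      have : (1 + (B + D)) * c ^ 2 - (1 - A) * c - α = 0 := by linear_combination e0
      rw [this, zero_mul]
    · have : d = 1 - A - c := by linarith
      rw [this] at e1
      have : (B + D - 1) * c * (1 - A - c) - α = 0 := by linear_combination e1
      rw [this, mul_zero]
  exact (Ioo_infinite hab) hfin

/-- lag-two differences tending to zero force both classes to converge (case `α > 0`) -/
lemma conv2_of_diff {α A B D : ℝ} (hα : 0 < α)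
    {x : ℕ → ℝ} (hr : Rec α A B D x) {l L : ℝ} (hx : ∀ n, x n ∈ Icc l L)
    (hd : Tendsto (fun n => x (n + 2) - x n) atTop (𝓝 0)) : Conv2 x := by
  obtain ⟨c0, h0⟩ := even_converges hα hr hx hd
  have hd' : Tendsto (fun n => x (n + 2 + 1) - x (n + 1)) atTop (𝓝 0) :=
    hd.comp (tendsto_add_atTop_nat 1)
  obtain ⟨c1, h1⟩ := even_converges (x := fun n => x (n + 1)) hα (hr.shift 1)
    (fun n => hx (n + 1)) hd'
  exact ⟨c0, c1, h0, h1⟩

lemma Up.add_two {A B D α : ℝ} {x : ℕ → ℝ} (hA : 0 ≤ A) (hB : 0 ≤ B) (hD : 0 < D)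
    (hx : ∀ n, 0 < x n) (hx1 : ∀ n, x n ≤ 1) (hr : Rec α A B D x) {k i : ℕ}
    (h : Up x k i) : Up x k (i + 2) :=
  (h.step hA hB hD hx hx1 hr).step hA hB hD hx hx1 hr

lemma Up.iterate {A B D α : ℝ} {x : ℕ → ℝ} (hA : 0 ≤ A) (hB : 0 ≤ B) (hD : 0 < D)
    (hx : ∀ n, 0 < x n) (hx1 : ∀ n, x n ≤ 1) (hr : Rec α A B D x) {k i : ℕ}
    (h : Up x k i) (j : ℕ) : Up x k (i + 2 * j) := by
  induction j with
  | zero => simpa using h
  | succ j ih =>
    have := ih.add_two hA hB hD hx hx1 hr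
    have e : i + 2 * (j + 1) = i + 2 * j + 2 := by ring
    rw [e]
    exact this

/-- once a strict order with shift two occurs, both classes are monotone -/
lemma conv2_of_up {A B D α : ℝ} {x : ℕ → ℝ} (hA : 0 ≤ A) (hB : 0 ≤ B) (hD : 0 < D)
    (hx : ∀ n, 0 < x n) (hx1 : ∀ n, x n ≤ 1) (hr : Rec α A B D x) {i : ℕ}
    (h : Up x 2 i) : Conv2 x := by
  have hj := fun j => h.iterate hA hB hD hx hx1 hr j
  apply Conv2.of_shift (N := i)
  obtain ⟨c0, h0⟩ := tendsto_of_mono (a := fun j => x (2 * j + i)) (C := 1) (fun j => by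
    have := (hj j).1.le
    have e1 : i + 2 * j = 2 * j + i := by ring
    have e2 : i + 2 * j + 2 = 2 * (j + 1) + i := by ring
    rw [e2, e1] at this
    exact this) (fun j => hx1 _)
  obtain ⟨c1, h1⟩ := tendsto_of_anti (a := fun j => x (2 * j + 1 + i)) (C := 0) (fun j => by
    have := (hj j).2.1.le
    have e1 : i + 2 * j + 1 = 2 * j + 1 + i := by ring
    have e2 : i + 2 * j + 1 + 2 = 2 * (j + 1) + 1 + i := by ring
    rw [e2, e1] at this
    exact this) (fun j => (hx _).le)
  exact ⟨c0, c1, h0, h1⟩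

/-- once a strict order with shift six occurs, differences with lag six tend to zero -/
lemma diff6_of_up {A B D α : ℝ} {x : ℕ → ℝ} (hA : 0 ≤ A) (hB : 0 ≤ B) (hD : 0 < D)
    (hx : ∀ n, 0 < x n) (hx1 : ∀ n, x n ≤ 1) (hr : Rec α A B D x) {i : ℕ}
    (h : Up x 6 i) : Tendsto (fun n => x (n + 6) - x n) atTop (𝓝 0) := by
  have hj := fun j => h.iterate hA hB hD hx hx1 hr j
  -- even part
  obtain ⟨c0, h0⟩ := tendsto_of_mono
    (a := fun j => x (i + 2 * j) + x (i + 2 * (j + 1)) + x (i + 2 * (j + 2))) (C := 3)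
    (fun j => by
      have := (hj j).1.le
      have e2 : i + 2 * j + 6 = i + 2 * (j + 1 + 2) := by ring
      rw [e2] at this
      change x (i + 2 * j) + x (i + 2 * (j + 1)) + x (i + 2 * (j + 2)) ≤
        x (i + 2 * (j + 1)) + x (i + 2 * (j + 2)) + x (i + 2 * (j + 1 + 2))
      linarith) (fun j => by
      have b0 := hx1 (i + 2 * j)
      have b1 := hx1 (i + 2 * (j + 1))
      have b2 := hx1 (i + 2 * (j + 2))
      linarith)
  obtain ⟨c1, h1⟩ := tendsto_of_anti
    (a := fun j => x (i + 2 * j + 1) + x (i + 2 * (j + 1) + 1) + x (i + 2 * (j + 2) + 1)) (C := 0)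
    (fun j => by
      have := (hj j).2.1.le
      have e2 : i + 2 * j + 1 + 6 = i + 2 * (j + 1 + 2) + 1 := by ring
      rw [e2] at this
      change x (i + 2 * (j + 1) + 1) + x (i + 2 * (j + 2) + 1) + x (i + 2 * (j + 1 + 2) + 1) ≤
        x (i + 2 * j + 1) + x (i + 2 * (j + 1) + 1) + x (i + 2 * (j + 2) + 1)
      linarith) (fun j => by
      have b0 := hx (i + 2 * j + 1)
      have b1 := hx (i + 2 * (j + 1) + 1)
      have b2 := hx (i + 2 * (j + 2) + 1)
      linarith)
  have g0 := ((tendsto_add_atTop_iff_nat 1).2 h0).sub h0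
  have g1 := ((tendsto_add_atTop_iff_nat 1).2 h1).sub h1
  rw [sub_self] at g0 g1
  have k0 : Tendsto (fun j => x (2 * j + i + 6) - x (2 * j + i)) atTop (𝓝 0) := by
    refine g0.congr fun j => ?_
    have e2 : 2 * j + i + 6 = i + 2 * (j + 1 + 2) := by ring
    have e1 : 2 * j + i = i + 2 * j := by ring
    rw [e2, e1]
    ring
  have k1 : Tendsto (fun j => x (2 * j + 1 + i + 6) - x (2 * j + 1 + i)) atTop (𝓝 0) := by
    refine g1.congr fun j => ?_
    have e2 : 2 * j + 1 + i + 6 = i + 2 * (j + 1 + 2) + 1 := by ring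
    have e1 : 2 * j + 1 + i = i + 2 * j + 1 := by ring
    rw [e2, e1]
    ring
  have := tendsto_of_parity (a := fun n => x (n + i + 6) - x (n + i)) k0 k1
  exact (tendsto_add_atTop_iff_nat (f := fun n => x (n + 6) - x n) i).1 this

theorem conv_le_one {α A B D : ℝ} (hα : 0 < α) (hA : 0 ≤ A) (hB : 0 ≤ B) (hD : 0 < D)
    {x : ℕ → ℝ} (hr : Rec α A B D x) {l : ℝ} (hl : 0 < l) (hx : ∀ n, x n ∈ Icc l 1) :
    Conv2 x := by
  have hpos : ∀ n, 0 < x n := fun n => lt_of_lt_of_le hl (hx n).1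
  have hle : ∀ n, x n ≤ 1 := fun n => (hx n).2
  by_cases h1 : ∃ i, Up x 2 i
  · obtain ⟨i, h⟩ := h1
    exact conv2_of_up hA hB hD hpos hle hr h
  have h2 : ¬ ∃ i, Dn x 2 i := fun ⟨i, h⟩ => h1 ⟨i + 1, h.step hA hB hD hpos hle hr⟩
  apply conv2_of_diff hα hr hx
  apply diff_tendsto hα.le hA hB hD hr hl hx
  by_cases h3 : ∃ i, Up x 6 i
  · obtain ⟨i, h⟩ := h3
    have h6 := diff6_of_up hA hB hD hpos hle hr h
    intro φ y hy
    have hyp : ∀ n, 0 < y n := fun n => lt_of_lt_of_le hl (hy.mem hx n).1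
    have hyl : ∀ n, y n ≤ 1 := fun n => (hy.mem hx n).2
    have hry := hy.rec' hr
    have hper : ∀ n, y (n + 6) = y n := by
      intro n
      have g1 : Tendsto (fun k => x (φ k + (n + 6)) - x (φ k + n)) atTop
          (𝓝 (y (n + 6) - y n)) := (hy.2 (n + 6)).sub (hy.2 n)
      have g2 : Tendsto (fun k => x (φ k + n + 6) - x (φ k + n)) atTop
          (𝓝 0) := h6.comp (tendsto_add_nat hy.1 n)
      have := tendsto_nhds_unique g1 g2
      linarith
    have noup : ∀ i, ¬ Up y 2 i := by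
      intro i hu
      have u0 := hu.1
      have u1 := (hu.iterate hA hB hD hyp hyl hry 1).1
      have u2 := (hu.iterate hA hB hD hyp hyl hry 2).1
      have e1 : i + 2 * 1 = i + 2 := by ring
      have e2 : i + 2 * 2 = i + 4 := by ring
      rw [e1] at u1
      rw [e2] at u2
      have e3 : y (i + 4 + 2) = y i := hper i
      have e4 : y (i + 2 + 2) = y (i + 4) := rfl
      linarith
    intro i
    refine ⟨noup i, fun h => noup _ (h.step hA hB hD hyp hyl hry), fun h => ?_, fun h => ?_⟩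
    · have := h.1
      rw [hper] at this
      exact lt_irrefl _ this
    · have := h.1
      rw [hper] at this
      exact lt_irrefl _ this
  have h4 : ¬ ∃ i, Dn x 6 i := fun ⟨i, h⟩ => h3 ⟨i + 1, h.step hA hB hD hpos hle hr⟩
  intro φ y hy i
  exact ⟨fun h => h1 (hy.up h), fun h => h2 (hy.dn h), fun h => h3 (hy.up h),
    fun h => h4 (hy.dn h)⟩

/-- The case `α > 0`: both parity classes of every positive solution converge to positive
limits. -/
theorem conv_pos {α A B D : ℝ} (hα : 0 < α) (hA : 0 ≤ A) (hB : 0 ≤ B) (hD : 0 < D)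
    {x : ℕ → ℝ} (hx : ∀ n, 0 < x n) (hr : Rec α A B D x) :
    Conv2 x ∧ ∃ l, 0 < l ∧ ∀ n, l ≤ x n := by
  obtain ⟨l, L, hl, hlL⟩ := box hα hA hB hD hx hr
  refine ⟨?_, l, hl, fun n => (hlL n).1⟩
  rcases mM hA hB hD hr hl hlL with ⟨c, hc⟩ | h
  · exact Conv2.of_tendsto hc
  · have h1 := eventually_lt_of_limsup_lt h (isBoundedUnder_of ⟨L, fun n => (hlL n).2⟩)
    obtain ⟨N, hN⟩ := eventually_atTop.1 h1
    apply Conv2.of_shift (N := N)
    exact conv_le_one hα hA hB hD (hr.shift N) hl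
      (fun n => ⟨(hlL _).1, (hN (n + N) (by omega)).le⟩)

end H23Rec
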