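import Pool.Agent.Lib_H23Rec.Pos

/-!
# The case `α = 0`: five consecutive lag-two ratios
-/

open Filter Topology Set

namespace H23Rec

/-- lag-two ratio bound -/
def RB (x : ℕ → ℝ) (m : ℝ) (j : ℕ) : Prop := x (j + 2) ≤ m * x j ∧ x j ≤ m * x (j + 2)

lemma Vlow {A B D m : ℝ} (hA : 0 ≤ A) (hB : 0 ≤ B) (hD : 0 < D) {x : ℕ → ℝ}
    (hx : ∀ n, 0 < x n) (hx1 : ∀ n, x n ≤ 1) (hr : Rec 0 A B D x) (hm : 1 ≤ m)
    (hb : ∀ j, j ≤ 4 → RB x m j)
    (H1 : ¬ Up x 2 3) (H2 : ¬ Up x 2 1) : (1 + x 5 * (m - 1)) * x 7 ≤ m * x 5 := by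
  have x0 := hx 0
  have x1 := hx 1
  have x2 := hx 2
  have x3 := hx 3
  have x4 := hx 4
  have x5 := hx 5
  have x6 := hx 6
  have x7 := hx 7
  have l5 := hx1 5
  have hm0 : 0 < m := by linarith
  obtain ⟨M1, hM1⟩ : ∃ M, M = A + B * x 2 + x 1 + D * x 0 := ⟨_, rfl⟩
  obtain ⟨M2, hM2⟩ : ∃ M, M = A + B * x 3 + x 2 + D * x 1 := ⟨_, rfl⟩
  obtain ⟨M3, hM3⟩ : ∃ M, M = A + B * x 4 + x 3 + D * x 2 := ⟨_, rfl⟩
  obtain ⟨M4, hM4⟩ : ∃ M, M = A + B * x 5 + x 4 + D * x 3 := ⟨_, rfl⟩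
  obtain ⟨M5, hM5⟩ : ∃ M, M = A + B * x 6 + x 5 + D * x 4 := ⟨_, rfl⟩
  have e1 : x 3 * M1 = x 1 := by have := hr 0; rw [hM1]; simpa using this
  have e2 : x 4 * M2 = x 2 := by have := hr 1; rw [hM2]; simpa using this
  have e3 : x 5 * M3 = x 3 := by have := hr 2; rw [hM3]; simpa using this
  have e4 : x 6 * M4 = x 4 := by have := hr 3; rw [hM4]; simpa using this
  have e5 : x 7 * M5 = x 5 := by have := hr 4; rw [hM5]; simpa using this
  have p1 : 0 < M1 := by rw [hM1]; positivity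
  have p2 : 0 < M2 := by rw [hM2]; positivity
  have p3 : 0 < M3 := by rw [hM3]; positivity
  have p4 : 0 < M4 := by rw [hM4]; positivity
  have p5 : 0 < M5 := by rw [hM5]; positivity
  suffices goal : 1 + x 5 * (m - 1) ≤ m * M5 by
    have := mul_le_mul_of_nonneg_right goal x7.le
    have e : m * M5 * x 7 = m * x 5 := by rw [← e5]; ring
    linarith
  have b2 := hb 2 (by norm_num)
  have b3 := hb 3 (by norm_num)
  have b4 := hb 4 (by norm_num)
  have b0 := hb 0 (by norm_num)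
  simp only [RB, zero_add] at b0 b2 b3 b4
  norm_num at b0 b2 b3 b4
  -- m * M3 ≥ 1
  have hmM3 : 1 ≤ m * M3 := by
    have h1 : x 5 * 1 ≤ x 5 * (m * M3) := by
      have := b3.1
      rw [← e3] at this
      linarith
    exact le_of_mul_le_mul_left h1 x5
  rcases le_or_gt 1 M3 with c3 | c3
  · have f1 : B * x 4 ≤ m * (B * x 6) := by
      have := mul_le_mul_of_nonneg_left b4.2 hB
      linarith
    have f2 : D * x 2 ≤ m * (D * x 4) := by
      have := mul_le_mul_of_nonneg_left b2.2 hD.le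
      linarith
    have f3 : 1 * A ≤ m * A := mul_le_mul_of_nonneg_right hm hA
    have f4 : 1 * (1 - x 5) ≤ M3 * (1 - x 5) := mul_le_mul_of_nonneg_right c3 (by linarith)
    rw [hM5]
    have f5 : A + B * x 4 + D * x 2 = M3 * (1 - x 5) := by linear_combination -hM3 + e3
    linarith
  have h35 : x 3 < x 5 := by
    rw [← e3]
    have : x 5 * M3 < x 5 * 1 := mul_lt_mul_of_pos_left c3 x5
    linarith
  rcases lt_or_ge (x 6) (x 4) with c6 | c6
  · have h7 : x 7 ≤ x 5 := by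
      by_contra hc
      push Not at hc
      exact H1 ⟨h35, c6, hc⟩
    have h8 : 1 ≤ M5 := by
      have : x 7 * 1 ≤ x 7 * M5 := by rw [e5]; linarith
      exact le_of_mul_le_mul_left this x7
    have f1 : m * 1 ≤ m * M5 := mul_le_mul_of_nonneg_left h8 hm0.le
    have f2 : 0 ≤ (m - 1) * (1 - x 5) := mul_nonneg (by linarith) (by linarith)
    linarith
  rcases le_or_gt (x 2) (x 4) with c4 | c4
  · have f1 : B * x 4 ≤ B * x 6 := mul_le_mul_of_nonneg_left c6 hB
    have f2 : D * x 2 ≤ D * x 4 := mul_le_mul_of_nonneg_left c4 hD.le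
    have f3 : M3 * (1 - x 5) + x 5 ≤ M5 := by
      have : A + B * x 4 + D * x 2 = M3 * (1 - x 5) := by linear_combination -hM3 + e3
      rw [hM5]
      linarith
    have f4 : m * (M3 * (1 - x 5) + x 5) ≤ m * M5 := mul_le_mul_of_nonneg_left f3 hm0.le
    have f5 : 1 * (1 - x 5) ≤ m * M3 * (1 - x 5) :=
      mul_le_mul_of_nonneg_right hmM3 (by linarith)
    linarith
  -- the remaining case
  have h13 : x 3 ≤ x 1 := by
    by_contra hc
    push Not at hc
    exact H2 ⟨hc, c4, h35⟩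
  have q1 : 1 ≤ M1 := by
    have : x 3 * 1 ≤ x 3 * M1 := by rw [e1]; linarith
    exact le_of_mul_le_mul_left this x3
  have q2 : 1 < M2 := by
    have : x 4 * 1 < x 4 * M2 := by rw [e2]; linarith
    exact lt_of_mul_lt_mul_left this x4.le
  have q4 : M4 ≤ 1 := by
    have : x 6 * M4 ≤ x 6 * 1 := by rw [e4]; linarith
    exact le_of_mul_le_mul_left this x6
  have q21 : M2 ≤ M1 := by
    by_contra hc
    push Not at hc
    have g1 : A * 1 ≤ A * M2 := mul_le_mul_of_nonneg_left q2.le hA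
    have g2 : B * x 3 ≤ B * (x 5 * M2) := by
      apply mul_le_mul_of_nonneg_left _ hB
      have : x 5 * 1 ≤ x 5 * M2 := mul_le_mul_of_nonneg_left q2.le x5.le
      linarith
    have g3 : D * x 1 < D * (x 3 * M2) := by
      apply mul_lt_mul_of_pos_left _ hD
      rw [← e1]
      exact mul_lt_mul_of_pos_left hc x3
    have g4 : M4 * M2 ≤ 1 * M2 := mul_le_mul_of_nonneg_right q4 p2.le
    rw [hM4] at g4
    have g5 : (A + B * x 5 + x 4 + D * x 3) * M2
      = A * M2 + B * (x 5 * M2) + x 2 + D * (x 3 * M2) := by rw [← e2]; ring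
    rw [g5] at g4
    linarith
  have q10 : x 2 * M1 ≤ x 0 * M3 := by
    by_contra hc
    push Not at hc
    have g1 : A * M3 ≤ A * M1 := mul_le_mul_of_nonneg_left (by linarith) hA
    have g2 : B * (x 2 * M3) ≤ B * (x 4 * M1) := by
      apply mul_le_mul_of_nonneg_left _ hB
      have h1 : x 4 * M2 ≤ x 4 * M1 := mul_le_mul_of_nonneg_left q21 x4.le
      have h2 : x 2 * M3 ≤ x 2 * 1 := mul_le_mul_of_nonneg_left c3.le x2.le
      linarith
    have g3 : x 1 * M3 ≤ x 1 * 1 := mul_le_mul_of_nonneg_left c3.le x1.le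
    have g4 : D * (x 0 * M3) < D * (x 2 * M1) := mul_lt_mul_of_pos_left hc hD
    have g5 : M3 * M1 = A * M1 + B * (x 4 * M1) + x 1 + D * (x 2 * M1) := by
      rw [← e1]
      linear_combination M1 * hM3
    have g6 : M3 * M1 = A * M3 + B * (x 2 * M3) + x 1 * M3 + D * (x 0 * M3) := by
      linear_combination M3 * hM1
    linarith
  have q13 : M1 ≤ m * M3 := by
    have h1 : x 0 * M3 ≤ m * x 2 * M3 := mul_le_mul_of_nonneg_right b0.2 p3.le
    have h2 : x 2 * M1 ≤ x 2 * (m * M3) := by linarith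
    exact le_of_mul_le_mul_left h2 x2
  have q23 : M2 ≤ m * M3 := by linarith
  have f1 : A * 1 ≤ A * (m * M3) := mul_le_mul_of_nonneg_left hmM3 hA
  have f2 : B * x 4 ≤ B * (x 6 * (m * M3)) := by
    apply mul_le_mul_of_nonneg_left _ hB
    have : x 6 * 1 ≤ x 6 * (m * M3) := mul_le_mul_of_nonneg_left hmM3 x6.le
    linarith
  have f3 : D * x 2 ≤ D * (x 4 * (m * M3)) := by
    apply mul_le_mul_of_nonneg_left _ hD.le
    rw [← e2]
    exact mul_le_mul_of_nonneg_left q23 x4.le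
  have f4 : M3 * (1 + x 5 * (m - 1)) ≤ M3 * (m * M5) := by
    have g1 : M3 * (m * M5) = A * (m * M3) + B * (x 6 * (m * M3)) + D * (x 4 * (m * M3))
        + m * x 3 := by
      rw [hM5]
      linear_combination m * e3
    have g2 : M3 * (1 + x 5 * (m - 1)) = A + B * x 4 + D * x 2 + m * x 3 := by
      linear_combination hM3 + (m - 1) * e3
    rw [g1, g2]
    linarith
  exact le_of_mul_le_mul_left f4 p3

lemma Vupp {A B D m : ℝ} (hA : 0 ≤ A) (hB : 0 ≤ B) (hD : 0 < D) {x : ℕ → ℝ}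
    (hx : ∀ n, 0 < x n) (hx1 : ∀ n, x n ≤ 1) (hr : Rec 0 A B D x) (hm : 1 ≤ m)
    (hb : ∀ j, j ≤ 4 → RB x m j)
    (H1 : ¬ Dn x 2 3) (H2 : ¬ Dn x 2 1) : x 5 ≤ (m - x 5 * (m - 1)) * x 7 := by
  have x0 := hx 0
  have x1 := hx 1
  have x2 := hx 2
  have x3 := hx 3
  have x4 := hx 4
  have x5 := hx 5
  have x6 := hx 6
  have x7 := hx 7
  have l5 := hx1 5
  have hm0 : 0 < m := by linarith
  obtain ⟨M1, hM1⟩ : ∃ M, M = A + B * x 2 + x 1 + D * x 0 := ⟨_, rfl⟩
  obtain ⟨M2, hM2⟩ : ∃ M, M = A + B * x 3 + x 2 + D * x 1 := ⟨_, rfl⟩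
  obtain ⟨M3, hM3⟩ : ∃ M, M = A + B * x 4 + x 3 + D * x 2 := ⟨_, rfl⟩
  obtain ⟨M4, hM4⟩ : ∃ M, M = A + B * x 5 + x 4 + D * x 3 := ⟨_, rfl⟩
  obtain ⟨M5, hM5⟩ : ∃ M, M = A + B * x 6 + x 5 + D * x 4 := ⟨_, rfl⟩
  have e1 : x 3 * M1 = x 1 := by have := hr 0; rw [hM1]; simpa using this
  have e2 : x 4 * M2 = x 2 := by have := hr 1; rw [hM2]; simpa using this
  have e3 : x 5 * M3 = x 3 := by have := hr 2; rw [hM3]; simpa using this
  have e4 : x 6 * M4 = x 4 := by have := hr 3; rw [hM4]; simpa using this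
  have e5 : x 7 * M5 = x 5 := by have := hr 4; rw [hM5]; simpa using this
  have p1 : 0 < M1 := by rw [hM1]; positivity
  have p2 : 0 < M2 := by rw [hM2]; positivity
  have p3 : 0 < M3 := by rw [hM3]; positivity
  have p4 : 0 < M4 := by rw [hM4]; positivity
  have p5 : 0 < M5 := by rw [hM5]; positivity
  suffices goal : M5 ≤ m - x 5 * (m - 1) by
    have := mul_le_mul_of_nonneg_right goal x7.le
    linarith
  have b2 := hb 2 (by norm_num)
  have b3 := hb 3 (by norm_num)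
  have b4 := hb 4 (by norm_num)
  have b0 := hb 0 (by norm_num)
  simp only [RB, zero_add] at b0 b2 b3 b4
  norm_num at b0 b2 b3 b4
  -- M3 ≤ m
  have hmM3 : M3 ≤ m := by
    have h1 : x 5 * M3 ≤ x 5 * m := by
      have := b3.2
      rw [← e3] at this
      linarith
    exact le_of_mul_le_mul_left h1 x5
  have hbase : A + B * x 4 + D * x 2 = M3 * (1 - x 5) := by linear_combination -hM3 + e3
  rcases le_or_gt M3 1 with c3 | c3
  · have f1 : B * x 6 ≤ m * (B * x 4) := by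
      have := mul_le_mul_of_nonneg_left b4.1 hB
      linarith
    have f2 : D * x 4 ≤ m * (D * x 2) := by
      have := mul_le_mul_of_nonneg_left b2.1 hD.le
      linarith
    have f3 : 1 * A ≤ m * A := mul_le_mul_of_nonneg_right hm hA
    have f4 : m * (M3 * (1 - x 5)) ≤ m * (1 * (1 - x 5)) :=
      mul_le_mul_of_nonneg_left (mul_le_mul_of_nonneg_right c3 (by linarith)) hm0.le
    rw [hM5]
    rw [← hbase] at f4
    linarith
  have h35 : x 5 < x 3 := by
    rw [← e3]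
    have : x 5 * 1 < x 5 * M3 := mul_lt_mul_of_pos_left c3 x5
    linarith
  rcases lt_or_ge (x 4) (x 6) with c6 | c6
  · have h7 : x 5 ≤ x 7 := by
      by_contra hc
      push Not at hc
      exact H1 ⟨h35, c6, hc⟩
    have h8 : M5 ≤ 1 := by
      have : x 7 * M5 ≤ x 7 * 1 := by rw [e5]; linarith
      exact le_of_mul_le_mul_left this x7
    have f2 : 0 ≤ (m - 1) * (1 - x 5) := mul_nonneg (by linarith) (by linarith)
    linarith
  rcases le_or_gt (x 4) (x 2) with c4 | c4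
  · have f1 : B * x 6 ≤ B * x 4 := mul_le_mul_of_nonneg_left c6 hB
    have f2 : D * x 4 ≤ D * x 2 := mul_le_mul_of_nonneg_left c4 hD.le
    have f3 : M5 ≤ M3 * (1 - x 5) + x 5 := by
      rw [hM5, ← hbase]
      linarith
    have f4 : M3 * (1 - x 5) ≤ m * (1 - x 5) := mul_le_mul_of_nonneg_right hmM3 (by linarith)
    linarith
  -- the remaining case
  have h13 : x 1 ≤ x 3 := by
    by_contra hc
    push Not at hc
    exact H2 ⟨hc, c4, h35⟩
  have q1 : M1 ≤ 1 := by
    have : x 3 * M1 ≤ x 3 * 1 := by rw [e1]; linarith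
    exact le_of_mul_le_mul_left this x3
  have q2 : M2 < 1 := by
    have : x 4 * M2 < x 4 * 1 := by rw [e2]; linarith
    exact lt_of_mul_lt_mul_left this x4.le
  have q4 : 1 ≤ M4 := by
    have : x 6 * 1 ≤ x 6 * M4 := by rw [e4]; linarith
    exact le_of_mul_le_mul_left this x6
  have q21 : M1 ≤ M2 := by
    by_contra hc
    push Not at hc
    have g1 : A * M2 ≤ A * 1 := mul_le_mul_of_nonneg_left q2.le hA
    have g2 : B * (x 5 * M2) ≤ B * x 3 := by
      apply mul_le_mul_of_nonneg_left _ hB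
      have : x 5 * M2 ≤ x 5 * 1 := mul_le_mul_of_nonneg_left q2.le x5.le
      linarith
    have g3 : D * (x 3 * M2) < D * x 1 := by
      apply mul_lt_mul_of_pos_left _ hD
      rw [← e1]
      exact mul_lt_mul_of_pos_left hc x3
    have g4 : 1 * M2 ≤ M4 * M2 := mul_le_mul_of_nonneg_right q4 p2.le
    rw [hM4] at g4
    have g5 : (A + B * x 5 + x 4 + D * x 3) * M2
      = A * M2 + B * (x 5 * M2) + x 2 + D * (x 3 * M2) := by rw [← e2]; ring
    rw [g5] at g4
    linarith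
  have q10 : x 0 * M3 ≤ x 2 * M1 := by
    by_contra hc
    push Not at hc
    have g1 : A * M1 ≤ A * M3 := mul_le_mul_of_nonneg_left (by linarith) hA
    have g2 : B * (x 4 * M1) ≤ B * (x 2 * M3) := by
      apply mul_le_mul_of_nonneg_left _ hB
      have h1 : x 4 * M1 ≤ x 4 * M2 := mul_le_mul_of_nonneg_left q21 x4.le
      have h2 : x 2 * 1 ≤ x 2 * M3 := mul_le_mul_of_nonneg_left c3.le x2.le
      linarith
    have g3 : x 1 * 1 ≤ x 1 * M3 := mul_le_mul_of_nonneg_left c3.le x1.le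
    have g4 : D * (x 2 * M1) < D * (x 0 * M3) := mul_lt_mul_of_pos_left hc hD
    have g5 : M3 * M1 = A * M1 + B * (x 4 * M1) + x 1 + D * (x 2 * M1) := by
      rw [← e1]
      linear_combination M1 * hM3
    have g6 : M3 * M1 = A * M3 + B * (x 2 * M3) + x 1 * M3 + D * (x 0 * M3) := by
      linear_combination M3 * hM1
    linarith
  have q13 : M3 ≤ m * M1 := by
    have h1 : x 2 * M1 ≤ m * x 0 * M1 := mul_le_mul_of_nonneg_right b0.1 p1.le
    have h2 : x 0 * M3 ≤ x 0 * (m * M1) := by linarith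
    exact le_of_mul_le_mul_left h2 x0
  have q23 : M3 ≤ m * M2 := by
    have : m * M1 ≤ m * M2 := mul_le_mul_of_nonneg_left q21 hm0.le
    linarith
  have f1 : A * M3 ≤ A * m := mul_le_mul_of_nonneg_left hmM3 hA
  have f2 : B * (x 6 * M3) ≤ B * (x 4 * m) := by
    apply mul_le_mul_of_nonneg_left _ hB
    exact mul_le_mul c6 hmM3 p3.le x4.le
  have f3 : D * (x 4 * M3) ≤ D * (m * x 2) := by
    apply mul_le_mul_of_nonneg_left _ hD.le
    rw [← e2]
    have := mul_le_mul_of_nonneg_left q23 x4.le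
    linarith
  have f4 : M3 * M5 ≤ M3 * (m - x 5 * (m - 1)) := by
    have g1 : M3 * M5 = A * M3 + B * (x 6 * M3) + D * (x 4 * M3) + x 3 := by
      rw [hM5]
      linear_combination e3
    have g2 : M3 * (m - x 5 * (m - 1)) = m * (A + B * x 4 + D * x 2) + x 3 := by
      rw [hbase]
      linear_combination e3
    rw [g1, g2]
    linarith
  exact le_of_mul_le_mul_left f4 p3

end H23Rec
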