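import Pool.Agent.Lib_H23Rec.V

/-!
# The case `α = 0`, `A < 1`
-/

open Filter Topology Set

namespace H23Rec

lemma Rec.shift' {α A B D : ℝ} {x : ℕ → ℝ} (h : Rec α A B D x) (N : ℕ) :
    Rec α A B D (fun n => x (N + n)) := fun n => h (N + n)

/-- the two ratio estimates at an arbitrary time -/
lemma V_shift {A B D m : ℝ} (hA : 0 ≤ A) (hB : 0 ≤ B) (hD : 0 < D) {x : ℕ → ℝ}
    (hx : ∀ n, 0 < x n) (hx1 : ∀ n, x n ≤ 1) (hr : Rec 0 A B D x) (hm : 1 ≤ m)
    (hno : ∀ i, ¬ Up x 2 i ∧ ¬ Dn x 2 i) (n : ℕ)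
    (hb : ∀ j, n ≤ j → j ≤ n + 4 → RB x m j) :
    (1 + x (n + 5) * (m - 1)) * x (n + 7) ≤ m * x (n + 5) ∧
      x (n + 5) ≤ (m - x (n + 5) * (m - 1)) * x (n + 7) := by
  have hb' : ∀ j, j ≤ 4 → RB (fun k => x (n + k)) m j := fun j hj =>
    hb (n + j) (by omega) (by omega)
  constructor
  · exact Vlow (x := fun k => x (n + k)) hA hB hD (fun k => hx _) (fun k => hx1 _) (hr.shift' n)
      hm hb' (hno (n + 3)).1 (hno (n + 1)).1
  · exact Vupp (x := fun k => x (n + k)) hA hB hD (fun k => hx _) (fun k => hx1 _) (hr.shift' n)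
      hm hb' (hno (n + 3)).2 (hno (n + 1)).2

lemma RB_next {A B D m : ℝ} (hA : 0 ≤ A) (hB : 0 ≤ B) (hD : 0 < D) {x : ℕ → ℝ}
    (hx : ∀ n, 0 < x n) (hx1 : ∀ n, x n ≤ 1) (hr : Rec 0 A B D x) (hm : 1 ≤ m)
    (hno : ∀ i, ¬ Up x 2 i ∧ ¬ Dn x 2 i) (n : ℕ)
    (hb : ∀ j, n ≤ j → j ≤ n + 4 → RB x m j) : RB x m (n + 5) := by
  obtain ⟨h1, h2⟩ := V_shift hA hB hD hx hx1 hr hm hno n hb
  have h3 : 0 ≤ x (n + 5) * (m - 1) * x (n + 7) :=
    mul_nonneg (mul_nonneg (hx _).le (by linarith)) (hx _).le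
  constructor
  · change x (n + 7) ≤ m * x (n + 5)
    linarith
  · change x (n + 5) ≤ m * x (n + 7)
    linarith

lemma RB_persist {A B D m : ℝ} (hA : 0 ≤ A) (hB : 0 ≤ B) (hD : 0 < D) {x : ℕ → ℝ}
    (hx : ∀ n, 0 < x n) (hx1 : ∀ n, x n ≤ 1) (hr : Rec 0 A B D x) (hm : 1 ≤ m)
    (hno : ∀ i, ¬ Up x 2 i ∧ ¬ Dn x 2 i) (n : ℕ)
    (hb : ∀ j, n ≤ j → j ≤ n + 4 → RB x m j) : ∀ j, n ≤ j → RB x m j := by
  have main : ∀ k, ∀ j, n ≤ j → j ≤ n + 4 + k → RB x m j := by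
    intro k
    induction k with
    | zero => exact hb
    | succ k ih =>
      intro j h1 h2
      rcases Nat.lt_or_ge j (n + 4 + k + 1) with h | h
      · exact ih j h1 (by omega)
      · have : j = n + k + 5 := by omega
        rw [this]
        exact RB_next hA hB hD hx hx1 hr hm hno (n + k)
          (fun i hi1 hi2 => ih i (by omega) (by omega))
  intro j hj
  exact main (j - n) j hj (by omega)

/-- lag-two ratio -/
noncomputable def Rt (x : ℕ → ℝ) (n : ℕ) : ℝ := max (x (n + 2) / x n) (x n / x (n + 2))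

lemma Rt_le_iff {x : ℕ → ℝ} (hx : ∀ n, 0 < x n) {m : ℝ} {n : ℕ} : Rt x n ≤ m ↔ RB x m n := by
  unfold Rt RB
  rw [max_le_iff, div_le_iff₀ (hx n), div_le_iff₀ (hx (n + 2))]

lemma Rt_lt_iff {x : ℕ → ℝ} (hx : ∀ n, 0 < x n) {m : ℝ} {n : ℕ} :
    Rt x n < m ↔ x (n + 2) < m * x n ∧ x n < m * x (n + 2) := by
  unfold Rt
  rw [max_lt_iff, div_lt_iff₀ (hx n), div_lt_iff₀ (hx (n + 2))]

lemma Rt_ge_one {x : ℕ → ℝ} (hx : ∀ n, 0 < x n) (n : ℕ) : 1 ≤ Rt x n := by
  unfold Rt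
  rcases le_total (x n) (x (n + 2)) with h | h
  · exact le_max_of_le_left ((one_le_div (hx n)).2 h)
  · exact le_max_of_le_right ((one_le_div (hx (n + 2))).2 h)

/-- If the upper limit of the ratios exceeds one, the minimum of two consecutive terms tends to
zero. -/
lemma min_tendsto_zero {A B D K : ℝ} (hA : 0 ≤ A) (hB : 0 ≤ B) (hD : 0 < D) {x : ℕ → ℝ}
    (hx : ∀ n, 0 < x n) (hx1 : ∀ n, x n ≤ 1) (hr : Rec 0 A B D x)
    (hno : ∀ i, ¬ Up x 2 i ∧ ¬ Dn x 2 i) (hK : ∀ n, RB x K n)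
    (hmu : 1 < limsup (Rt x) atTop) :
    ∀ ε > 0, ∃ N, ∀ n ≥ N, x n < ε ∨ x (n + 1) < ε := by
  have hRK : ∀ n, Rt x n ≤ K := fun n => (Rt_le_iff hx).2 (hK n)
  have hR1 := Rt_ge_one hx
  have hK1 : 1 ≤ K := (hR1 0).trans (hRK 0)
  have hbd : IsBoundedUnder (· ≤ ·) atTop (Rt x) := isBoundedUnder_of ⟨K, hRK⟩
  have hbd' : IsBoundedUnder (· ≥ ·) atTop (Rt x) := isBoundedUnder_of ⟨1, hR1⟩
  have hcb : IsCoboundedUnder (· ≤ ·) atTop (Rt x) := hbd'.isCoboundedUnder_le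
  obtain ⟨mu, hmu'⟩ : ∃ mu, mu = limsup (Rt x) atTop := ⟨_, rfl⟩
  rw [← hmu'] at hmu
  -- (a) every window of five contains a ratio at least mu
  have ha : ∀ n, ∃ j, n ≤ j ∧ j ≤ n + 4 ∧ mu ≤ Rt x j := by
    intro n
    by_contra hc
    push Not at hc
    obtain ⟨m, hm1, hm2, hm3⟩ : ∃ m, 1 ≤ m ∧ m < mu ∧ ∀ j, n ≤ j → j ≤ n + 4 → Rt x j ≤ m := by
      refine ⟨max (max (max (Rt x n) (Rt x (n + 1))) (max (Rt x (n + 2)) (Rt x (n + 3))))
        (Rt x (n + 4)), ?_, ?_, ?_⟩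
      · exact le_max_of_le_right (hR1 _)
      · simp only [max_lt_iff]
        refine ⟨⟨⟨?_, ?_⟩, ?_, ?_⟩, ?_⟩ <;> exact hc _ (by omega) (by omega)
      · intro j h1 h2
        obtain h | h | h | h | h : j = n ∨ j = n + 1 ∨ j = n + 2 ∨ j = n + 3 ∨ j = n + 4 := by
          omega
        all_goals subst h; simp
    have h4 := RB_persist hA hB hD hx hx1 hr hm1 hno n
      (fun j h1 h2 => (Rt_le_iff hx).1 (hm3 j h1 h2))
    have h5 : limsup (Rt x) atTop ≤ m := by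
      apply limsup_le_of_le hcb
      filter_upwards [eventually_ge_atTop n] with j hj
      exact (Rt_le_iff hx).2 (h4 j hj)
    rw [← hmu'] at h5
    linarith
  -- (b)
  have hbb : ∀ ε > 0, ε ≤ 1 → ∃ N, ∀ j ≥ N, mu ≤ Rt x j → x j < ε := by
    intro ε hε hε1
    obtain ⟨η, hη⟩ : ∃ η, η = ε * (mu - 1) / 2 := ⟨_, rfl⟩
    have hη0 : 0 < η := by rw [hη]; have : 0 < mu - 1 := by linarith
                           positivity
    have hη1 : η < ε * (mu - 1) := by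
      have : 0 < ε * (mu - 1) := mul_pos hε (by linarith)
      rw [hη]; linarith
    obtain ⟨m, hm⟩ : ∃ m, m = mu + η := ⟨_, rfl⟩
    have h1 : limsup (Rt x) atTop < m := by rw [← hmu', hm]; linarith
    obtain ⟨N, hN⟩ := eventually_atTop.1 (eventually_lt_of_limsup_lt h1 hbd)
    refine ⟨N + 5, fun j hj hjm => ?_⟩
    by_contra hc
    push Not at hc
    obtain ⟨n, hn⟩ : ∃ n, j = n + 5 := ⟨j - 5, by omega⟩
    subst hn
    have hV := V_shift hA hB hD hx hx1 hr (m := m) (by linarith) hno n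
      (fun i hi1 hi2 => (Rt_le_iff hx).1 (hN i (by omega)).le)
    have x7 := hx (n + 7)
    have x5 := hx (n + 5)
    have f1 : (ε * (m - 1)) ≤ x (n + 5) * (m - 1) :=
      mul_le_mul_of_nonneg_right hc (by linarith)
    have f0 : ε * (mu - 1) ≤ ε * (m - 1) := mul_le_mul_of_nonneg_left (by linarith) hε.le
    have hlt : Rt x (n + 5) < mu := by
      rw [Rt_lt_iff hx]
      constructor
      · change x (n + 7) < mu * x (n + 5)
        have g1 : (1 + ε * (mu - 1)) * x (n + 7) ≤ m * x (n + 5) := by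
          have : (1 + ε * (mu - 1)) * x (n + 7) ≤ (1 + x (n + 5) * (m - 1)) * x (n + 7) :=
            mul_le_mul_of_nonneg_right (by linarith) x7.le
          linarith [hV.1]
        have g2 : m < mu * (1 + ε * (mu - 1)) := by
          have : 1 * (ε * (mu - 1)) ≤ mu * (ε * (mu - 1)) :=
            mul_le_mul_of_nonneg_right hmu.le (mul_nonneg hε.le (by linarith))
          rw [hm]; linarith
        have g3 : m * x (n + 5) < mu * (1 + ε * (mu - 1)) * x (n + 5) :=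
          mul_lt_mul_of_pos_right g2 x5
        have g4 : (1 + ε * (mu - 1)) * x (n + 7) < (1 + ε * (mu - 1)) * (mu * x (n + 5)) := by
          linarith
        exact lt_of_mul_lt_mul_left g4 (by
          have : 0 ≤ ε * (mu - 1) := mul_nonneg hε.le (by linarith)
          linarith)
      · change x (n + 5) < mu * x (n + 7)
        have g1 : (m - x (n + 5) * (m - 1)) * x (n + 7) < mu * x (n + 7) :=
          mul_lt_mul_of_pos_right (by linarith) x7
        linarith [hV.2]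
    linarith
  intro ε hε
  obtain ⟨ε', hε'⟩ : ∃ ε', ε' = min 1 (ε / K ^ 2) := ⟨_, rfl⟩
  have hK0 : 0 < K := by linarith
  have e1 : 0 < ε' := by rw [hε']; exact lt_min one_pos (by positivity)
  have e2 : ε' ≤ 1 := by rw [hε']; exact min_le_left _ _
  have e3 : K ^ 2 * ε' ≤ ε := by
    have : ε' ≤ ε / K ^ 2 := by rw [hε']; exact min_le_right _ _
    calc K ^ 2 * ε' ≤ K ^ 2 * (ε / K ^ 2) := mul_le_mul_of_nonneg_left this (by positivity)
      _ = ε := by field_simp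
  obtain ⟨N, hN⟩ := hbb ε' e1 e2
  refine ⟨N, fun n hn => ?_⟩
  obtain ⟨j, h1, h2, h3⟩ := ha n
  have h4 := hN j (by omega) h3
  have k1 : ∀ i, x i ≤ K * x (i + 2) := fun i => (hK i).2
  have k2 : K * ε' ≤ ε := by
    have : K * 1 ≤ K * K := mul_le_mul_of_nonneg_left hK1 hK0.le
    have : K * 1 * ε' ≤ K * K * ε' := mul_le_mul_of_nonneg_right this e1.le
    linarith
  have k3 : ε' ≤ ε := by
    have : 1 * ε' ≤ K * ε' := mul_le_mul_of_nonneg_right hK1 e1.le
    linarith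
  obtain h | h | h | h | h : j = n ∨ j = n + 1 ∨ j = n + 2 ∨ j = n + 3 ∨ j = n + 4 := by
    omega
  · left; subst h; linarith
  · right; subst h; linarith
  · left; subst h
    have := k1 n
    have h5 : K * x (n + 2) < K * ε' := mul_lt_mul_of_pos_left h4 hK0
    linarith
  · right; subst h
    have := k1 (n + 1)
    have e : n + 1 + 2 = n + 3 := by ring
    rw [e] at this
    have h5 : K * x (n + 3) < K * ε' := mul_lt_mul_of_pos_left h4 hK0
    linarith
  · left; subst h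
    have g1 := k1 n
    have g2 := k1 (n + 2)
    have e : n + 2 + 2 = n + 4 := by ring
    rw [e] at g2
    have h5 : K ^ 2 * x (n + 4) < K ^ 2 * ε' := mul_lt_mul_of_pos_left h4 (by positivity)
    have h6 : K * x (n + 2) ≤ K * (K * x (n + 4)) := mul_le_mul_of_nonneg_left g2 hK0.le
    linarith

end H23Rec
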