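import Pool.Agent.Lib_H23Rec.Zero

/-!
# The case `α = 0`, `A < 1`: convergence of the classes
-/

open Filter Topology Set

namespace H23Rec

/-- perturbed affine contraction -/
lemma affine_tendsto {A : ℝ} (hA : 0 ≤ A) (hA1 : A < 1) {u e : ℕ → ℝ}
    (he : Tendsto e atTop (𝓝 0)) (hu : ∀ n, u (n + 1) = A * u n + 1 + e n) :
    Tendsto u atTop (𝓝 (1 / (1 - A))) := by
  have hA' : 0 < 1 - A := by linarith
  obtain ⟨c, hc⟩ : ∃ c, c = 1 / (1 - A) := ⟨_, rfl⟩
  have hc' : c = A * c + 1 := by rw [hc]; field_simp; ring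
  rw [← hc]
  rw [Metric.tendsto_atTop]
  intro ε hε
  have h1 : 0 < ε / 2 * (1 - A) := by positivity
  obtain ⟨N, hN⟩ := (Metric.tendsto_atTop.1 he) _ h1
  have h2 : ∀ k, |u (N + k) - c| ≤ A ^ k * |u N - c| + ε / 2 := by
    intro k
    induction k with
    | zero => simp; linarith
    | succ k ih =>
      have e1 : u (N + (k + 1)) - c = A * (u (N + k) - c) + e (N + k) := by
        have := hu (N + k)
        have e2 : N + (k + 1) = N + k + 1 := by ring
        rw [e2]
        linear_combination this - hc'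
      rw [e1]
      have h3 := hN (N + k) (by omega)
      rw [Real.dist_eq, sub_zero] at h3
      calc |A * (u (N + k) - c) + e (N + k)| ≤ |A * (u (N + k) - c)| + |e (N + k)| :=
            abs_add_le _ _
        _ = A * |u (N + k) - c| + |e (N + k)| := by rw [abs_mul, abs_of_nonneg hA]
        _ ≤ A * (A ^ k * |u N - c| + ε / 2) + ε / 2 * (1 - A) := by
            have := mul_le_mul_of_nonneg_left ih hA
            linarith
        _ = A ^ (k + 1) * |u N - c| + ε / 2 := by ring
  have h3 : Tendsto (fun k => A ^ k * |u N - c| + ε / 2) atTop (𝓝 (0 * |u N - c| + ε / 2)) :=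
    ((tendsto_pow_atTop_nhds_zero_of_lt_one hA hA1).mul_const _).add_const _
  rw [zero_mul, zero_add] at h3
  have h4 := h3.eventually (gt_mem_nhds (show ε / 2 < ε by linarith))
  obtain ⟨M, hM⟩ := eventually_atTop.1 h4
  refine ⟨N + M, fun n hn => ?_⟩
  obtain ⟨k, hk⟩ : ∃ k, n = N + k := ⟨n - N, by omega⟩
  subst hk
  rw [Real.dist_eq]
  exact lt_of_le_of_lt (h2 k) (hM k (by omega))

/-- if the even class tends to zero and the odd class stays away from zero, then it converges
to `1 - A` -/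
lemma odd_tendsto {A B D δ : ℝ} (hA : 0 ≤ A) (hA1 : A < 1) {x : ℕ → ℝ}
    (hr : Rec 0 A B D x) (h0 : Tendsto (fun i => x (2 * i)) atTop (𝓝 0)) (hδ : 0 < δ)
    (h1 : ∀ i, δ ≤ x (2 * i + 1)) : Tendsto (fun i => x (2 * i + 1)) atTop (𝓝 (1 - A)) := by
  set u : ℕ → ℝ := fun i => (x (2 * i + 1))⁻¹ with hu
  set e : ℕ → ℝ := fun i => (B * x (2 * (i + 1)) + D * x (2 * i)) * (x (2 * i + 1))⁻¹ with he
  have hpos : ∀ i, 0 < x (2 * i + 1) := fun i => lt_of_lt_of_le hδ (h1 i)
  have hub : ∀ i, |(x (2 * i + 1))⁻¹| ≤ δ⁻¹ := by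
    intro i
    rw [abs_of_pos (inv_pos.2 (hpos i))]
    exact inv_anti₀ hδ (h1 i)
  have hrec : ∀ n, u (n + 1) = A * u n + 1 + e n := by
    intro n
    have h := hr (2 * n)
    have e3 : 2 * (n + 1) + 1 = 2 * n + 3 := by ring
    have e2 : 2 * (n + 1) = 2 * n + 2 := by ring
    simp only [hu, he]
    rw [e3, e2]
    have p1 := hpos n
    have p3 := hpos (n + 1)
    rw [e3] at p3
    field_simp
    linarith
  have hlim : Tendsto e atTop (𝓝 0) := by
    have h2 : Tendsto (fun i => x (2 * (i + 1))) atTop (𝓝 0) :=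
      (tendsto_add_atTop_iff_nat (f := fun i => x (2 * i)) 1).2 h0
    have h3 : Tendsto (fun i => B * x (2 * (i + 1)) + D * x (2 * i)) atTop (𝓝 0) := by
      have := (h2.const_mul B).add (h0.const_mul D)
      simpa using this
    rw [tendsto_zero_iff_norm_tendsto_zero] at h3 ⊢
    have h4 : Tendsto (fun i => ‖B * x (2 * (i + 1)) + D * x (2 * i)‖ * δ⁻¹) atTop (𝓝 0) := by
      have := h3.mul_const δ⁻¹
      simpa using this
    refine squeeze_zero (fun _ => norm_nonneg _) (fun i => ?_) h4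
    rw [he, norm_mul]
    exact mul_le_mul_of_nonneg_left (hub i) (norm_nonneg _)
  have h5 := affine_tendsto hA hA1 hlim hrec
  have hA' : 0 < 1 - A := by linarith
  have h6 := h5.inv₀ (by positivity)
  have e6 : (1 / (1 - A))⁻¹ = 1 - A := by rw [one_div, inv_inv]
  rw [e6] at h6
  refine h6.congr fun i => ?_
  simp [hu]

/-- the minimum of consecutive terms tends to zero, the maximum does not: one class tends to
zero -/
lemma conv2_of_min {A B D δ : ℝ} (hA : 0 ≤ A) (hA1 : A < 1) {x : ℕ → ℝ}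
    (hx : ∀ n, 0 < x n) (hr : Rec 0 A B D x) (hδ : 0 < δ)
    (hpair : ∀ n, δ ≤ x n ∨ δ ≤ x (n + 1))
    (hmin : ∀ ε > 0, ∃ N, ∀ n ≥ N, x n < ε ∨ x (n + 1) < ε) : Conv2 x := by
  obtain ⟨N, hN⟩ := hmin δ hδ
  obtain ⟨M, hMN, hM⟩ : ∃ M, N ≤ M ∧ x M < δ := by
    rcases hN N le_rfl with h | h
    · exact ⟨N, le_rfl, h⟩
    · exact ⟨N + 1, by omega, h⟩
  apply Conv2.of_shift (N := M)
  have key : ∀ i, x (2 * i + M) < δ := by
    intro i
    induction i with
    | zero => simpa using hM
    | succ i ih =>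
      have h1 : δ ≤ x (2 * i + M + 1) := by
        rcases hpair (2 * i + M) with h | h
        · linarith
        · exact h
      rcases hN (2 * i + M + 1) (by omega) with h | h
      · linarith
      · have e : 2 * (i + 1) + M = 2 * i + M + 1 + 1 := by ring
        rw [e]
        exact h
  have key2 : ∀ i, δ ≤ x (2 * i + M + 1) := by
    intro i
    rcases hpair (2 * i + M) with h | h
    · linarith [key i]
    · exact h
  have h0 : Tendsto (fun i => x (2 * i + M)) atTop (𝓝 0) := by
    rw [Metric.tendsto_atTop]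
    intro ε hε
    obtain ⟨P, hP⟩ := hmin (min ε δ) (lt_min hε hδ)
    refine ⟨P, fun i hi => ?_⟩
    rw [Real.dist_eq, sub_zero, abs_of_pos (hx _)]
    rcases hP (2 * i + M) (by omega) with h | h
    · exact lt_of_lt_of_le h (min_le_left _ _)
    · have := key2 i
      have h2 : x (2 * i + M + 1) < δ := lt_of_lt_of_le h (min_le_right _ _)
      linarith
  have h1 := odd_tendsto (x := fun n => x (n + M)) hA hA1 (hr.shift M) h0 hδ (fun i => by
    have := key2 i
    have e : 2 * i + 1 + M = 2 * i + M + 1 := by ring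
    rw [e]
    exact this)
  exact ⟨0, _, h0, h1⟩

/-- lag-two differences tend to zero, also relative to the terms -/
lemma small_of_limsup {x : ℕ → ℝ} {K : ℝ} (hx : ∀ n, 0 < x n) (hx1 : ∀ n, x n ≤ 1)
    (hK : ∀ n, RB x K n) (hmu : limsup (Rt x) atTop ≤ 1) :
    Tendsto (fun n => x (n + 2) - x n) atTop (𝓝 0) ∧
      Tendsto (fun n => x n / x (n + 2)) atTop (𝓝 1) := by
  have hRK : ∀ n, Rt x n ≤ K := fun n => (Rt_le_iff hx).2 (hK n)
  have hbd : IsBoundedUnder (· ≤ ·) atTop (Rt x) := isBoundedUnder_of ⟨K, hRK⟩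
  constructor
  · rw [Metric.tendsto_atTop]
    intro ε hε
    have h1 : limsup (Rt x) atTop < 1 + ε := by linarith
    obtain ⟨N, hN⟩ := eventually_atTop.1 (eventually_lt_of_limsup_lt h1 hbd)
    refine ⟨N, fun n hn => ?_⟩
    obtain ⟨h2, h3⟩ := (Rt_lt_iff hx).1 (hN n hn)
    have h4 : ε * x n ≤ ε * 1 := mul_le_mul_of_nonneg_left (hx1 _) hε.le
    have h5 : ε * x (n + 2) ≤ ε * 1 := mul_le_mul_of_nonneg_left (hx1 _) hε.le
    rw [Real.dist_eq, sub_zero, abs_lt]
    constructor <;> linarith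
  · rw [Metric.tendsto_atTop]
    intro ε hε
    have h1 : limsup (Rt x) atTop < 1 + ε := by linarith
    obtain ⟨N, hN⟩ := eventually_atTop.1 (eventually_lt_of_limsup_lt h1 hbd)
    refine ⟨N, fun n hn => ?_⟩
    obtain ⟨h2, h3⟩ := (Rt_lt_iff hx).1 (hN n hn)
    have p := hx (n + 2)
    have p0 := hx n
    rw [Real.dist_eq, abs_lt]
    constructor
    · have h6 : 1 - ε < x n / x (n + 2) := by
        rw [lt_div_iff₀ p]
        rcases le_or_gt (x (n + 2)) (x n) with h | h
        · have : 0 < ε * x (n + 2) := by positivity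
          linarith
        · have : ε * x n ≤ ε * x (n + 2) := mul_le_mul_of_nonneg_left h.le hε.le
          linarith
      linarith
    · have h6 : x n / x (n + 2) < 1 + ε := by
        rw [div_lt_iff₀ p]
        exact h3
      linarith

end H23Rec
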