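import Pool.Agent.Lib_H23Rec.Zero2

/-!
# The case `α = 0`, `A < 1`: all lag-two ratios tend to one
-/

open Filter Topology Set

namespace H23Rec

/-- the linear relation in the limit -/
lemma lin_tendsto {A B D : ℝ} {x : ℕ → ℝ}
    (hx : ∀ n, 0 < x n) (hr : Rec 0 A B D x)
    (hd : Tendsto (fun n => x (n + 2) - x n) atTop (𝓝 0))
    (hq : Tendsto (fun n => x n / x (n + 2)) atTop (𝓝 1)) :
    Tendsto (fun n => x (n + 1) + (B + D) * x n) atTop (𝓝 (1 - A)) := by
  have h1 : Tendsto (fun n => x (n + 1) / x (n + 1 + 2)) atTop (𝓝 1) :=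
    hq.comp (tendsto_add_atTop_nat 1)
  have h2 : ∀ n, x (n + 1) / x (n + 1 + 2) = A + B * x (n + 2) + x (n + 1) + D * x n := by
    intro n
    have := hr n
    have e : n + 1 + 2 = n + 3 := by ring
    rw [e, div_eq_iff (hx _).ne']
    linarith
  have h3 : Tendsto (fun n => x (n + 1) / x (n + 1 + 2) - A - B * (x (n + 2) - x n)) atTop
      (𝓝 (1 - A - B * 0)) := (h1.sub_const A).sub (hd.const_mul B)
  rw [mul_zero, sub_zero] at h3
  refine h3.congr fun n => ?_
  rw [h2]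
  ring

lemma conv2_ne_one {A B D : ℝ} {x : ℕ → ℝ} (hB : 0 ≤ B) (hD : 0 < D)
    (hs : B + D ≠ 1)
    (hd : Tendsto (fun n => x (n + 2) - x n) atTop (𝓝 0))
    (hl : Tendsto (fun n => x (n + 1) + (B + D) * x n) atTop (𝓝 (1 - A))) : Conv2 x := by
  obtain ⟨s, hs'⟩ : ∃ s, s = B + D := ⟨_, rfl⟩
  rw [← hs'] at hs hl
  have hl' : Tendsto (fun n => x (n + 1 + 1) + s * x (n + 1)) atTop (𝓝 (1 - A)) :=
    hl.comp (tendsto_add_atTop_nat 1)
  have h1 : Tendsto (fun n => (s * (x (n + 1) + s * x n)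
      - ((x (n + 1 + 1) + s * x (n + 1)) - (x (n + 2) - x n))) / (s ^ 2 - 1)) atTop
      (𝓝 ((s * (1 - A) - ((1 - A) - 0)) / (s ^ 2 - 1))) :=
    ((hl.const_mul s).sub (hl'.sub hd)).div_const _
  have hne : s ^ 2 - 1 ≠ 0 := by
    have : s ^ 2 - 1 = (s - 1) * (s + 1) := by ring
    rw [this]
    apply mul_ne_zero (sub_ne_zero.2 hs)
    rw [hs']
    linarith
  apply Conv2.of_tendsto (c := (s * (1 - A) - ((1 - A) - 0)) / (s ^ 2 - 1))
  refine h1.congr fun n => ?_
  have e : n + 1 + 1 = n + 2 := by ring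
  rw [e]
  field_simp
  ring

/-- energy estimate for `B + D = 1` -/
lemma conv2_one {A B D : ℝ} {x : ℕ → ℝ} (hA1 : A < 1) (hB : 0 ≤ B)
    (hD : 0 < D) (hs : B + D = 1)
    (hx : ∀ n, 0 < x n) (hx1 : ∀ n, x n ≤ 1) (hr : Rec 0 A B D x)
    (hlo : ∀ n, (1 - A) / 2 ≤ x n + x (n + 1)) (hup : ∀ n, x n + x (n + 1) ≤ 11 / 10) :
    Conv2 x := by
  have hT0 : 0 < 1 - A := by linarith
  have hD1 : D ≤ 1 := by linarith
  obtain ⟨T, hT⟩ : ∃ T, T = 1 - A := ⟨_, rfl⟩
  rw [← hT] at hT0 hlo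
  -- definitions
  obtain ⟨d, hd⟩ : ∃ d : ℕ → ℝ, ∀ n, d n = x (n + 2) - x n := ⟨fun n => x (n + 2) - x n, fun _ => rfl⟩
  obtain ⟨W, hW⟩ : ∃ W : ℕ → ℝ, ∀ n, W n = x (n + 1) + x (n + 2) - T :=
    ⟨fun n => x (n + 1) + x (n + 2) - T, fun _ => rfl⟩
  obtain ⟨E, hE⟩ : ∃ E : ℕ → ℝ, ∀ n, E n = (1 / x (n + 2) - 1 / 2) * d n ^ 2 :=
    ⟨fun n => (1 / x (n + 2) - 1 / 2) * d n ^ 2, fun _ => rfl⟩
  obtain ⟨G, hG⟩ : ∃ G : ℕ → ℝ, ∀ n, G n = W n ^ 2 + E n := ⟨fun n => W n ^ 2 + E n, fun _ => rfl⟩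
  have hc : ∀ n, 1 / 2 ≤ 1 / x (n + 2) - 1 / 2 := by
    intro n
    have : 1 ≤ 1 / x (n + 2) := (one_le_div (hx _)).2 (hx1 _)
    linarith
  have hE0 : ∀ n, d n ^ 2 ≤ 2 * E n := by
    intro n
    rw [hE]
    have := mul_le_mul_of_nonneg_right (hc n) (sq_nonneg (d n))
    linarith
  have hE1 : ∀ n, 0 ≤ E n := by
    intro n
    have := hE0 n
    have := sq_nonneg (d n)
    linarith
  have hG0 : ∀ n, 0 ≤ G n := by
    intro n
    rw [hG]
    have := hE1 n
    positivity
  -- the basic identity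
  have hid : ∀ n, W n = D * d n - d (n + 1) / x (n + 3) := by
    intro n
    have h := hr n
    have p := hx (n + 3)
    rw [hW, hd, hd, hT]
    have e1 : n + 1 + 2 = n + 3 := by ring
    rw [e1]
    have hB' : B = 1 - D := by linarith
    rw [hB'] at h
    field_simp
    linarith
  have hWs : ∀ n, W (n + 1) = W n + d (n + 1) := by
    intro n
    rw [hW, hW, hd]
    have e1 : n + 1 + 2 = n + 3 := by ring
    have e2 : n + 1 + 1 = n + 2 := by ring
    rw [e1, e2]
    ring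
  -- decay of G
  have hstep : ∀ n, G (n + 1) ≤ G n - (E n + E (n + 1)) / 6 := by
    intro n
    obtain ⟨c, hcc⟩ : ∃ c, c = 1 / x (n + 2) - 1 / 2 := ⟨_, rfl⟩
    obtain ⟨c', hcc'⟩ : ∃ c', c' = 1 / x (n + 3) - 1 / 2 := ⟨_, rfl⟩
    have c0 : 0 < c := by rw [hcc]; linarith [hc n]
    have e1 : n + 1 + 2 = n + 3 := by ring
    have c0' : 0 < c' := by
      have := hc (n + 1)
      rw [e1] at this
      rw [hcc']; linarith
    have hprod : 36 / 25 ≤ c * c' := by
      have p2 := hx (n + 2)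
      have p3 := hx (n + 3)
      have q2 := hx1 (n + 2)
      have q3 := hx1 (n + 3)
      have hu := hup (n + 2)
      have e4 : n + 2 + 1 = n + 3 := by ring
      rw [e4] at hu
      have e : c * c' = (2 - x (n + 2)) * (2 - x (n + 3)) / (4 * (x (n + 2) * x (n + 3))) := by
        rw [hcc, hcc']
        field_simp
        ring
      rw [e, le_div_iff₀ (by positivity)]
      have h1 : 4 * (x (n + 2) * x (n + 3)) ≤ (11 / 10) ^ 2 := by
        have h2 : (x (n + 2) + x (n + 3)) ^ 2 ≤ (11 / 10) ^ 2 :=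
          pow_le_pow_left₀ (by positivity) hu 2
        have h3 := sq_nonneg (x (n + 2) - x (n + 3))
        linarith
      linarith
    have hEn : E n = c * d n ^ 2 := by rw [hE, hcc]
    have hEn' : E (n + 1) = c' * d (n + 1) ^ 2 := by rw [hE, hcc', e1]
    have hGG : G (n + 1) - G n = 2 * D * (d n * d (n + 1)) - E (n + 1) - E n := by
      rw [hG, hG, hWs]
      have h1 : d (n + 1) * W n = D * d n * d (n + 1) - d (n + 1) ^ 2 * (c' + 1 / 2) := by
        rw [hid, hcc']
        ring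
      rw [hEn']
      linear_combination 2 * h1
    have hcross : 2 * D * (d n * d (n + 1)) ≤ 5 / 6 * (E n + E (n + 1)) := by
      have h1 : ∀ t : ℝ, 2 * (d n * t) ≤ 5 / 6 * (c * d n ^ 2 + c' * t ^ 2) := by
        intro t
        have h2 : 0 ≤ c * (5 / 6 * (c * d n ^ 2 + c' * t ^ 2) - 2 * (d n * t)) := by
          have e : c * (5 / 6 * (c * d n ^ 2 + c' * t ^ 2) - 2 * (d n * t))
            = 5 / 6 * (c * d n - 6 / 5 * t) ^ 2 + 5 / 6 * ((c * c' - 36 / 25) * t ^ 2) := by ring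
          rw [e]
          have : 0 ≤ c * c' - 36 / 25 := by linarith
          positivity
        have := nonneg_of_mul_nonneg_right h2 c0
        linarith
      have h3 := h1 (d (n + 1))
      have h4 := h1 (-d (n + 1))
      rw [hEn, hEn']
      rcases le_total 0 (d n * d (n + 1)) with h5 | h5
      · have : D * (d n * d (n + 1)) ≤ 1 * (d n * d (n + 1)) :=
          mul_le_mul_of_nonneg_right hD1 h5
        linarith
      · have h6 : D * (d n * d (n + 1)) ≤ 0 := mul_nonpos_of_nonneg_of_nonpos hD.le h5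
        have h7 : 0 ≤ 5 / 6 * (c * d n ^ 2 + c' * d (n + 1) ^ 2) := by positivity
        linarith
    linarith
  -- bound of W
  obtain ⟨τ, hτ⟩ : ∃ τ, τ = 32 / T ^ 2 := ⟨_, rfl⟩
  have hτ0 : 0 ≤ τ := by rw [hτ]; positivity
  obtain ⟨K, hK⟩ : ∃ K, K = 4 + 2 * τ := ⟨_, rfl⟩
  have hK0 : 0 < K := by rw [hK]; positivity
  have hWb : ∀ n, W n ^ 2 ≤ K * (E n + E (n + 1) + E (n + 2)) := by
    intro n
    have hl := hlo (n + 3)
    have e4 : n + 3 + 1 = n + 4 := by ring
    rw [e4] at hl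
    have i0 := hE0 n
    have i1 := hE0 (n + 1)
    have i2 := hE0 (n + 2)
    have j0 := hE1 n
    have j1 := hE1 (n + 1)
    have j2 := hE1 (n + 2)
    have p3 := hx (n + 3)
    have p4 := hx (n + 4)
    have sqb : ∀ (a b X : ℝ), 0 < X → T / 4 ≤ X → (a - b / X) ^ 2 ≤ 2 * a ^ 2 + τ * b ^ 2 := by
      intro a b X hX hXT
      have h1 : (b / X) ^ 2 ≤ 16 / T ^ 2 * b ^ 2 := by
        rw [div_pow, div_le_iff₀ (by positivity)]
        have h2 : (T / 4) ^ 2 ≤ X ^ 2 := pow_le_pow_left₀ (by positivity) hXT 2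
        have h3 : 16 / T ^ 2 * b ^ 2 * (T / 4) ^ 2 ≤ 16 / T ^ 2 * b ^ 2 * X ^ 2 :=
          mul_le_mul_of_nonneg_left h2 (by positivity)
        have h4 : 16 / T ^ 2 * b ^ 2 * (T / 4) ^ 2 = b ^ 2 := by field_simp; ring
        linarith
      have h5 : τ * b ^ 2 = 2 * (16 / T ^ 2 * b ^ 2) := by rw [hτ]; ring
      rw [h5]
      nlinarith [sq_nonneg (a + b / X)]
    rcases le_or_gt (T / 4) (x (n + 3)) with h | h
    · have h1 := sqb (D * d n) (d (n + 1)) _ p3 h
      rw [← hid] at h1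
      have h2 : (D * d n) ^ 2 ≤ d n ^ 2 := by
        rw [mul_pow]
        have : D ^ 2 ≤ 1 := by nlinarith
        have := mul_le_mul_of_nonneg_right this (sq_nonneg (d n))
        linarith
      have h3 : τ * d (n + 1) ^ 2 ≤ τ * (2 * E (n + 1)) :=
        mul_le_mul_of_nonneg_left i1 hτ0
      have h4 : 0 ≤ τ * E n := by positivity
      have h5 : 0 ≤ τ * E (n + 2) := by positivity
      rw [hK]
      linarith
    · have h' : T / 4 ≤ x (n + 4) := by linarith
      have hid2 := hid (n + 1)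
      rw [hWs] at hid2
      have e5 : n + 1 + 3 = n + 4 := by ring
      have e6 : n + 1 + 1 = n + 2 := by ring
      rw [e5, e6] at hid2
      have hid3 : W n = (D - 1) * d (n + 1) - d (n + 2) / x (n + 4) := by
        linear_combination hid2
      have h1 := sqb ((D - 1) * d (n + 1)) (d (n + 2)) _ p4 h'
      rw [← hid3] at h1
      have h2 : ((D - 1) * d (n + 1)) ^ 2 ≤ d (n + 1) ^ 2 := by
        rw [mul_pow]
        have : (D - 1) ^ 2 ≤ 1 := by nlinarith
        have := mul_le_mul_of_nonneg_right this (sq_nonneg (d (n + 1)))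
        linarith
      have h3 : τ * d (n + 2) ^ 2 ≤ τ * (2 * E (n + 2)) :=
        mul_le_mul_of_nonneg_left i2 hτ0
      have h4 : 0 ≤ τ * E n := by positivity
      have h5 : 0 ≤ τ * E (n + 1) := by positivity
      rw [hK]
      linarith
  -- exponential decay
  obtain ⟨q, hq⟩ : ∃ q, q = 1 - 1 / (6 * (K + 1)) := ⟨_, rfl⟩
  have hq1 : q < 1 := by
    rw [hq]
    have : 0 < 1 / (6 * (K + 1)) := by positivity
    linarith
  have hq0 : 0 < q := by
    rw [hq]
    have : 1 / (6 * (K + 1)) < 1 := by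
      rw [div_lt_one (by positivity)]
      linarith
    linarith
  have hdec : ∀ n, G (n + 2) ≤ q * G n := by
    intro n
    have h1 := hstep n
    have h2 := hstep (n + 1)
    have e2 : n + 1 + 1 = n + 2 := by ring
    rw [e2] at h2
    have h3 := hWb n
    have j0 := hE1 n
    have j1 := hE1 (n + 1)
    have j2 := hE1 (n + 2)
    have h4 : G n ≤ (K + 1) * (E n + E (n + 1) + E (n + 2)) := by
      rw [hG]
      linarith
    have h5 : E n + E (n + 1) + E (n + 2) ≤ 6 * (G n - G (n + 2)) := by linarith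
    have h6 : (K + 1) * (E n + E (n + 1) + E (n + 2)) ≤ (K + 1) * (6 * (G n - G (n + 2))) :=
      mul_le_mul_of_nonneg_left h5 (by linarith)
    have h7 : G n * (1 / (6 * (K + 1))) ≤ G n - G (n + 2) := by
      rw [mul_one_div, div_le_iff₀ (by positivity)]
      linarith
    rw [hq]
    linarith
  have hgeo : ∀ n i, G (n + 2 * i) ≤ q ^ i * G n := by
    intro n i
    induction i with
    | zero => simp
    | succ i ih =>
      have h1 := hdec (n + 2 * i)
      have e : n + 2 * (i + 1) = n + 2 * i + 2 := by ring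
      rw [e]
      calc G (n + 2 * i + 2) ≤ q * G (n + 2 * i) := h1
        _ ≤ q * (q ^ i * G n) := mul_le_mul_of_nonneg_left ih hq0.le
        _ = q ^ (i + 1) * G n := by ring
  have hdb : ∀ n i, |d (n + 2 * i)| ≤ √(2 * G n) * (√q) ^ i := by
    intro n i
    have h1 : d (n + 2 * i) ^ 2 ≤ (√(2 * G n) * (√q) ^ i) ^ 2 := by
      have h2 := hE0 (n + 2 * i)
      have h3 : E (n + 2 * i) ≤ G (n + 2 * i) := by
        rw [hG]
        have := sq_nonneg (W (n + 2 * i))
        linarith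
      have h4 := hgeo n i
      have h5 : (√(2 * G n) * (√q) ^ i) ^ 2 = 2 * G n * q ^ i := by
        rw [mul_pow, Real.sq_sqrt (by linarith [hG0 n]), ← pow_mul, mul_comm i 2, pow_mul,
          Real.sq_sqrt hq0.le]
      rw [h5]
      linarith
    exact abs_le_of_sq_le_sq h1 (by positivity)
  have hr1 : √q < 1 := by
    rw [Real.sqrt_lt' one_pos]
    simpa using hq1
  have conv : ∀ n, ∃ c, Tendsto (fun i => x (n + 2 * i)) atTop (𝓝 c) := by
    intro n
    have : CauchySeq (fun i => x (n + 2 * i)) := by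
      apply cauchySeq_of_le_geometric (√q) (√(2 * G n)) hr1
      intro i
      have h1 := hdb n i
      rw [hd] at h1
      rw [Real.dist_eq, abs_sub_comm]
      have e : n + 2 * (i + 1) = n + 2 * i + 2 := by ring
      rw [e]
      exact h1
    exact cauchySeq_tendsto_of_complete this
  obtain ⟨c0, h0⟩ := conv 0
  obtain ⟨c1, h1⟩ := conv 1
  refine ⟨c0, c1, ?_, ?_⟩
  · refine h0.congr fun i => ?_
    congr 1
    ring
  · refine h1.congr fun i => ?_
    congr 1
    ring

end H23Rec
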