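import Pool.Agent.Lib_H23Rec.Zero3

/-!
# The case `α = 0`: assembling
-/

open Filter Topology Set

namespace H23Rec

theorem zero_core {A B D δ K : ℝ} (hA : 0 ≤ A) (hA1 : A < 1) (hB : 0 ≤ B) (hD : 0 < D)
    {x : ℕ → ℝ} (hx : ∀ n, 0 < x n) (hx1 : ∀ n, x n ≤ 1) (hr : Rec 0 A B D x)
    (hδ : 0 < δ) (hpair : ∀ n, δ ≤ x n ∨ δ ≤ x (n + 1)) (hK : ∀ n, RB x K n) : Conv2 x := by
  by_cases h1 : ∃ i, Up x 2 i
  · obtain ⟨i, h⟩ := h1
    exact conv2_of_up hA hB hD hx hx1 hr h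
  have h2 : ¬ ∃ i, Dn x 2 i := fun ⟨i, h⟩ => h1 ⟨i + 1, h.step hA hB hD hx hx1 hr⟩
  have hno : ∀ i, ¬ Up x 2 i ∧ ¬ Dn x 2 i :=
    fun i => ⟨fun h => h1 ⟨i, h⟩, fun h => h2 ⟨i, h⟩⟩
  rcases lt_or_ge 1 (limsup (Rt x) atTop) with hmu | hmu
  · exact conv2_of_min hA hA1 hx hr hδ hpair (min_tendsto_zero hA hB hD hx hx1 hr hno hK hmu)
  obtain ⟨hd, hq⟩ := small_of_limsup hx hx1 hK hmu
  have hl := lin_tendsto hx hr hd hq
  by_cases hs : B + D = 1
  · rw [hs] at hl
    have h3 := hl.eventually (lt_mem_nhds (show (1 - A) / 2 < 1 - A by linarith))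
    have h4 := hl.eventually (gt_mem_nhds (show 1 - A < 11 / 10 by linarith))
    obtain ⟨N, hN⟩ := eventually_atTop.1 (h3.and h4)
    apply Conv2.of_shift (N := N)
    refine conv2_one (A := A) hA1 hB hD hs (fun n => hx _) (fun n => hx1 _) (hr.shift N)
      (fun n => ?_) (fun n => ?_)
    · have := (hN (n + N) (by omega)).1
      have e : n + 1 + N = n + N + 1 := by ring
      rw [e]
      linarith
    · have := (hN (n + N) (by omega)).2
      have e : n + 1 + N = n + N + 1 := by ring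
      rw [e]
      linarith
  · exact conv2_ne_one hB hD hs hd hl

/-- the maximum of two consecutive terms stays away from zero -/
lemma pair_lower {A B D : ℝ} (hA : 0 ≤ A) (hA1 : A < 1) (hB : 0 ≤ B) (hD : 0 < D)
    {x : ℕ → ℝ} (hx : ∀ n, 0 < x n) (hx1 : ∀ n, x n ≤ 1) (hr : Rec 0 A B D x) :
    ∃ δ, 0 < δ ∧ ∀ n, δ ≤ x (n + 2) ∨ δ ≤ x (n + 3) := by
  obtain ⟨C, hC⟩ : ∃ C, C = A + B + 1 + D := ⟨_, rfl⟩
  have hC1 : 1 ≤ C := by rw [hC]; linarith
  have hC0 : 0 < C := by linarith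
  obtain ⟨δ0, hδ0⟩ : ∃ δ0, δ0 = (1 - A) / (B + 1 + D) := ⟨_, rfl⟩
  have hQ : 0 < B + 1 + D := by linarith
  have hA' : 0 < 1 - A := by linarith
  have hδ0p : 0 < δ0 := by rw [hδ0]; positivity
  have hδ0e : (B + 1 + D) * δ0 = 1 - A := by rw [hδ0]; field_simp
  obtain ⟨δ, hδ⟩ : ∃ δ, δ = min (x 2) (δ0 / C) := ⟨_, rfl⟩
  have hδp : 0 < δ := by rw [hδ]; exact lt_min (hx 2) (by positivity)
  have hδ1 : δ ≤ x 2 := by rw [hδ]; exact min_le_left _ _
  have hδ2 : δ ≤ δ0 / C := by rw [hδ]; exact min_le_right _ _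
  have hδ3 : C * δ ≤ δ0 := by
    calc C * δ ≤ C * (δ0 / C) := mul_le_mul_of_nonneg_left hδ2 hC0.le
      _ = δ0 := by field_simp
  have hδ4 : δ ≤ δ0 := by
    have : 1 * δ ≤ C * δ := mul_le_mul_of_nonneg_right hC1 hδp.le
    linarith
  -- lag two lower bound
  have hlag : ∀ n, x (n + 1) ≤ C * x (n + 3) := by
    intro n
    have h := hr n
    rw [zero_add] at h
    rw [← h, mul_comm C]
    apply mul_le_mul_of_nonneg_left _ (hx _).le
    have h1 : B * x (n + 2) ≤ B * 1 := mul_le_mul_of_nonneg_left (hx1 _) hB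
    have h2 : D * x n ≤ D * 1 := mul_le_mul_of_nonneg_left (hx1 _) hD.le
    have h3 := hx1 (n + 1)
    rw [hC]
    linarith
  have hbig : ∀ n, δ0 ≤ x (n + 1) → δ ≤ x (n + 3) := by
    intro n h
    have h1 := hlag n
    have : C * δ ≤ C * x (n + 3) := by linarith
    exact le_of_mul_le_mul_left this hC0
  refine ⟨δ, hδp, fun n => ?_⟩
  induction n with
  | zero => left; exact hδ1
  | succ n ih =>
    change δ ≤ x (n + 3) ∨ δ ≤ x (n + 4)
    by_cases c1 : δ0 ≤ x (n + 1)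
    · left; exact hbig n c1
    by_cases c2 : δ0 ≤ x (n + 2)
    · right; exact hbig (n + 1) c2
    by_cases c3 : δ0 ≤ x (n + 3)
    · left; linarith
    push Not at c1 c2 c3
    rcases ih with h | h
    · right
      have h1 := hr (n + 1)
      rw [zero_add] at h1
      change x (n + 4) * (A + B * x (n + 3) + x (n + 2) + D * x (n + 1)) = x (n + 2) at h1
      have h2 : A + B * x (n + 3) + x (n + 2) + D * x (n + 1) ≤ 1 := by
        have g1 : B * x (n + 3) ≤ B * δ0 := mul_le_mul_of_nonneg_left c3.le hB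
        have g2 : D * x (n + 1) ≤ D * δ0 := mul_le_mul_of_nonneg_left c1.le hD.le
        linarith
      have h3 : x (n + 4) * (A + B * x (n + 3) + x (n + 2) + D * x (n + 1)) ≤ x (n + 4) * 1 :=
        mul_le_mul_of_nonneg_left h2 (hx _).le
      linarith
    · left; exact h

/-- the ratios are bounded -/
lemma RB_bound {A B D δ : ℝ} (hA : 0 ≤ A) (hB : 0 ≤ B) (hD : 0 < D)
    {x : ℕ → ℝ} (hx : ∀ n, 0 < x n) (hx1 : ∀ n, x n ≤ 1) (hr : Rec 0 A B D x)
    (hδ : 0 < δ) (hpair : ∀ n, δ ≤ x n ∨ δ ≤ x (n + 1)) : ∃ K, ∀ n, RB x K (n + 1) := by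
  obtain ⟨C, hC⟩ : ∃ C, C = A + B + 1 + D := ⟨_, rfl⟩
  obtain ⟨κ, hκ⟩ : ∃ κ, κ = min δ (D * δ) := ⟨_, rfl⟩
  have hκ0 : 0 < κ := by rw [hκ]; exact lt_min hδ (by positivity)
  have hκ1 : κ ≤ δ := by rw [hκ]; exact min_le_left _ _
  have hκ2 : κ ≤ D * δ := by rw [hκ]; exact min_le_right _ _
  refine ⟨max C (1 / κ), fun n => ?_⟩
  have h := hr n
  rw [zero_add] at h
  have x0 := hx n
  have x1 := hx (n + 1)
  have x2 := hx (n + 2)
  have x3 := hx (n + 3)
  have hup : A + B * x (n + 2) + x (n + 1) + D * x n ≤ C := by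
    have h1 : B * x (n + 2) ≤ B * 1 := mul_le_mul_of_nonneg_left (hx1 _) hB
    have h2 : D * x n ≤ D * 1 := mul_le_mul_of_nonneg_left (hx1 _) hD.le
    have h3 := hx1 (n + 1)
    rw [hC]
    linarith
  have hlo : κ ≤ A + B * x (n + 2) + x (n + 1) + D * x n := by
    have h1 : 0 ≤ B * x (n + 2) := by positivity
    have h2 : 0 ≤ D * x n := by positivity
    rcases hpair n with g | g
    · have : D * δ ≤ D * x n := mul_le_mul_of_nonneg_left g hD.le
      linarith
    · linarith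
  constructor
  · change x (n + 3) ≤ max C (1 / κ) * x (n + 1)
    have h1 : x (n + 3) * κ ≤ x (n + 1) := by
      have := mul_le_mul_of_nonneg_left hlo x3.le
      linarith
    have h2 : 1 / κ * x (n + 1) ≤ max C (1 / κ) * x (n + 1) :=
      mul_le_mul_of_nonneg_right (le_max_right _ _) x1.le
    have h3 : x (n + 3) ≤ 1 / κ * x (n + 1) := by
      rw [one_div, ← div_eq_inv_mul, le_div_iff₀ hκ0]
      exact h1
    linarith
  · change x (n + 1) ≤ max C (1 / κ) * x (n + 3)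
    have h1 : x (n + 1) ≤ x (n + 3) * C := by
      have := mul_le_mul_of_nonneg_left hup x3.le
      linarith
    have h2 : C * x (n + 3) ≤ max C (1 / κ) * x (n + 3) :=
      mul_le_mul_of_nonneg_right (le_max_left _ _) x3.le
    linarith

/-- The case `α = 0`, `A < 1`, positive solutions. -/
theorem zero_pos {A B D : ℝ} (hA : 0 ≤ A) (hA1 : A < 1) (hB : 0 ≤ B) (hD : 0 < D)
    {x : ℕ → ℝ} (hx : ∀ n, 0 < x n) (hr : Rec 0 A B D x) :
    Conv2 x ∧ ∃ δ, 0 < δ ∧ ∃ N, ∀ n ≥ N, δ ≤ x n ∨ δ ≤ x (n + 1) := by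
  have hx3 : ∀ n, x (n + 3) ≤ 1 := by
    intro n
    have h := hr n
    rw [zero_add] at h
    have x0 := hx n
    have x1 := hx (n + 1)
    have x2 := hx (n + 2)
    have x3 := hx (n + 3)
    have h1 : x (n + 3) * x (n + 1) ≤ 1 * x (n + 1) := by
      have : 0 ≤ x (n + 3) * (A + B * x (n + 2) + D * x n) := by positivity
      linarith
    exact le_of_mul_le_mul_right h1 x1
  obtain ⟨δ, hδ, hp⟩ := pair_lower (x := fun n => x (n + 3)) hA hA1 hB hD (fun n => hx _) hx3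
    (hr.shift 3)
  have hp5 : ∀ n, δ ≤ x (n + 5) ∨ δ ≤ x (n + 5 + 1) := fun n => hp n
  obtain ⟨K, hK⟩ := RB_bound (x := fun n => x (n + 5)) hA hB hD (fun n => hx _)
    (fun n => hx3 (n + 2)) (hr.shift 5) hδ (fun n => by
      have := hp5 n
      have e : n + 1 + 5 = n + 5 + 1 := by ring
      rw [e]
      exact this)
  refine ⟨?_, δ, hδ, 5, fun n hn => ?_⟩
  · apply Conv2.of_shift (N := 6)
    refine zero_core (x := fun n => x (n + 6)) hA hA1 hB hD (fun n => hx _)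
      (fun n => hx3 (n + 3)) (hr.shift 6) hδ (fun n => ?_) (K := K) (fun n => ?_)
    · have := hp5 (n + 1)
      have e1 : n + 1 + 5 = n + 6 := by ring
      rw [e1] at this
      have e2 : n + 1 + 6 = n + 6 + 1 := by ring
      rw [e2]
      exact this
    · have h := hK n
      constructor
      · have := h.1
        dsimp only at this ⊢
        have e1 : n + 1 + 2 + 5 = n + 2 + 6 := by ring
        have e2 : n + 1 + 5 = n + 6 := by ring
        rw [e1, e2] at this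
        exact this
      · have := h.2
        dsimp only at this ⊢
        have e1 : n + 1 + 2 + 5 = n + 2 + 6 := by ring
        have e2 : n + 1 + 5 = n + 6 := by ring
        rw [e1, e2] at this
        exact this
  · have := hp5 (n - 5)
    have e : n - 5 + 5 = n := by omega
    rw [e] at this
    exact this

end H23Rec
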